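import Pool.Agent.Lib.MP_3f2ee3_pr.Sym

/-!
# MP_3f2ee3_pr: the error of an estimator at one hyperedge
-/

set_option autoImplicit false
set_option linter.unusedSectionVars false

namespace Pool.Agent.Hyp

open Finset

variable {V : Type*} [DecidableEq V]

theorem blind_of_forall {B : Finset (Finset V)} {g : Finset (Finset V) → ℝ}
    (h : ∀ u ∈ B, Blind {u} g) : Blind B g := by
  induction B using Finset.induction_on with
  | empty => intro G; rw [union_empty]
  | insert u B _ ih =>
    intro G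
    have h1 : G ∪ insert u B = (G ∪ B) ∪ {u} := by
      rw [insert_eq, union_comm {u} B, union_assoc]
    rw [h1, h u (mem_insert_self _ _), ih (fun v hv => h v (mem_insert_of_mem hv))]

theorem Cm_blind_self {𝒩 : Finset V → Finset (Finset V)} {U : Finset (Finset V)}
    (hU : ∀ u ∈ U, u.card = 2) (h𝒩 : ∀ u ∈ U, ∀ h ∈ 𝒩 u, u ⊆ h) (g : Finset (Finset V) → ℝ) :
    Blind U (Cm 𝒩 U.val g) := by
  refine blind_of_forall fun u hu G => ?_
  have h1 : U.val = u ::ₘ (U.erase u).val := by
    rw [erase_val, Multiset.cons_erase hu]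
  rw [h1, Cm_cons]
  unfold av
  congr 1
  refine sum_congr rfl fun h hh => ?_
  congr 1
  have h2 : u ∈ prs h := mem_prs.2 ⟨h𝒩 u hu h hh, hU u hu⟩
  rw [← union_assoc, union_eq_left]
  intro v hv
  rw [mem_singleton] at hv
  rw [hv]
  exact mem_union_left _ h2

variable [Fintype V]

/-- a planted pair cannot be distinguished from a planted hyperedge over it -/
def PlantRel (V : Type*) [DecidableEq V] [Fintype V] (d : ℕ) (c ε : ℝ) : Prop :=
  ∀ u : Finset V, u.card = 2 → ∀ g : Finset (Finset V) → ℝ, UI g →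
    |mu d c (fun G => g ({u} ∪ G)) - mu d c (Cm (Nu d) {u} g)| ≤ ε

theorem plant_S {S : Finset (Finset V)} {p : Finset V → ℝ} (hp : Prob S p) {d : ℕ} {c ε : ℝ}
    (hS : hyp V d ⊆ S) (hc : ∀ t ∈ hyp V d, p t = c) (hPR : PlantRel V d c ε)
    {u : Finset V} (hu : u.card = 2) {g : Finset (Finset V) → ℝ} (hg : UI g) :
    |Ex S p (fun H => g ({u} ∪ pr H)) - Ex S p (fun H => Cm (Nu d) {u} g (pr H))| ≤ ε := by
  have hS' : (S \ hyp V d) ∪ hyp V d = S := sdiff_union_of_subset hS
  have hdisj : Disjoint (S \ hyp V d) (hyp V d) := sdiff_disjoint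
  have key : ∀ f : Finset (Finset V) → ℝ, Ex S p f
      = Ex (S \ hyp V d) p (fun A => Ex (hyp V d) (fun _ => c) (fun B => f (A ∪ B))) := by
    intro f
    conv_lhs => rw [← hS']
    rw [Ex_union hdisj]
    congr 1
    funext A
    exact Ex_congr_p hc
  rw [key, key, ← Ex_sub]
  have hp' : Prob (S \ hyp V d) p := hp.mono sdiff_subset
  refine (abs_Ex_le hp' _).trans (Ex_le hp' fun A _ => ?_)
  have h1 := hPR u hu (fun G => g (pr A ∪ G)) (fun G => hg _)
  unfold mu at h1
  have e1 : ∀ B, g ({u} ∪ pr (A ∪ B)) = g (pr A ∪ ({u} ∪ pr B)) := by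
    intro B
    rw [pr_union, union_left_comm]
  have e2 : ∀ B, Cm (Nu d) {u} g (pr (A ∪ B)) = Cm (Nu d) {u} (fun G => g (pr A ∪ G)) (pr B) := by
    intro B
    rw [Cm_translate, pr_union]
  simp only [e1, e2]
  exact h1

theorem plant_multi {S : Finset (Finset V)} {p : Finset V → ℝ} (hp : Prob S p) {d : ℕ} {c ε : ℝ}
    (hS : hyp V d ⊆ S) (hc : ∀ t ∈ hyp V d, p t = c) (hPR : PlantRel V d c ε)
    (U : Finset (Finset V)) (hU : ∀ u ∈ U, u.card = 2) {g : Finset (Finset V) → ℝ} (hg : UI g) :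
    |Ex S p (fun H => g (U ∪ pr H)) - Ex S p (fun H => Cm (Nu d) U.val g (pr H))|
      ≤ U.card * ε := by
  induction U using Finset.induction_on generalizing g with
  | empty => simp
  | insert u U hu ih =>
    have ih' := ih (fun v hv => hU v (mem_insert_of_mem hv)) (Cm_UI (Nu d) {u} hg)
    have h1 := plant_S hp hS hc hPR (hU u (mem_insert_self _ _)) (g := fun G => g (U ∪ G))
      (fun G => hg _)
    have e1 : ∀ G, g (insert u U ∪ G) = g (U ∪ ({u} ∪ G)) := by
      intro G
      rw [insert_eq, union_assoc, union_left_comm]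
    have e2 : ∀ G, Cm (Nu d) {u} (fun G => g (U ∪ G)) G = Cm (Nu d) {u} g (U ∪ G) :=
      fun G => Cm_translate _ _ _ _ _
    have e3 : ∀ G, Cm (Nu d) (insert u U).val g G = Cm (Nu d) U.val (Cm (Nu d) {u} g) G := by
      intro G
      rw [insert_val_of_notMem hu, ← Multiset.singleton_add, add_comm, Cm_add]
    simp only [e1, e3]
    simp only [e2] at h1
    rw [card_insert_of_notMem hu]
    refine (abs_sub_le _ _ _).trans ((add_le_add h1 ih').trans (le_of_eq ?_))
    push_cast
    ring

theorem est_bound {S : Finset (Finset V)} {p : Finset V → ℝ} (hp : Prob S p) {d : ℕ}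
    {c ε κ : ℝ} (hd : 2 ≤ d) (hS : hyp V d ⊆ S) (hc : ∀ t ∈ hyp V d, p t = c)
    (hc0 : 0 ≤ c) (hPR : PlantRel V d c ε) (hε0 : 0 ≤ ε) {K : Finset V}
    (hK : K ∈ S) (hK3 : 3 ≤ K.card) (hκ0 : 0 ≤ κ)
    (hκ : (1 - κ) * ((Fintype.card V - 2).choose (d - 2) : ℝ)
      ≤ ((Fintype.card V - K.card).choose (d - 2) : ℝ))
    (hN : 0 < (Fintype.card V - K.card).choose (d - 2))
    {Y : ℝ} (hY : Y = c * ((Fintype.card V - K.card).choose (d - 2) : ℝ)) (hY1 : Y ≤ 1)
    {m : ℕ} (hm : m = K.card.choose 2) (hpK : p K ≤ Y ^ m)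
    {g : Finset (Finset V) → ℝ} (hg : UI g) :
    p K * (1 - (m * (ε + κ) + p K + 2 ^ m * Y))
      ≤ Ex S p (fun H => if K ∈ H then 1 - g (pr H) else g (pr H)) := by
  have hm' : (prs K).card = m := by rw [prs, card_powersetCard, hm]
  have hY0 : 0 ≤ Y := by rw [hY]; positivity
  have hpK0 := (hp K hK).1
  have hpK1 := (hp K hK).2
  have hNc : ∀ u ∈ prs K, (Ni d K u).card = (Fintype.card V - K.card).choose (d - 2) := by
    intro u hu
    rw [mem_prs] at hu
    rw [card_Ni hu.1 (by omega), hu.2]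
  have hKN : ∀ u ∈ prs K, K ∉ Ni d K u := by
    intro u hu hcon
    rw [mem_prs] at hu
    rw [mem_Ni, inter_self] at hcon
    have := hcon.2
    rw [← this] at hu
    omega
  have hNS : ∀ u ∈ prs K, Ni d K u ⊆ S := fun u _ => (Ni_subset d K u).trans hS
  have hNS' : ∀ u ∈ prs K, Ni d K u ⊆ S.erase K := by
    intro u hu t ht
    rw [mem_erase]
    refine ⟨fun h => hKN u hu (h ▸ ht), hNS u hu ht⟩
  have hNp : ∀ u ∈ prs K, ∀ t ∈ Ni d K u, p t = c := fun u _ t ht => hc t (Ni_subset d K u ht)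
  have hNd : ∀ u ∈ prs K, ∀ v ∈ prs K, u ≠ v → Disjoint (Ni d K u) (Ni d K v) :=
    fun u _ v _ h => Ni_disjoint d K h
  set X : Finset (Finset V) → ℝ := fun H => ∏ u ∈ prs K, ((H ∩ Ni d K u).card : ℝ) with hX
  have hXK : ∀ H, X (insert K H) = X H := by
    intro H
    simp only [hX]
    refine prod_congr rfl fun u hu => ?_
    rw [insert_inter_card_of_notMem (hKN u hu)]
  have hprod : ∏ u ∈ prs K, (c * ((Ni d K u).card : ℝ)) = Y ^ m := by
    rw [← hm', ← prod_const]
    refine prod_congr rfl fun u hu => ?_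
    rw [hNc u hu, hY]
  -- b and a
  set b : ℝ := Ex S p (fun H => g (prs K ∪ pr H)) with hb
  set a : ℝ := Ex S p (fun H => if K ∈ H then 0 else g (pr H)) with ha
  have hb1 : b ≤ 1 := Ex_le hp fun H _ => (hg _).2
  have hsplit : Ex S p (fun H => if K ∈ H then 1 - g (pr H) else g (pr H))
      = p K * (1 - b) + a := by
    have h1 : (fun H : Finset (Finset V) => if K ∈ H then 1 - g (pr H) else g (pr H))
        = fun H => (if K ∈ H then (1 - g (pr H)) else 0) + (if K ∈ H then 0 else g (pr H)) := by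
      funext H
      split_ifs <;> simp
    rw [h1, Ex_add, Ex_mem hK p (fun H => 1 - g (pr H)), Ex_sub, Ex_const]
    simp only [pr_insert]
    rfl
  have ha0 : 0 ≤ a := Ex_nonneg hp fun H _ => by
    split_ifs
    · exact le_refl _
    · exact (hg _).1
  -- the comparison
  have hC : |b - Ex S p (fun H => Cm (Ni d K) (prs K).val g (pr H))| ≤ m * (ε + κ) := by
    have h1 := plant_multi hp hS hc hPR (prs K) (fun u hu => (mem_prs.1 hu).2) hg
    have h2 : ∀ G, |Cm (Ni d K) (prs K).val g G - Cm (Nu d) (prs K).val g G| ≤ m * κ := by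
      intro G
      have h5 := Cm_change (𝒩 := Nu d) (𝒩' := Ni d K) (κ := κ) (prs K).val
        (fun u _ => Ni_subset_Nu) hκ0
        (by
          intro u hu
          have hu' : u ∈ prs K := hu
          rw [hNc u hu']
          rw [mem_prs] at hu'
          rw [card_Nu (by omega), hu'.2]
          exact hκ)
        (by
          intro u hu
          have hu' : u ∈ prs K := hu
          rw [hNc u hu']
          exact hN) hg G
      have h3 : Multiset.card (prs K).val = m := hm'
      rw [h3] at h5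
      exact h5
    have h6 : |Ex S p (fun H => Cm (Nu d) (prs K).val g (pr H))
        - Ex S p (fun H => Cm (Ni d K) (prs K).val g (pr H))| ≤ m * κ := by
      rw [← Ex_sub]
      refine (abs_Ex_le hp _).trans (Ex_le hp fun H _ => ?_)
      rw [abs_sub_comm]
      exact h2 (pr H)
    rw [hm'] at h1
    refine (abs_sub_le _ _ _).trans ((add_le_add h1 h6).trans (le_of_eq ?_))
    ring
  -- blindness
  have hbl : Blind (prs K) (Cm (Ni d K) (prs K).val g) := by
    refine Cm_blind_self (fun u hu => (mem_prs.1 hu).2) (fun u _ h hh => ?_) g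
    rw [mem_Ni] at hh
    rw [← hh.2]
    exact inter_subset_left
  have hSK : insert K (S.erase K) = S := insert_erase hK
  have hKK : K ∉ S.erase K := notMem_erase _ _
  have hCS : Ex S p (fun H => Cm (Ni d K) (prs K).val g (pr H))
      = Ex (S.erase K) p (fun H => Cm (Ni d K) (prs K).val g (pr H)) := by
    conv_lhs => rw [← hSK]
    rw [Ex_insert hKK]
    have h1 : ∀ H, Cm (Ni d K) (prs K).val g (pr (insert K H))
        = Cm (Ni d K) (prs K).val g (pr H) := by
      intro H
      rw [pr_insert, union_comm]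
      exact hbl _
    simp only [h1]
    ring
  -- first moment with the indicator
  have hfirst : Ex S p (fun H => X H * (if K ∈ H then 0 else g (pr H)))
      = (1 - p K) * (Y ^ m * Ex S p (fun H => Cm (Ni d K) (prs K).val g (pr H))) := by
    conv_lhs => rw [← hSK]
    rw [Ex_insert hKK]
    have h1 : ∀ H, X (insert K H) * (if K ∈ insert K H then (0 : ℝ) else g (pr (insert K H)))
        = 0 := by
      intro H
      rw [if_pos (mem_insert_self _ _), mul_zero]
    have h2 : Ex (S.erase K) p (fun H => X H * (if K ∈ H then (0 : ℝ) else g (pr H)))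
        = Ex (S.erase K) p (fun H => X H * g (pr H)) := by
      refine Ex_congr fun H hH => ?_
      rw [if_neg (fun h => hKK (hH h))]
    simp only [h1]
    rw [Ex_const, h2, mul_zero, zero_add]
    simp only [hX]
    rw [Ex_prod_card_mul (Ni d K) (prs K) hNS' hNp hNd, hprod, hCS]
  have hX1 : Ex S p X = Y ^ m := by
    simp only [hX]
    rw [Ex_prod_card (Ni d K) (prs K) hNS hNp hNd, hprod]
  have hX2 : Ex S p (fun H => X H ^ 2) ≤ Y ^ m + Y ^ m * (2 ^ m * Y) := by
    simp only [hX]
    refine (Ex_prod_card_sq_le hp (Ni d K) (prs K) hc0 hNS hNp hNd).trans ?_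
    have h1 : ∏ u ∈ prs K, (c * ((Ni d K u).card : ℝ) * (1 + c * ((Ni d K u).card : ℝ)))
        = (Y * (1 + Y)) ^ m := by
      rw [← hm', ← prod_const]
      refine prod_congr rfl fun u hu => ?_
      rw [hNc u hu, hY]
    rw [h1, mul_pow]
    have h2 := one_add_pow_le m hY0 hY1
    have h3 : (1 + Y) ^ m ≤ 1 + 2 ^ m * Y := by nlinarith
    have h4 : 0 ≤ Y ^ m := by positivity
    nlinarith
  have hXnat : ∀ H, X H ≤ X H ^ 2 := by
    intro H
    have h1 : X H = ((∏ u ∈ prs K, (H ∩ Ni d K u).card : ℕ) : ℝ) := by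
      simp only [hX]; push_cast; rfl
    rw [h1]
    have h2 : ∀ j : ℕ, (j : ℝ) ≤ (j : ℝ) ^ 2 := by
      intro j
      rcases Nat.eq_zero_or_pos j with h | h
      · rw [h]; simp
      · have : (1 : ℝ) ≤ j := by exact_mod_cast h
        nlinarith
    exact h2 _
  have ha1 : (1 - p K) * (Y ^ m * Ex S p (fun H => Cm (Ni d K) (prs K).val g (pr H)))
      - Y ^ m * (2 ^ m * Y) ≤ a := by
    rw [← hfirst]
    have h1 : Ex S p (fun H => X H * (if K ∈ H then 0 else g (pr H)) - (X H ^ 2 - X H)) ≤ a := by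
      refine Ex_mono hp fun H _ => ?_
      have h2 := hXnat H
      split_ifs with h3
      · linarith
      · have h4 := hg (pr H)
        nlinarith [sq_nonneg (X H - 1)]
    rw [Ex_sub, Ex_sub, hX1] at h1
    linarith
  rw [hsplit]
  set b' := Ex S p (fun H => Cm (Ni d K) (prs K).val g (pr H)) with hb'
  have hYm : 0 ≤ Y ^ m := by positivity
  have hE0 : (0 : ℝ) ≤ m * (ε + κ) := by positivity
  have hE1 : 0 ≤ 2 ^ m * Y := by positivity
  set errs := m * (ε + κ) + p K + 2 ^ m * Y with herrs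
  rcases le_or_gt b errs with hlt | hlt
  · nlinarith
  · have h1 : b - m * (ε + κ) ≤ b' := by
      have := (abs_le.1 hC).2
      linarith
    have h2 : b - errs ≤ (1 - p K) * b' - 2 ^ m * Y := by
      have h3 : (1 - p K) * (b - m * (ε + κ)) ≤ (1 - p K) * b' :=
        mul_le_mul_of_nonneg_left h1 (by linarith)
      nlinarith
    have h4 : Y ^ m * (b - errs) ≤ a := by
      refine le_trans ?_ ha1
      calc Y ^ m * (b - errs) ≤ Y ^ m * ((1 - p K) * b' - 2 ^ m * Y) :=
            mul_le_mul_of_nonneg_left h2 hYm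
        _ = _ := by ring
    have h5 : p K * (b - errs) ≤ Y ^ m * (b - errs) :=
      mul_le_mul_of_nonneg_right hpK (by linarith)
    nlinarith

end Pool.Agent.Hyp
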