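import Mathlib

/-!
# MP_3f2ee3_pr: sequences of the form `n ^ (a + o(1))`
-/

set_option autoImplicit false

namespace Pool.Agent.Hyp

open Filter Topology

/-- `x n = n ^ (a + o(1))` -/
def Expo (x : ℕ → ℝ) (a : ℝ) : Prop :=
  (∀ᶠ n in atTop, 0 < x n) ∧ Tendsto (fun n : ℕ => Real.log (x n) / Real.log n) atTop (𝓝 a)

theorem tendsto_log_nat : Tendsto (fun n : ℕ => Real.log (n : ℝ)) atTop atTop :=
  Real.tendsto_log_atTop.comp tendsto_natCast_atTop_atTop

theorem Expo.mul {x y : ℕ → ℝ} {a b : ℝ} (hx : Expo x a) (hy : Expo y b) :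
    Expo (fun n => x n * y n) (a + b) := by
  refine ⟨?_, ?_⟩
  · filter_upwards [hx.1, hy.1] with n h1 h2 using mul_pos h1 h2
  · refine (hx.2.add hy.2).congr' ?_
    filter_upwards [hx.1, hy.1] with n h1 h2
    rw [Real.log_mul h1.ne' h2.ne', add_div]

theorem Expo.inv {x : ℕ → ℝ} {a : ℝ} (hx : Expo x a) : Expo (fun n => (x n)⁻¹) (-a) := by
  refine ⟨?_, ?_⟩
  · filter_upwards [hx.1] with n h1 using inv_pos.2 h1
  · refine hx.2.neg.congr' ?_
    filter_upwards [hx.1] with n h1
    rw [Real.log_inv, neg_div]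

theorem Expo.div {x y : ℕ → ℝ} {a b : ℝ} (hx : Expo x a) (hy : Expo y b) :
    Expo (fun n => x n / y n) (a - b) := by
  have := hx.mul hy.inv
  simpa only [div_eq_mul_inv, sub_eq_add_neg] using this

theorem Expo.of_tendsto {x : ℕ → ℝ} {L : ℝ} (hL : 0 < L) (hx : Tendsto x atTop (𝓝 L)) :
    Expo x 0 := by
  refine ⟨hx.eventually (lt_mem_nhds hL), ?_⟩
  exact (hx.log hL.ne').div_atTop tendsto_log_nat

theorem Expo.const {c : ℝ} (hc : 0 < c) : Expo (fun _ => c) 0 :=
  Expo.of_tendsto hc tendsto_const_nhds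

theorem Expo.natCast : Expo (fun n => (n : ℝ)) 1 := by
  refine ⟨?_, ?_⟩
  · filter_upwards [eventually_gt_atTop 0] with n hn
    exact_mod_cast hn
  · refine tendsto_const_nhds.congr' ?_
    filter_upwards [tendsto_log_nat.eventually_gt_atTop 0] with n hn
    rw [div_self hn.ne']

theorem Expo.pow {x : ℕ → ℝ} {a : ℝ} (hx : Expo x a) (k : ℕ) :
    Expo (fun n => x n ^ k) (k * a) := by
  induction k with
  | zero => simpa using Expo.const one_pos
  | succ k ih =>
    have := ih.mul hx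
    simp only [pow_succ]
    convert this using 1
    push_cast
    ring

theorem Expo.congr {x y : ℕ → ℝ} {a : ℝ} (hx : Expo x a) (h : ∀ᶠ n in atTop, x n = y n) :
    Expo y a := by
  refine ⟨?_, ?_⟩
  · filter_upwards [hx.1, h] with n h1 h2 using h2 ▸ h1
  · refine hx.2.congr' ?_
    filter_upwards [h] with n h2
    rw [h2]

theorem Expo.of_bounds {x y : ℕ → ℝ} {a A B : ℝ} (hy : Expo y a) (hA : 0 < A) (hB : 0 < B)
    (h1 : ∀ᶠ n in atTop, A * y n ≤ x n) (h2 : ∀ᶠ n in atTop, x n ≤ B * y n) : Expo x a := by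
  have hx : ∀ᶠ n in atTop, 0 < x n := by
    filter_upwards [hy.1, h1] with n h3 h4
    exact lt_of_lt_of_le (mul_pos hA h3) h4
  refine ⟨hx, ?_⟩
  have l1 := ((Expo.const hA).mul hy).2
  have l2 := ((Expo.const hB).mul hy).2
  rw [zero_add] at l1 l2
  refine tendsto_of_tendsto_of_tendsto_of_le_of_le' l1 l2 ?_ ?_
  · filter_upwards [hy.1, h1, tendsto_log_nat.eventually_gt_atTop 0] with n h3 h4 h5
    exact div_le_div_of_nonneg_right (Real.log_le_log (mul_pos hA h3) h4) h5.le
  · filter_upwards [hx, h2, tendsto_log_nat.eventually_gt_atTop 0] with n h3 h4 h5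
    exact div_le_div_of_nonneg_right (Real.log_le_log h3 h4) h5.le

theorem Expo.tendsto_zero {x : ℕ → ℝ} {a : ℝ} (hx : Expo x a) (ha : a < 0) :
    Tendsto x atTop (𝓝 0) := by
  have h1 : Tendsto (fun n : ℕ => Real.log (x n) / Real.log n * Real.log n) atTop atBot :=
    Tendsto.neg_mul_atTop ha hx.2 tendsto_log_nat
  have h2 := Real.tendsto_exp_atBot.comp h1
  refine h2.congr' ?_
  filter_upwards [hx.1, tendsto_log_nat.eventually_gt_atTop 0] with n h3 h4
  simp only [Function.comp]
  rw [div_mul_cancel₀ _ h4.ne', Real.exp_log h3]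

theorem Expo.tendsto_atTop {x : ℕ → ℝ} {a : ℝ} (hx : Expo x a) (ha : 0 < a) :
    Tendsto x atTop atTop := by
  have h1 := hx.inv.tendsto_zero (by linarith)
  have h2 : Tendsto (fun n => (x n)⁻¹) atTop (𝓝[>] 0) := by
    rw [tendsto_nhdsWithin_iff]
    refine ⟨h1, ?_⟩
    filter_upwards [hx.1] with n hn using inv_pos.2 hn
  have h3 := h2.inv_tendsto_nhdsGT_zero
  simpa [Pi.inv_def] using h3

theorem Expo.lt_of_lt {x y : ℕ → ℝ} {a b : ℝ} (hx : Expo x a) (hy : Expo y b) (hab : a < b) :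
    ∀ᶠ n in atTop, x n < y n := by
  have h1 := (hx.div hy).tendsto_zero (by linarith)
  filter_upwards [hy.1, h1.eventually (gt_mem_nhds (zero_lt_one))] with n h2 h3
  rwa [div_lt_one h2] at h3

/-- binomial coefficients, up to constants -/
theorem tendsto_choose_div_pow (a b : ℕ) :
    Tendsto (fun n : ℕ => ((n - a).choose b : ℝ) / (n : ℝ) ^ b) atTop
      (𝓝 (1 / (b.factorial : ℝ))) := by
  have h1 := isEquivalent_choose b
  have hb : (b.factorial : ℝ) ≠ 0 := by exact_mod_cast b.factorial_ne_zero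
  have hne : ∀ᶠ n : ℕ in atTop, ((n : ℝ) ^ b / (b.factorial : ℝ)) ≠ 0 := by
    filter_upwards [eventually_gt_atTop 0] with n hn
    have : (0 : ℝ) < n := by exact_mod_cast hn
    positivity
  rw [Asymptotics.isEquivalent_iff_tendsto_one hne] at h1
  have h2 : Tendsto (fun n : ℕ => n - a) atTop atTop := tendsto_sub_atTop_nat a
  have h3 := h1.comp h2
  have h4 : Tendsto (fun n : ℕ => (((n - a : ℕ) : ℝ) / n)) atTop (𝓝 1) := by
    have h5 : Tendsto (fun n : ℕ => 1 - (a : ℝ) * (n : ℝ)⁻¹) atTop (𝓝 1) := by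
      have := (tendsto_inv_atTop_nhds_zero_nat (𝕜 := ℝ)).const_mul (a : ℝ)
      have := this.const_sub 1
      simpa using this
    refine h5.congr' ?_
    filter_upwards [eventually_ge_atTop (a + 1)] with n hn
    have h0 : (n : ℝ) ≠ 0 := by
      have : n ≠ 0 := by omega
      exact_mod_cast this
    rw [Nat.cast_sub (by omega)]
    field_simp
  have h6 := (h3.mul (h4.pow b)).div_const (b.factorial : ℝ)
  rw [one_pow, mul_one] at h6
  refine h6.congr' ?_
  filter_upwards [eventually_ge_atTop (a + 1)] with n hn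
  have h0 : (n : ℝ) ≠ 0 := by
    have : n ≠ 0 := by omega
    exact_mod_cast this
  have h0' : ((n - a : ℕ) : ℝ) ≠ 0 := by
    have : n - a ≠ 0 := by omega
    exact_mod_cast this
  simp only [Function.comp, Pi.div_apply, div_pow]
  field_simp

theorem Expo.choose (a b : ℕ) : Expo (fun n => ((n - a).choose b : ℝ)) b := by
  have h1 := Expo.of_tendsto (by positivity) (tendsto_choose_div_pow a b)
  have h2 := h1.mul (Expo.natCast.pow b)
  rw [zero_add, mul_one] at h2
  refine h2.congr ?_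
  filter_upwards [eventually_gt_atTop 0] with n hn
  have : (n : ℝ) ≠ 0 := by
    have : n ≠ 0 := by omega
    exact_mod_cast this
  field_simp

theorem tendsto_choose_ratio (a a' b : ℕ) :
    Tendsto (fun n : ℕ => ((n - a).choose b : ℝ) / ((n - a').choose b : ℝ)) atTop (𝓝 1) := by
  have h1 := tendsto_choose_div_pow a b
  have h2 := tendsto_choose_div_pow a' b
  have hb : (1 / (b.factorial : ℝ)) ≠ 0 := by
    have : (b.factorial : ℝ) ≠ 0 := by exact_mod_cast b.factorial_ne_zero
    positivity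
  have h3 := h1.div h2 hb
  rw [div_self hb] at h3
  refine h3.congr' ?_
  filter_upwards [eventually_ge_atTop (a' + b + 1)] with n hn
  have h0 : (n : ℝ) ≠ 0 := by
    have : n ≠ 0 := by omega
    exact_mod_cast this
  have h0' : (((n - a').choose b : ℕ) : ℝ) ≠ 0 := by
    have : (n - a').choose b ≠ 0 := (Nat.choose_pos (by omega)).ne'
    exact_mod_cast this
  simp only [Pi.div_apply]
  field_simp

end Pool.Agent.Hyp
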