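import Pool.Agent.Lib.MP_3f2ee3_pr.Main
import Pool.Agent.Lib.MP_3f2ee3_pr.Est
import Pool.Agent.Lib.MP_3f2ee3_pr.Expo

/-!
# MP_3f2ee3_pr: a planted pair cannot be distinguished from a planted hyperedge over it
-/

set_option autoImplicit false
set_option linter.unusedSectionVars false

namespace Pool.Agent.Hyp

open Finset

theorem PlantRel.mono {V : Type*} [DecidableEq V] [Fintype V] {d : ℕ} {c ε ε' : ℝ}
    (h : PlantRel V d c ε) (hε : ε ≤ ε') : PlantRel V d c ε' :=
  fun u hu g hg => (h u hu g hg).trans hε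

theorem plantRel_of {V : Type*} [DecidableEq V] [Fintype V] {d : ℕ} (hd : 3 ≤ d)
    {c q θ ε b0 w0 : ℝ} (hc0 : 0 < c) (hc1 : c ≤ 1)
    (hM0 : 0 < ((Fintype.card V - 2).choose (d - 2) : ℝ))
    (hq : q = c * ((Fintype.card V - 2).choose (d - 2) : ℝ)) (hq1 : q ≤ 1)
    (hn : 3 ≤ Fintype.card V)
    (hθ : θ = (d - 2 : ℝ) / (Fintype.card V - 2))
    (hCL : CliqueRel V d c ε) {w : ℕ} (hw : 2 * w + d ≤ Fintype.card V) (hw1 : 1 ≤ w)
    (hww : w0 = w)
    (hρ : 1 ≤ w0 * q ^ 2) (hb0 : b0 = (((d + 4).choose 2 : ℕ) : ℝ)) :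
    PlantRel V d c (6 * Real.sqrt (10040 * d ^ 2 * (1 / (w0 * q ^ 2))) + 8 * ε
        + 2 * (b0 * (q + 8 * θ))) := by
  intro u hu g hg
  obtain ⟨x0, x5, h05, rfl⟩ := card_eq_two.1 hu
  -- choose the sets
  have c1 : (univ \ ({x0, x5} : Finset V)).card = Fintype.card V - 2 := by
    rw [card_sdiff_of_subset (subset_univ _), card_univ, hu]
  obtain ⟨A, hA, hAc⟩ := exists_subset_card_eq
    (s := univ \ ({x0, x5} : Finset V)) (n := d - 2) (by omega)
  have hAd : Disjoint A ({x0, x5} : Finset V) := by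
    rw [Finset.disjoint_left]
    intro a ha ha'
    exact (mem_sdiff.1 (hA ha)).2 ha'
  have c2 : (univ \ (A ∪ {x0, x5})).card = Fintype.card V - d := by
    rw [card_sdiff_of_subset (subset_univ _), card_univ, card_union_of_disjoint hAd, hu, hAc]
    omega
  obtain ⟨W, hW, hWc⟩ := exists_subset_card_eq
    (s := univ \ (A ∪ {x0, x5})) (n := w) (by omega)
  have hWd : Disjoint W (A ∪ {x0, x5}) := by
    rw [Finset.disjoint_left]
    intro a ha ha'
    exact (mem_sdiff.1 (hW ha)).2 ha'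
  have c3 : (univ \ (W ∪ (A ∪ {x0, x5}))).card = Fintype.card V - d - w := by
    rw [card_sdiff_of_subset (subset_univ _), card_univ, card_union_of_disjoint hWd,
      card_union_of_disjoint hAd, hu, hAc, hWc]
    omega
  obtain ⟨W', hW', hWc'⟩ := exists_subset_card_eq
    (s := univ \ (W ∪ (A ∪ {x0, x5}))) (n := w) (by omega)
  have hWd' : Disjoint W' (W ∪ (A ∪ {x0, x5})) := by
    rw [Finset.disjoint_left]
    intro a ha ha'
    exact (mem_sdiff.1 (hW' ha)).2 ha'
  rw [disjoint_union_right] at hWd hWd'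
  rw [disjoint_union_right] at hWd'
  have hx0 : x0 ∈ ({x0, x5} : Finset V) := by simp
  have hx5 : x5 ∈ ({x0, x5} : Finset V) := by simp
  have hθ0 : 0 ≤ θ := by
    rw [hθ]
    have h1 : (3 : ℝ) ≤ d := by exact_mod_cast hd
    have h2 : (3 : ℝ) ≤ Fintype.card V := by exact_mod_cast hn
    have h3 : (0 : ℝ) ≤ d - 2 := by linarith
    have h4 : (0 : ℝ) ≤ Fintype.card V - 2 := by linarith
    positivity
  have hw0 : 0 < w0 := by
    rw [hww]
    exact_mod_cast hw1
  have hmain := main_abstract (V := V) (d := d) (by omega) hc0 hc1 hM0 hq hq1 hθ0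
    (by
      intro u v hu hv huv
      rw [hθ]
      exact card_Nu_inter hd hn hu hv huv)
    hCL (A := A) (W1 := W) (W2 := W') (W3 := W) (W4 := W') (by omega) (x0 := x0) (x5 := x5) h05
    (fun h => Finset.disjoint_left.1 hAd h hx0) (fun h => Finset.disjoint_left.1 hAd h hx5)
    hWd.1 hWd'.2.1 hWd.1 hWd'.2.1
    (fun h => Finset.disjoint_left.1 hWd.2 h hx0) (fun h => Finset.disjoint_left.1 hWd.2 h hx0)
    (fun h => Finset.disjoint_left.1 hWd'.2.2 h hx5)
    hWd'.1.symm hWd'.1 hWd'.1.symm hw0 (by rw [hWc, hww]) (by rw [hWc', hww]) (by rw [hWc, hww])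
    (by rw [hWc', hww]) hρ (b0 := b0) (by rw [hb0])
    (fun G => g ({{x0, x5}} ∪ G)) (fun G => hg _)
    (by
      intro G
      change g ({{x0, x5}} ∪ (G ∪ {{x0, x5}})) = g ({{x0, x5}} ∪ G)
      congr 1
      rw [← union_assoc, union_eq_left]
      exact subset_union_left)
  have e1 : ∀ G, Cm (Nu d) {{x0, x5}} (fun G => g ({{x0, x5}} ∪ G)) G
      = Cm (Nu d) {{x0, x5}} g G := by
    intro G
    rw [Cm_translate]
    have hbl : Blind ({{x0, x5}} : Finset (Finset V))
        (Cm (Nu d) ({{x0, x5}} : Finset (Finset V)).val g) := by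
      refine Cm_blind_self (fun u hu => ?_) (fun u _ h hh => ?_) g
      · rw [mem_singleton] at hu
        rw [hu]
        exact card_pair h05
      · rw [mem_Nu] at hh
        exact hh.2
    rw [union_comm]
    exact hbl G
  have e2 : (Cm (Nu d) {{x0, x5}} (fun G => g ({{x0, x5}} ∪ G))) = Cm (Nu d) {{x0, x5}} g :=
    funext e1
  rw [e2, abs_sub_comm] at hmain
  exact hmain

open Filter Topology

/-- the layer density -/
noncomputable def lay (L : ℕ) (c : ℝ) : ℝ := 1 - (1 - c) ^ ((L : ℝ)⁻¹)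

theorem lay_props {L : ℕ} (hL : 1 ≤ L) {c : ℝ} (h0 : 0 < c) (h1 : c < 1) :
    0 < lay L c ∧ lay L c < 1 ∧ pc (lay L c) L = c ∧ c ≤ L * lay L c ∧ lay L c ≤ c := by
  have hL0 : (0 : ℝ) < L := by exact_mod_cast hL
  have a1 : 0 < lay L c := by
    unfold lay
    have := Real.rpow_lt_one (x := 1 - c) (z := (L : ℝ)⁻¹) (by linarith) (by linarith)
      (by positivity)
    linarith
  have a2 : lay L c < 1 := by
    unfold lay
    have := Real.rpow_pos_of_pos (x := 1 - c) (by linarith) ((L : ℝ)⁻¹)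
    linarith
  have a3 : pc (lay L c) L = c := by
    unfold pc lay
    have := Real.rpow_inv_natCast_pow (x := 1 - c) (by linarith) (n := L) (by omega)
    rw [sub_sub_cancel, this]
    ring
  refine ⟨a1, a2, a3, ?_, ?_⟩
  · have := pc_le a2.le L
    rw [a3] at this
    exact this
  · have := pc_mono a1.le a2.le hL
    rw [pc_one, a3] at this
    exact this

theorem expo_neg {d s : ℕ} (hs : 3 ≤ s) (hsd : s ≤ d) {δ : ℝ}
    (hδ : ((d : ℝ) - 1) / (d + 1) < δ) :
    (1 - (d : ℝ) + δ) + ((d - s : ℕ) : ℝ) - ((s.choose 2 : ℕ) : ℝ) * (δ - 1) < 0 := by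
  have h1 : (3 : ℝ) ≤ s := by exact_mod_cast hs
  have h2 : (s : ℝ) ≤ d := by exact_mod_cast hsd
  rw [Nat.cast_choose_two, Nat.cast_sub hsd]
  have h3 : ((s : ℝ) - 1) / (s + 1) < δ := by
    refine lt_of_le_of_lt ?_ hδ
    rw [div_le_div_iff₀ (by linarith) (by linarith)]
    nlinarith
  rw [div_lt_iff₀ (by linarith)] at h3
  -- (1-δ) s (s-1)/2 < s - 1 - δ
  have h4 : (1 - δ) * (s + 1) < 2 := by nlinarith
  have h5 : (1 - δ) * (s + 1) * (s - 2) < 2 * (s - 2) :=
    mul_lt_mul_of_pos_right h4 (by linarith)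
  nlinarith

theorem clique_asym {d : ℕ} (hd : 3 ≤ d) {δ : ℝ} (hδ : ((d : ℝ) - 1) / (d + 1) < δ)
    (hδ1 : δ < 1) {c : ℕ → ℝ} (hc : Expo c (1 - d + δ)) (L : ℕ) (hL : 1 ≤ L) :
    ∃ e : ℕ → ℝ, Tendsto e atTop
        (𝓝 (2 * Real.sqrt ((d.choose 2 : ℕ) * (1 + Real.log L) / L)))
      ∧ ∀ᶠ n in atTop, CliqueRel (Fin n) d (c n) (e n) := by
  have hd3 : (3 : ℝ) ≤ d := by exact_mod_cast hd
  have hL0 : (0 : ℝ) < L := by exact_mod_cast hL
  have hcz : Tendsto c atTop (𝓝 0) := hc.tendsto_zero (by linarith)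
  set m : ℝ := ((d.choose 2 : ℕ) : ℝ) with hm
  have hm0 : 0 ≤ m := Nat.cast_nonneg _
  set c0 : ℕ → ℝ := fun n => lay L (c n) with hc0
  set M2 : ℕ → ℝ := fun n => ((n - 2).choose (d - 2) : ℝ) with hM2
  set M2' : ℕ → ℝ := fun n => ((n - d).choose (d - 2) : ℝ) with hM2'
  have hlay : ∀ᶠ n in atTop, 0 < c0 n ∧ c0 n < 1 ∧ pc (c0 n) L = c n ∧ c n ≤ L * c0 n
      ∧ c0 n ≤ c n := by
    filter_upwards [hc.1, hcz.eventually (gt_mem_nhds zero_lt_one)] with n h1 h2
    exact lay_props hL h1 h2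
  have xc0 : Expo c0 (1 - d + δ) := by
    refine Expo.of_bounds hc (A := (L : ℝ)⁻¹) (B := 1) (by positivity) one_pos ?_ ?_
    · filter_upwards [hlay] with n hn
      rw [inv_mul_le_iff₀ hL0]
      exact hn.2.2.2.1
    · filter_upwards [hlay] with n hn
      rw [one_mul]
      exact hn.2.2.2.2
  have xM2 : Expo M2 ((d - 2 : ℕ) : ℝ) := Expo.choose 2 (d - 2)
  have xM2' : Expo M2' ((d - 2 : ℕ) : ℝ) := Expo.choose d (d - 2)
  have hd2 : ((d - 2 : ℕ) : ℝ) = (d : ℝ) - 2 := by
    rw [Nat.cast_sub (by omega)]; norm_num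
  have hexp : (1 - (d : ℝ) + δ) + ((d - 2 : ℕ) : ℝ) = δ - 1 := by rw [hd2]; ring
  set q : ℕ → ℝ := fun n => L * (c0 n * M2 n) with hq
  have xq : Expo q (δ - 1) := by
    have := (Expo.const hL0).mul (xc0.mul xM2)
    rw [hexp, zero_add] at this
    exact this
  have hqz : Tendsto q atTop (𝓝 0) := xq.tendsto_zero (by linarith)
  have xy : Expo (fun n => c0 n * M2' n) (δ - 1) := by
    have := xc0.mul xM2'
    rwa [hexp] at this
  have xz : Expo (fun n => c n * M2' n) (δ - 1) := by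
    have := hc.mul xM2'
    rwa [hexp] at this
  set η : ℕ → ℝ := fun n => ∑ s ∈ Finset.Icc 3 d,
    c n * ((n - d).choose (d - s) : ℝ) / (c0 n * M2' n) ^ (s.choose 2) with hη
  have hηz : Tendsto η atTop (𝓝 0) := by
    have : Tendsto η atTop (𝓝 (∑ s ∈ Finset.Icc 3 d, (0 : ℝ))) := by
      refine tendsto_finsetSum _ fun s hs => ?_
      rw [Finset.mem_Icc] at hs
      have h1 := (hc.mul (Expo.choose d (d - s))).div (xy.pow (s.choose 2))
      exact h1.tendsto_zero (expo_neg hs.1 hs.2 hδ)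
    simpa using this
  set ε4 : ℕ → ℝ := fun n => 2 ^ (d.choose 2) * (c n * M2' n) + 2 ^ 2 ^ d * η n with hε4
  have hε4z : Tendsto ε4 atTop (𝓝 0) := by
    have h1 := (xz.tendsto_zero (by linarith)).const_mul ((2 : ℝ) ^ (d.choose 2))
    have h2 := hηz.const_mul ((2 : ℝ) ^ 2 ^ d)
    have := h1.add h2
    simpa using this
  set κ : ℕ → ℝ := fun n => 1 - M2' n / M2 n with hκ
  have hκz : Tendsto κ atTop (𝓝 0) := by
    have := (tendsto_choose_ratio d 2 (d - 2)).const_sub 1
    simpa using this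
  have hqlog : Tendsto (fun n => q n * Real.log (1 / q n)) atTop (𝓝 0) := by
    have h1 : Tendsto (fun n => q n * Real.log (q n)) atTop (𝓝 (0 * Real.log 0)) :=
      (Real.continuous_mul_log.tendsto 0).comp hqz
    rw [zero_mul] at h1
    have h2 := h1.neg
    rw [neg_zero] at h2
    refine h2.congr fun n => ?_
    rw [one_div, Real.log_inv]
    ring
  refine ⟨fun n => (2 * Real.sqrt (2 * m * q n
          + m * q n * (m * Real.log (1 / q n) + m)
          + m * (1 + Real.log L) / L + ε4 n) + m * q n + 2 * ε4 n) + m * κ n, ?_, ?_⟩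
  · have h1 : Tendsto (fun n => 2 * m * q n + m * q n * (m * Real.log (1 / q n) + m)
          + m * (1 + Real.log L) / L + ε4 n) atTop (𝓝 (m * (1 + Real.log L) / L)) := by
      have e1 := hqz.const_mul (2 * m)
      have e2 := hqlog.const_mul (m * m)
      have e3 := hqz.const_mul (m * m)
      have e4 := (((e1.add e2).add e3).add
        (tendsto_const_nhds (x := m * (1 + Real.log L) / L))).add hε4z
      simp only [mul_zero, zero_add, add_zero] at e4
      refine e4.congr fun n => ?_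
      ring
    have h2 := ((Real.continuous_sqrt.tendsto _).comp h1).const_mul 2
    have h3 := ((h2.add (hqz.const_mul m)).add (hε4z.const_mul 2)).add (hκz.const_mul m)
    simp only [mul_zero, add_zero] at h3
    exact h3
  · filter_upwards [hlay, eventually_ge_atTop (2 * d), xM2.1, xM2'.1, xq.1,
      hqz.eventually (gt_mem_nhds (show (0 : ℝ) < 1 / 2 by norm_num)),
      (hqz.const_mul m).eventually (gt_mem_nhds (show m * 0 < 1 by norm_num)),
      hηz.eventually (gt_mem_nhds zero_lt_one),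
      hε4z.eventually (gt_mem_nhds (show (0 : ℝ) < 1 / 2 by norm_num)), xy.1, hc.1]
      with n hn hnd hM hM' hq0 hq2 hmq hη1 hε41 hy0 hcn
    obtain ⟨l0, l1, l2, l3, l4⟩ := hn
    have hη0 : 0 ≤ η n := Finset.sum_nonneg fun s _ => by positivity
    have hNpos : 0 < (n - d).choose (d - 2) := Nat.choose_pos (by omega)
    have hcardV : Fintype.card (Fin n) = n := Fintype.card_fin n
    have hpcr : ∀ r, 1 ≤ r → r ≤ L → c0 n ≤ pc (c0 n) r ∧ pc (c0 n) r ≤ c n := by
      intro r hr hrL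
      constructor
      · have := pc_mono l0.le l1.le hr
        rwa [pc_one] at this
      · rw [← l2]
        exact pc_mono l0.le l1.le hrL
    obtain ⟨h, hh, H⟩ := clique_exists (V := Fin n) d (by omega) l0 l1 L hL
      (by rw [hcardV]; omega) (η := η n) (q := q n) (ε4 := ε4 n) hη0 hη1.le
      (by rw [hcardV]) hq0 hq2.le hmq.le (by rw [hcardV]; exact hNpos)
      (by
        intro r hr hrL
        rw [hcardV]
        have h1 := (hpcr r hr hrL).2
        have h2 : pc (c0 n) r * ((n - d).choose (d - 2) : ℝ) ≤ c n * M2' n :=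
          mul_le_mul_of_nonneg_right h1 hM'.le
        have h3 : (2 : ℝ) ^ (d.choose 2) * (pc (c0 n) r * ((n - d).choose (d - 2) : ℝ))
            ≤ 2 ^ (d.choose 2) * (c n * M2' n) := mul_le_mul_of_nonneg_left h2 (by positivity)
        simp only [hε4]
        linarith)
      hε41.le
      (by
        intro r hr hrL s hs hsd
        rw [hcardV]
        have h1 := hpcr r hr hrL
        have h2 : c n * ((n - d).choose (d - s) : ℝ) / (c0 n * M2' n) ^ (s.choose 2) ≤ η n :=
          Finset.single_le_sum (f := fun s => c n * ((n - d).choose (d - s) : ℝ)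
            / (c0 n * M2' n) ^ (s.choose 2)) (fun s _ => by positivity)
            (Finset.mem_Icc.2 ⟨hs, hsd⟩)
        rw [div_le_iff₀ (by positivity)] at h2
        calc pc (c0 n) r * ((n - d).choose (d - s) : ℝ)
            ≤ c n * ((n - d).choose (d - s) : ℝ) :=
              mul_le_mul_of_nonneg_right h1.2 (Nat.cast_nonneg _)
          _ ≤ η n * (c0 n * M2' n) ^ (s.choose 2) := h2
          _ ≤ η n * (pc (c0 n) r * M2' n) ^ (s.choose 2) := by
              refine mul_le_mul_of_nonneg_left ?_ hη0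
              refine pow_le_pow_left₀ hy0.le ?_ _
              exact mul_le_mul_of_nonneg_right h1.1 hM'.le)
    rw [l2] at H
    have hc1 : c n ≤ 1 := by
      have := pc_le_one l1.le L
      rwa [l2] at this
    refine cliqueRel_of (V := Fin n) (by omega) hcn.le hc1 (κ := κ n) ?_ ?_
      (by rw [hcardV]; exact hNpos) hh H
    · simp only [hκ]
      rw [sub_nonneg, div_le_one hM]
      simp only [hM2, hM2']
      exact_mod_cast Nat.choose_le_choose (d - 2) (by omega)
    · rw [hcardV]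
      simp only [hκ]
      rw [sub_sub_cancel]
      rw [div_mul_cancel₀ _ hM.ne']

theorem exists_layers (m : ℝ) {ε : ℝ} (hε : 0 < ε) :
    ∃ L : ℕ, 1 ≤ L ∧ 8 * (2 * Real.sqrt (m * (1 + Real.log L) / L)) < ε := by
  have h1 : Tendsto (fun x : ℝ => Real.log x / x) atTop (𝓝 0) :=
    Real.isLittleO_log_id_atTop.tendsto_div_nhds_zero
  have h2 : Tendsto (fun L : ℕ => Real.log (L : ℝ) / L) atTop (𝓝 0) :=
    h1.comp tendsto_natCast_atTop_atTop
  have h3 : Tendsto (fun L : ℕ => ((L : ℝ))⁻¹) atTop (𝓝 0) := tendsto_inv_atTop_nhds_zero_nat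
  have h4 : Tendsto (fun L : ℕ => m * (1 + Real.log L) / L) atTop (𝓝 0) := by
    have := (h2.add h3).const_mul m
    simp only [add_zero, mul_zero] at this
    refine this.congr fun L => ?_
    rw [div_eq_mul_inv, div_eq_mul_inv]
    ring
  have h5 := (((Real.continuous_sqrt.tendsto _).comp h4).const_mul 2).const_mul 8
  simp only [Real.sqrt_zero, mul_zero] at h5
  obtain ⟨L, h6, h7⟩ := ((h5.eventually (gt_mem_nhds hε)).and (eventually_ge_atTop 1)).exists
  exact ⟨L, h7, h6⟩

/-- A planted pair cannot be distinguished from a planted hyperedge over it. -/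
theorem plantRel_eventually {d : ℕ} (hd : 3 ≤ d) {δ : ℝ} (hδ : ((d : ℝ) - 1) / (d + 1) < δ)
    (hδ1 : δ < 1) {c : ℕ → ℝ} (hc : Expo c (1 - d + δ)) {ε : ℝ} (hε : 0 < ε) :
    ∀ᶠ n in atTop, PlantRel (Fin n) d (c n) ε := by
  have hd3 : (3 : ℝ) ≤ d := by exact_mod_cast hd
  have hδ2 : 1 / 2 < δ := by
    refine lt_of_le_of_lt ?_ hδ
    rw [div_le_div_iff₀ (by norm_num) (by linarith)]
    linarith
  have hcz : Tendsto c atTop (𝓝 0) := hc.tendsto_zero (by linarith)
  obtain ⟨L, hL, hLε⟩ := exists_layers ((d.choose 2 : ℕ) : ℝ) hε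
  obtain ⟨e, he, hCL⟩ := clique_asym hd hδ hδ1 hc L hL
  have hd2 : ((d - 2 : ℕ) : ℝ) = (d : ℝ) - 2 := by
    rw [Nat.cast_sub (by omega)]; norm_num
  set M2 : ℕ → ℝ := fun n => ((n - 2).choose (d - 2) : ℝ) with hM2
  have xM2 : Expo M2 ((d - 2 : ℕ) : ℝ) := Expo.choose 2 (d - 2)
  set q : ℕ → ℝ := fun n => c n * M2 n with hq
  have xq : Expo q (δ - 1) := by
    have := hc.mul xM2
    have h2 : (1 - (d : ℝ) + δ) + ((d - 2 : ℕ) : ℝ) = δ - 1 := by rw [hd2]; ring
    rw [h2] at this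
    exact this
  have hqz : Tendsto q atTop (𝓝 0) := xq.tendsto_zero (by linarith)
  set w : ℕ → ℕ := fun n => n / 4 with hw
  have xw : Expo (fun n => ((w n : ℕ) : ℝ)) 1 := by
    refine Expo.of_bounds Expo.natCast (A := 1 / 8) (B := 1) (by norm_num) one_pos ?_ ?_
    · filter_upwards [eventually_ge_atTop 8] with n hn
      have : n ≤ 8 * (n / 4) := by omega
      have h2 : (n : ℝ) ≤ 8 * ((n / 4 : ℕ) : ℝ) := by exact_mod_cast this
      simp only [hw]
      linarith
    · filter_upwards with n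
      rw [one_mul]
      exact_mod_cast Nat.div_le_self n 4
  have xρ : Expo (fun n => (w n : ℝ) * q n ^ 2) (1 + ((2 : ℕ) : ℝ) * (δ - 1)) := xw.mul (xq.pow 2)
  have hρ : Tendsto (fun n => (w n : ℝ) * q n ^ 2) atTop atTop := by
    refine xρ.tendsto_atTop ?_
    push_cast
    linarith
  have hρinv : Tendsto (fun n => 1 / ((w n : ℝ) * q n ^ 2)) atTop (𝓝 0) :=
    hρ.const_div_atTop 1
  set θ : ℕ → ℝ := fun n => (d - 2 : ℝ) / (n - 2) with hθ
  have hθz : Tendsto θ atTop (𝓝 0) := by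
    have h1 : Tendsto (fun n : ℕ => (n : ℝ) - 2) atTop atTop :=
      tendsto_atTop_add_const_right _ _ tendsto_natCast_atTop_atTop
    exact h1.const_div_atTop _
  set b0 : ℝ := (((d + 4).choose 2 : ℕ) : ℝ) with hb0
  have hE : Tendsto (fun n => 6 * Real.sqrt (10040 * d ^ 2 * (1 / ((w n : ℝ) * q n ^ 2)))
      + 8 * e n + 2 * (b0 * (q n + 8 * θ n))) atTop
      (𝓝 (8 * (2 * Real.sqrt ((d.choose 2 : ℕ) * (1 + Real.log L) / L)))) := by
    have h1 := ((Real.continuous_sqrt.tendsto _).comp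
      (hρinv.const_mul (10040 * (d : ℝ) ^ 2))).const_mul 6
    have h2 := he.const_mul 8
    have h3 := ((hqz.add (hθz.const_mul 8)).const_mul b0).const_mul 2
    have h4 := (h1.add h2).add h3
    simp only [mul_zero, add_zero, Real.sqrt_zero, zero_add] at h4
    exact h4
  filter_upwards [hCL, hE.eventually (gt_mem_nhds hLε), hc.1,
    hcz.eventually (gt_mem_nhds zero_lt_one), xM2.1, hqz.eventually (gt_mem_nhds zero_lt_one),
    eventually_ge_atTop (4 * d), hρ.eventually_ge_atTop 1] with n h1 h2 h3 h4 h5 h6 h7 h8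
  have hcardV : Fintype.card (Fin n) = n := Fintype.card_fin n
  refine PlantRel.mono ?_ h2.le
  refine plantRel_of (V := Fin n) hd (q := q n) (θ := θ n) (w := w n) (w0 := (w n : ℝ)) h3 h4.le
    (by rw [hcardV]; exact h5) (by rw [hcardV]) h6.le (by rw [hcardV]; omega)
    (by rw [hcardV]) h1 (by rw [hcardV]; simp only [hw]; omega)
    (by simp only [hw]; omega) rfl h8 rfl

end Pool.Agent.Hyp
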