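import Mathlib

/-!
# MP_3f2ee3_pr: finite product measures

`Ex S p f` is the expectation of `f H` where `H ⊆ S` is the random subset which contains each
`t ∈ S` independently with probability `p t`.
-/

set_option autoImplicit false
set_option linter.unusedSectionVars false

namespace Pool.Agent.Hyp

open Finset

variable {Ω : Type*} [DecidableEq Ω]

/-- The weight of the outcome `H ⊆ S`. -/
noncomputable def wt (S : Finset Ω) (p : Ω → ℝ) (H : Finset Ω) : ℝ :=
  (∏ t ∈ H, p t) * ∏ t ∈ S \ H, (1 - p t)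

/-- The expectation of `f H`, where `H ⊆ S` contains `t ∈ S` with probability `p t`,
independently. -/
noncomputable def Ex (S : Finset Ω) (p : Ω → ℝ) (f : Finset Ω → ℝ) : ℝ :=
  ∑ H ∈ S.powerset, wt S p H * f H

theorem Ex_empty (p : Ω → ℝ) (f : Finset Ω → ℝ) : Ex ∅ p f = f ∅ := by
  simp [Ex, wt]

theorem Ex_insert {S : Finset Ω} {t : Ω} (ht : t ∉ S) (p : Ω → ℝ) (f : Finset Ω → ℝ) :
    Ex (insert t S) p f = p t * Ex S p (fun H => f (insert t H)) + (1 - p t) * Ex S p f := by
  unfold Ex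
  rw [sum_powerset_insert ht, add_comm, mul_sum, mul_sum]
  congr 1
  · refine sum_congr rfl fun H hH => ?_
    rw [mem_powerset] at hH
    have htH : t ∉ H := fun h => ht (hH h)
    have h1 : insert t S \ insert t H = S \ H := by
      ext a
      simp only [mem_sdiff, mem_insert]
      constructor
      · rintro ⟨h1 | h1, h2⟩
        · exact absurd (Or.inl h1) h2
        · exact ⟨h1, fun h => h2 (Or.inr h)⟩
      · rintro ⟨h1, h2⟩
        refine ⟨Or.inr h1, ?_⟩
        rintro (h | h)
        · exact ht (h ▸ h1)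
        · exact h2 h
    rw [wt, wt, h1, prod_insert htH]
    ring
  · refine sum_congr rfl fun H hH => ?_
    rw [mem_powerset] at hH
    have htH : t ∉ H := fun h => ht (hH h)
    have h1 : insert t S \ H = insert t (S \ H) := by
      rw [insert_sdiff_of_notMem _ htH]
    rw [wt, wt, h1, prod_insert (by simp [ht])]
    ring

theorem Ex_congr {S : Finset Ω} {p : Ω → ℝ} {f g : Finset Ω → ℝ}
    (h : ∀ H, H ⊆ S → f H = g H) : Ex S p f = Ex S p g := by
  unfold Ex
  refine sum_congr rfl fun H hH => ?_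
  rw [h H (mem_powerset.1 hH)]

theorem Ex_congr_p {S : Finset Ω} {p p' : Ω → ℝ} {f : Finset Ω → ℝ}
    (h : ∀ t ∈ S, p t = p' t) : Ex S p f = Ex S p' f := by
  unfold Ex wt
  refine sum_congr rfl fun H hH => ?_
  rw [mem_powerset] at hH
  have h1 : ∏ t ∈ H, p t = ∏ t ∈ H, p' t := prod_congr rfl fun t ht => h t (hH ht)
  have h2 : ∏ t ∈ S \ H, (1 - p t) = ∏ t ∈ S \ H, (1 - p' t) :=
    prod_congr rfl fun t ht => by rw [h t (mem_sdiff.1 ht).1]
  rw [h1, h2]

theorem Ex_add (S : Finset Ω) (p : Ω → ℝ) (f g : Finset Ω → ℝ) :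
    Ex S p (fun H => f H + g H) = Ex S p f + Ex S p g := by
  unfold Ex
  rw [← sum_add_distrib]
  exact sum_congr rfl fun H _ => by ring

theorem Ex_sub (S : Finset Ω) (p : Ω → ℝ) (f g : Finset Ω → ℝ) :
    Ex S p (fun H => f H - g H) = Ex S p f - Ex S p g := by
  unfold Ex
  rw [← sum_sub_distrib]
  exact sum_congr rfl fun H _ => by ring

theorem Ex_mul_left (S : Finset Ω) (p : Ω → ℝ) (c : ℝ) (f : Finset Ω → ℝ) :
    Ex S p (fun H => c * f H) = c * Ex S p f := by
  unfold Ex
  rw [mul_sum]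
  exact sum_congr rfl fun H _ => by ring

theorem Ex_mul_right (S : Finset Ω) (p : Ω → ℝ) (c : ℝ) (f : Finset Ω → ℝ) :
    Ex S p (fun H => f H * c) = Ex S p f * c := by
  unfold Ex
  rw [sum_mul]
  exact sum_congr rfl fun H _ => by ring

theorem Ex_div (S : Finset Ω) (p : Ω → ℝ) (c : ℝ) (f : Finset Ω → ℝ) :
    Ex S p (fun H => f H / c) = Ex S p f / c := by
  simp only [div_eq_mul_inv]
  exact Ex_mul_right S p _ f

theorem Ex_sum {ι : Type*} (S : Finset Ω) (p : Ω → ℝ) (I : Finset ι) (f : ι → Finset Ω → ℝ) :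
    Ex S p (fun H => ∑ i ∈ I, f i H) = ∑ i ∈ I, Ex S p (f i) := by
  unfold Ex
  rw [sum_comm]
  exact sum_congr rfl fun H _ => by rw [mul_sum]

theorem Ex_const (S : Finset Ω) (p : Ω → ℝ) (c : ℝ) : Ex S p (fun _ => c) = c := by
  induction S using Finset.induction_on with
  | empty => exact Ex_empty _ _
  | insert t S ht ih => rw [Ex_insert ht, ih]; ring

theorem Ex_comm {Ω' : Type*} [DecidableEq Ω'] (S : Finset Ω) (p : Ω → ℝ) (T : Finset Ω')
    (p' : Ω' → ℝ) (f : Finset Ω → Finset Ω' → ℝ) :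
    Ex S p (fun A => Ex T p' (fun B => f A B)) = Ex T p' (fun B => Ex S p (fun A => f A B)) := by
  unfold Ex
  simp only [mul_sum]
  rw [sum_comm]
  exact sum_congr rfl fun _ _ => sum_congr rfl fun _ _ => by ring

/-- `p` takes values in `[0,1]` on `S`. -/
def Prob (S : Finset Ω) (p : Ω → ℝ) : Prop := ∀ t ∈ S, 0 ≤ p t ∧ p t ≤ 1

theorem Prob.mono {S T : Finset Ω} {p : Ω → ℝ} (h : Prob T p) (hST : S ⊆ T) : Prob S p :=
  fun t ht => h t (hST ht)

theorem wt_nonneg {S : Finset Ω} {p : Ω → ℝ} (hp : Prob S p) {H : Finset Ω} (hH : H ⊆ S) :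
    0 ≤ wt S p H :=
  mul_nonneg (prod_nonneg fun t ht => (hp t (hH ht)).1)
    (prod_nonneg fun t ht => by linarith [(hp t (mem_sdiff.1 ht).1).2])

theorem wt_pos {S : Finset Ω} {p : Ω → ℝ} (hp : ∀ t ∈ S, 0 < p t ∧ p t < 1) {H : Finset Ω}
    (hH : H ⊆ S) : 0 < wt S p H :=
  mul_pos (prod_pos fun t ht => (hp t (hH ht)).1)
    (prod_pos fun t ht => by linarith [(hp t (mem_sdiff.1 ht).1).2])

theorem Ex_mono {S : Finset Ω} {p : Ω → ℝ} (hp : Prob S p) {f g : Finset Ω → ℝ}
    (h : ∀ H, H ⊆ S → f H ≤ g H) : Ex S p f ≤ Ex S p g := by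
  unfold Ex
  refine sum_le_sum fun H hH => ?_
  rw [mem_powerset] at hH
  exact mul_le_mul_of_nonneg_left (h H hH) (wt_nonneg hp hH)

theorem Ex_nonneg {S : Finset Ω} {p : Ω → ℝ} (hp : Prob S p) {f : Finset Ω → ℝ}
    (h : ∀ H, H ⊆ S → 0 ≤ f H) : 0 ≤ Ex S p f := by
  have := Ex_mono hp (f := fun _ => 0) (g := f) h
  rwa [Ex_const] at this

theorem Ex_le {S : Finset Ω} {p : Ω → ℝ} (hp : Prob S p) {f : Finset Ω → ℝ} {c : ℝ}
    (h : ∀ H, H ⊆ S → f H ≤ c) : Ex S p f ≤ c := by
  have := Ex_mono hp (f := f) (g := fun _ => c) h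
  rwa [Ex_const] at this

theorem le_Ex {S : Finset Ω} {p : Ω → ℝ} (hp : Prob S p) {f : Finset Ω → ℝ} {c : ℝ}
    (h : ∀ H, H ⊆ S → c ≤ f H) : c ≤ Ex S p f := by
  have := Ex_mono hp (f := fun _ => c) (g := f) h
  rwa [Ex_const] at this

theorem abs_Ex_le {S : Finset Ω} {p : Ω → ℝ} (hp : Prob S p) (f : Finset Ω → ℝ) :
    |Ex S p f| ≤ Ex S p (fun H => |f H|) := by
  rw [abs_le]
  constructor
  · have := Ex_mono hp (f := fun H => (-1) * |f H|) (g := f)
      (fun H _ => by linarith [neg_abs_le (f H)])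
    rw [Ex_mul_left] at this
    linarith
  · exact Ex_mono hp (fun H _ => le_abs_self _)

/-- Cauchy–Schwarz / Jensen. -/
theorem sq_Ex_le {S : Finset Ω} {p : Ω → ℝ} (hp : Prob S p) (f : Finset Ω → ℝ) :
    (Ex S p f) ^ 2 ≤ Ex S p (fun H => f H ^ 2) := by
  have h := Ex_nonneg hp (f := fun H => (f H - Ex S p f) ^ 2) (fun H _ => sq_nonneg _)
  have h2 : Ex S p (fun H => (f H - Ex S p f) ^ 2)
      = Ex S p (fun H => f H ^ 2) - (Ex S p f) ^ 2 := by
    have : (fun H => (f H - Ex S p f) ^ 2)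
        = fun H => (f H ^ 2 + (-2 * Ex S p f) * f H) + (Ex S p f) ^ 2 := by
      funext H; ring
    rw [this, Ex_add, Ex_add, Ex_mul_left, Ex_const]
    ring
  linarith

/-- Mecke formula for one point. -/
theorem Ex_mem {S : Finset Ω} {t : Ω} (ht : t ∈ S) (p : Ω → ℝ) (f : Finset Ω → ℝ) :
    Ex S p (fun H => if t ∈ H then f H else 0) = p t * Ex S p (fun H => f (insert t H)) := by
  obtain ⟨S', hS', rfl⟩ : ∃ S', t ∉ S' ∧ insert t S' = S :=
    ⟨S.erase t, notMem_erase _ _, insert_erase ht⟩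
  rw [Ex_insert hS', Ex_insert hS']
  have h1 : Ex S' p (fun H => if t ∈ insert t H then f (insert t H) else 0)
      = Ex S' p (fun H => f (insert t H)) := Ex_congr fun H _ => by simp
  have h2 : Ex S' p (fun H => if t ∈ H then f H else 0) = 0 := by
    refine (Ex_congr (g := fun _ => 0) fun H hH => ?_).trans (Ex_const _ _ _)
    rw [if_neg (fun h => hS' (hH h))]
  have h3 : Ex S' p (fun H => f (insert t (insert t H))) = Ex S' p (fun H => f (insert t H)) :=
    Ex_congr fun H _ => by rw [insert_idem]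
  rw [h1, h2, h3]
  ring

/-- The complementary formula. -/
theorem Ex_notMem {S : Finset Ω} {t : Ω} (ht : t ∈ S) (p : Ω → ℝ) (f : Finset Ω → ℝ)
    (hf : ∀ H, f (insert t H) = f H) :
    Ex S p (fun H => if t ∈ H then 0 else f H) = (1 - p t) * Ex S p f := by
  have h1 := Ex_mem ht p f
  have h2 : Ex S p (fun H => (if t ∈ H then f H else 0) + (if t ∈ H then 0 else f H))
      = Ex S p f := Ex_congr fun H _ => by split_ifs <;> simp
  rw [Ex_add, h1] at h2
  simp only [hf] at h2
  linarith

/-- Mecke formula. -/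
theorem Ex_subset {S : Finset Ω} (p : Ω → ℝ) (τ : Finset Ω) (hτ : τ ⊆ S) (f : Finset Ω → ℝ) :
    Ex S p (fun H => if τ ⊆ H then f H else 0)
      = (∏ t ∈ τ, p t) * Ex S p (fun H => f (τ ∪ H)) := by
  induction τ using Finset.induction_on generalizing f with
  | empty => simp
  | insert t τ ht ih =>
    have h1 : (fun H => if insert t τ ⊆ H then f H else 0)
        = fun H => if t ∈ H then (if τ ⊆ H then f H else 0) else 0 := by
      funext H
      by_cases h : t ∈ H <;> by_cases h' : τ ⊆ H <;> simp [insert_subset_iff, h, h']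
    rw [h1, Ex_mem (hτ (mem_insert_self _ _)), prod_insert ht]
    have h2 : (fun H : Finset Ω => if τ ⊆ insert t H then f (insert t H) else 0)
        = fun H => if τ ⊆ H then f (insert t H) else 0 := by
      funext H
      congr 1
      exact propext (subset_insert_iff_of_notMem ht)
    rw [h2, ih ((subset_insert _ _).trans hτ) (fun H => f (insert t H)), mul_assoc]
    simp only [insert_union]

/-- Fubini for disjoint ground sets. -/
theorem Ex_union {S T : Finset Ω} (hST : Disjoint S T) (p : Ω → ℝ) (f : Finset Ω → ℝ) :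
    Ex (S ∪ T) p f = Ex S p (fun A => Ex T p (fun B => f (A ∪ B))) := by
  induction S using Finset.induction_on generalizing f with
  | empty => simp [Ex_empty]
  | insert t S ht ih =>
    rw [disjoint_insert_left] at hST
    have h1 : t ∉ S ∪ T := by simp [ht, hST.1]
    rw [insert_union, Ex_insert h1, Ex_insert ht, ih hST.2, ih hST.2]
    simp only [insert_union]

/-- Superposition of two independent random sets. -/
theorem Ex_superpose (S : Finset Ω) (p p' : Ω → ℝ) (f : Finset Ω → ℝ) :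
    Ex S p (fun A => Ex S p' (fun B => f (A ∪ B))) = Ex S (fun t => p t + p' t - p t * p' t) f := by
  induction S using Finset.induction_on generalizing f with
  | empty => simp [Ex_empty]
  | insert t S ht ih =>
    rw [Ex_insert ht, Ex_insert ht]
    have e1 : ∀ A : Finset Ω, Ex (insert t S) p' (fun B => f (insert t A ∪ B))
        = Ex S p' (fun B => f (insert t (A ∪ B))) := by
      intro A
      rw [Ex_insert ht]
      simp only [insert_union, union_insert, insert_idem]
      ring
    have e2 : ∀ A : Finset Ω, Ex (insert t S) p' (fun B => f (A ∪ B))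
        = p' t * Ex S p' (fun B => f (insert t (A ∪ B)))
          + (1 - p' t) * Ex S p' (fun B => f (A ∪ B)) := by
      intro A
      rw [Ex_insert ht]
      simp only [union_insert]
    simp only [e1, e2]
    rw [Ex_add, Ex_mul_left, Ex_mul_left, ih f, ih (fun H => f (insert t H))]
    ring

/-- zero density -/
theorem Ex_zero (S : Finset Ω) (f : Finset Ω → ℝ) : Ex S (fun _ => 0) f = f ∅ := by
  induction S using Finset.induction_on generalizing f with
  | empty => exact Ex_empty _ _
  | insert t S ht ih => rw [Ex_insert ht, ih, ih]; ring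

/-- Relabelling. -/
theorem Ex_map {Ω' : Type*} [DecidableEq Ω'] (σ : Ω ↪ Ω') (S : Finset Ω) (p : Ω' → ℝ)
    (f : Finset Ω' → ℝ) :
    Ex (S.map σ) p f = Ex S (fun t => p (σ t)) (fun H => f (H.map σ)) := by
  induction S using Finset.induction_on generalizing f with
  | empty => simp [Ex_empty]
  | insert t S ht ih =>
    rw [map_insert, Ex_insert (by simpa using ht), Ex_insert ht, ih, ih]
    simp only [map_insert]

/-- The number of points in a class: the product over disjoint classes. -/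
theorem Ex_card_mul {S : Finset Ω} {p : Ω → ℝ} (N : Finset Ω) (hN : N ⊆ S)
    (f : Finset Ω → ℝ) :
    Ex S p (fun H => ((H ∩ N).card : ℝ) * f H)
      = ∑ t ∈ N, p t * Ex S p (fun H => f (insert t H)) := by
  have h1 : (fun H : Finset Ω => ((H ∩ N).card : ℝ) * f H)
      = fun H => ∑ t ∈ N, if t ∈ H then f H else 0 := by
    funext H
    rw [← sum_filter, sum_const, nsmul_eq_mul]
    congr 3
    ext t
    simp [and_comm]
  rw [h1, Ex_sum]
  exact sum_congr rfl fun t ht => Ex_mem (hN ht) p f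

end Pool.Agent.Hyp
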