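import Pool.Agent.Lib.MP_3f2ee3_pr.Layers

/-!
# MP_3f2ee3_pr: the clique lemma
-/

set_option autoImplicit false
set_option linter.unusedSectionVars false

namespace Pool.Agent.Hyp

open Finset

theorem log_factorial_le (K : ℕ) (hK : 1 ≤ K) :
    Real.log (K.factorial) ≤ K * Real.log K - K + 1 + Real.log K := by
  induction K, hK using Nat.le_induction with
  | base => simp
  | succ K hK ih =>
    have hK0 : (0 : ℝ) < K := by exact_mod_cast hK
    have h1 : Real.log ((K + 1).factorial) = Real.log (K + 1) + Real.log (K.factorial) := by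
      rw [Nat.factorial_succ]
      push_cast
      rw [Real.log_mul (by positivity) (by positivity)]
    have h2 : 1 / ((K : ℝ) + 1) ≤ Real.log (K + 1) - Real.log K := by
      rw [← Real.log_div (by positivity) hK0.ne']
      have h3 := Real.one_sub_inv_le_log_of_pos (x := ((K : ℝ) + 1) / K) (by positivity)
      have h4 : 1 - (((K : ℝ) + 1) / K)⁻¹ = 1 / ((K : ℝ) + 1) := by
        field_simp
        ring
      rwa [h4] at h3
    have h5 : 1 ≤ ((K : ℝ) + 1) * (Real.log (K + 1) - Real.log K) := by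
      have := mul_le_mul_of_nonneg_left h2 (by positivity : (0 : ℝ) ≤ (K : ℝ) + 1)
      rwa [mul_one_div_cancel (by positivity)] at this
    rw [h1]
    push_cast
    nlinarith

variable {V : Type*} [DecidableEq V] [Fintype V]

theorem ent_law_le (d : ℕ) {c q M2 : ℝ} (h0 : 0 ≤ c) (h1 : c ≤ 1) (hq0 : 0 < q) (hq1 : q ≤ 1 / 2)
    (hM2 : ∀ u : Finset V, u.card = 2 → ((Nu d u).card : ℝ) ≤ M2) (hq : c * M2 ≤ q) :
    ent (law d c (∅ : Finset (Finset V)))
      ≤ ((Fintype.card V).choose 2) * (q * Real.log (1 / q) + q + 2 * q ^ 2) := by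
  set U : Finset (Finset V) := prs univ with hU
  have hUc : (U.card : ℝ) = (Fintype.card V).choose 2 := by
    rw [hU, prs, card_powersetCard, card_univ]
  have hprU : ∀ H : Finset (Finset V), pr H ⊆ U := by
    intro H u hu
    obtain ⟨h, _, _, h2⟩ := mem_pr.1 hu
    exact mem_prs.2 ⟨subset_univ _, h2⟩
  have hp : Prob (hyp V d) (fun _ : Finset V => c) := fun _ _ => ⟨h0, h1⟩
  have hN : ∑ G, law d c (∅ : Finset (Finset V)) G * (G.card : ℝ) ≤ (U.card : ℝ) * q := by
    rw [law_sum d c ∅ (fun G => (G.card : ℝ))]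
    have h2 : (fun H : Finset (Finset V) => ((∅ ∪ pr H).card : ℝ))
        = fun H => ∑ u ∈ U, if u ∈ pr H then (1 : ℝ) else 0 := by
      funext H
      rw [← sum_filter, sum_const, nsmul_eq_mul, mul_one, empty_union]
      congr 2
      ext u
      simp only [mem_filter]
      exact ⟨fun h => ⟨hprU H h, h⟩, fun h => h.2⟩
    rw [h2, Ex_sum]
    calc _ ≤ ∑ u ∈ U, q := by
          refine sum_le_sum fun u hu => ?_
          refine (prob_pair_le d h0 h1 u).trans (le_trans ?_ hq)
          exact mul_le_mul_of_nonneg_left (hM2 u (mem_prs.1 hu).2) h0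
      _ = _ := by rw [sum_const, nsmul_eq_mul]
  have h3 := ent_le U (law d c (∅ : Finset (Finset V))) (fun G => law_nonneg d h0 h1 _ _)
    (sum_law _ _ _) (by
      intro G hG
      rw [law]
      refine (Ex_congr (g := fun _ => 0) fun H _ => ?_).trans (Ex_const _ _ _)
      rw [if_neg]
      rintro rfl
      exact hG (by rw [empty_union]; exact hprU H)) hq0 (by linarith) hN
  refine h3.trans ?_
  have h4 : Real.log (1 / (1 - q)) ≤ q + 2 * q ^ 2 := by
    have h5 := Real.log_le_sub_one_of_pos (x := 1 / (1 - q)) (by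
      have : 0 < 1 - q := by linarith
      positivity)
    refine h5.trans ?_
    have h6 : 0 < 1 - q := by linarith
    rw [div_sub_one h6.ne', div_le_iff₀ h6]
    nlinarith [sq_nonneg q]
  rw [hUc]
  have h7 : (0 : ℝ) ≤ (Fintype.card V).choose 2 := Nat.cast_nonneg _
  nlinarith

/-- The conditioned law is close to the planting operator. -/
theorem cond_close (d : ℕ) (h : Finset V) {c η y ε : ℝ} (hc0 : 0 < c) (hc1 : c ≤ 1)
    (hη0 : 0 ≤ η) (hη1 : η ≤ 1) (hy0 : 0 < y) (hy1 : y ≤ 1)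
    (hy : ∀ u ∈ prs h, c * (Ni d h u).card = y)
    (hs : ∀ s, s ⊆ h → 3 ≤ s.card → c * (Ni d h s).card ≤ η * y ^ (s.card.choose 2))
    (hε : 2 ^ (prs h).card * y + 2 ^ 2 ^ h.card * η ≤ ε) (hε1 : ε ≤ 1 / 2)
    {κ : ℝ} (hκ : κ = Ex (hyp V d) (fun _ => c) (fun H => if prs h ⊆ pr H then 1 else 0)) :
    0 < κ ∧ κ ≤ (1 + ε) * y ^ (prs h).card ∧ ∀ g : Finset (Finset V) → ℝ, UI g →
      |Ex (hyp V d) (fun _ => c) (fun H => if prs h ⊆ pr H then g (pr H) else 0) / κ
        - Ex (hyp V d) (fun _ => c) (fun H => Cm (Ni d h) (prs h).val g (pr H))| ≤ 2 * ε := by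
  have hp : Prob (hyp V d) (fun _ : Finset V => c) := fun _ _ => ⟨hc0.le, hc1⟩
  set m := (prs h).card with hm
  have hym : 0 < y ^ m := pow_pos hy0 m
  have hε0 : 0 ≤ ε := le_trans (by positivity) hε
  set X : Finset (Finset V) → ℝ := fun H => ∏ u ∈ prs h, ((H ∩ Ni d h u).card : ℝ) with hXdef
  set Y : Finset (Finset V) → ℝ := fun H => if prs h ⊆ pr H then 1 else 0 with hYdef
  have hXY : Ex (hyp V d) (fun _ => c) (fun H => |Y H - X H|) ≤ ε * y ^ m := by
    refine (Ex_abs_sub_le d h hc0.le hc1 hη0 hη1 hy0.le hy1 hy hs).trans ?_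
    exact mul_le_mul_of_nonneg_right hε hym.le
  have hX : ∀ g : Finset (Finset V) → ℝ, Ex (hyp V d) (fun _ => c) (fun H => X H * g (pr H))
      = y ^ m * Ex (hyp V d) (fun _ => c) (fun H => Cm (Ni d h) (prs h).val g (pr H)) := by
    intro g
    rw [Ex_prod_card_mul (Ni d h) (prs h) (fun i _ => Ni_subset _ _ _) (fun _ _ _ _ => rfl)
      (fun i _ j _ hij => Ni_disjoint d h hij), prod_congr rfl hy, prod_const]
  have hX1 : Ex (hyp V d) (fun _ => c) X = y ^ m := by
    simp only [hXdef]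
    rw [Ex_prod_card (Ni d h) (prs h) (fun i _ => Ni_subset _ _ _) (fun _ _ _ _ => rfl)
      (fun i _ j _ hij => Ni_disjoint d h hij), prod_congr rfl hy, prod_const]
  have hgen : ∀ g : Finset (Finset V) → ℝ, UI g →
      |Ex (hyp V d) (fun _ => c) (fun H => Y H * g (pr H))
        - Ex (hyp V d) (fun _ => c) (fun H => X H * g (pr H))| ≤ ε * y ^ m := by
    intro g hg
    rw [← Ex_sub]
    refine (abs_Ex_le hp _).trans (le_trans (Ex_mono hp fun H _ => ?_) hXY)
    rw [← sub_mul, abs_mul]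
    have := hg (pr H)
    rw [abs_of_nonneg this.1]
    exact mul_le_of_le_one_right (abs_nonneg _) this.2
  have hκ' : κ = Ex (hyp V d) (fun _ => c) Y := hκ
  have hκ1 : |κ - y ^ m| ≤ ε * y ^ m := by
    have := hgen (fun _ => 1) (fun _ => ⟨zero_le_one, le_rfl⟩)
    simp only [mul_one] at this
    rwa [← hκ', hX1] at this
  rw [abs_le] at hκ1
  have hκ0 : 0 < κ := by nlinarith
  refine ⟨hκ0, by nlinarith, ?_⟩
  intro g hg
  have e1 : (fun H : Finset (Finset V) => if prs h ⊆ pr H then g (pr H) else 0)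
      = fun H => Y H * g (pr H) := by
    funext H
    simp only [hYdef]
    split_ifs <;> simp
  rw [e1]
  have e2 : Ex (hyp V d) (fun _ => c) (fun H => Cm (Ni d h) (prs h).val g (pr H))
      = Ex (hyp V d) (fun _ => c) (fun H => X H * g (pr H)) / y ^ m := by
    rw [hX, mul_div_cancel_left₀ _ hym.ne']
  rw [e2]
  set a := Ex (hyp V d) (fun _ => c) (fun H => Y H * g (pr H)) with ha
  set b := Ex (hyp V d) (fun _ => c) (fun H => X H * g (pr H)) with hb
  have hab := hgen g hg
  have ha0 : 0 ≤ a := Ex_nonneg hp fun H _ => mul_nonneg (by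
    simp only [hYdef]; split_ifs <;> norm_num) (hg _).1
  have haκ : a ≤ κ := by
    rw [hκ']
    refine Ex_mono hp fun H _ => ?_
    refine mul_le_of_le_one_right ?_ (hg _).2
    simp only [hYdef]; split_ifs <;> norm_num
  have h1 : |a / κ - a / y ^ m| ≤ ε := by
    have h2 : a / κ - a / y ^ m = (a / κ) * ((y ^ m - κ) / y ^ m) := by
      field_simp
    rw [h2, abs_mul, abs_of_nonneg (div_nonneg ha0 hκ0.le), abs_div, abs_of_pos hym]
    have h3 : a / κ ≤ 1 := (div_le_one hκ0).2 haκ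
    have h4 : |y ^ m - κ| / y ^ m ≤ ε := by
      rw [div_le_iff₀ hym, abs_sub_comm, abs_le]
      exact hκ1
    have h5 : 0 ≤ |y ^ m - κ| / y ^ m := by positivity
    have h6 : 0 ≤ a / κ := div_nonneg ha0 hκ0.le
    nlinarith
  have h2 : |a / y ^ m - b / y ^ m| ≤ ε := by
    rw [← sub_div, abs_div, abs_of_pos hym, div_le_iff₀ hym]
    exact hab
  calc |a / κ - b / y ^ m| ≤ |a / κ - a / y ^ m| + |a / y ^ m - b / y ^ m| := abs_sub_le _ _ _
    _ ≤ 2 * ε := by linarith

/-- comparison of expectations and the distance `dst` -/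
theorem dst_bound (d : ℕ) (c κ : ℝ) (h : Finset V) (S : Finset (Finset V))
    (hdisj : Disjoint S (prs h)) (f : Finset (Finset V) → ℝ) (hf : UI f) :
    |Ex (hyp V d) (fun _ => c) (fun H => f ((prs h ∪ S) ∪ pr H))
      - Ex (hyp V d) (fun _ => c) (fun H => if prs h ⊆ pr H then f (S ∪ pr H) else 0) / κ|
      ≤ dst d c κ h S := by
  have hsub : ∀ H : Finset (Finset V), prs h ⊆ S ∪ pr H ↔ prs h ⊆ pr H := by
    intro H
    constructor
    · intro h2 u hu
      rcases mem_union.1 (h2 hu) with h3 | h3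
      · exact absurd hu (Finset.disjoint_left.1 hdisj h3)
      · exact h3
    · intro h2
      exact h2.trans subset_union_right
  have e1 : Ex (hyp V d) (fun _ => c) (fun H => f ((prs h ∪ S) ∪ pr H))
      = ∑ G, law d c (prs h ∪ S) G * f G := (law_sum _ _ _ _).symm
  have e2 : Ex (hyp V d) (fun _ => c) (fun H => if prs h ⊆ pr H then f (S ∪ pr H) else 0) / κ
      = ∑ G, (if prs h ⊆ G then law d c S G / κ else 0) * f G := by
    have h3 : ∀ G, (if prs h ⊆ G then law d c S G / κ else 0) * f G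
        = (law d c S G * (if prs h ⊆ G then f G else 0)) / κ := by
      intro G
      split_ifs
      · ring
      · simp
    simp only [h3]
    rw [← sum_div, law_sum]
    simp only [hsub]
  rw [e1, e2, ← sum_sub_distrib]
  refine (abs_sum_le_sum_abs _ _).trans ?_
  unfold dst
  refine sum_le_sum fun G _ => ?_
  rw [← sub_mul, abs_mul, abs_of_nonneg (hf G).1]
  exact mul_le_of_le_one_right (abs_nonneg _) (hf G).2

theorem sum_log_eq (K : ℕ) : ∑ j ∈ range K, Real.log ((j : ℝ) + 1) = Real.log (K.factorial) := by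
  induction K with
  | zero => simp
  | succ K ih =>
    rw [sum_range_succ, ih, Nat.factorial_succ]
    push_cast
    rw [Real.log_mul (by positivity) (by positivity)]
    ring

theorem prob_not_disjoint_le (d : ℕ) {c b : ℝ} (h0 : 0 ≤ c) (h1 : c ≤ 1) (h : Finset V)
    (hb : ∀ u ∈ prs h, c * (Nu d u).card ≤ b) :
    Ex (hyp V d) (fun _ => c) (fun A => if Disjoint (pr A) (prs h) then 0 else 1)
      ≤ (prs h).card * b := by
  have hp : Prob (hyp V d) (fun _ : Finset V => c) := fun _ _ => ⟨h0, h1⟩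
  have h2 : ∀ A : Finset (Finset V), A ⊆ hyp V d →
      (if Disjoint (pr A) (prs h) then (0 : ℝ) else 1)
        ≤ ∑ u ∈ prs h, if u ∈ pr A then (1 : ℝ) else 0 := by
    intro A _
    split_ifs with hd
    · exact sum_nonneg fun u _ => by split_ifs <;> norm_num
    · rw [Finset.not_disjoint_iff] at hd
      obtain ⟨u, hu1, hu2⟩ := hd
      have h3 := single_le_sum (f := fun u => if u ∈ pr A then (1 : ℝ) else 0)
        (fun u _ => by positivity) hu2
      simpa [hu1] using h3
  refine (Ex_mono hp h2).trans ?_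
  rw [Ex_sum, ← nsmul_eq_mul, ← sum_const]
  exact sum_le_sum fun u hu => (prob_pair_le d h0 h1 u).trans (hb u hu)

/-- The clique lemma, for some hyperedge. -/
theorem clique_exists (d : ℕ) (hd : 2 ≤ d) {c0 : ℝ} (h0 : 0 < c0) (h1 : c0 < 1) (K : ℕ)
    (hK : 1 ≤ K) (hn : d ≤ Fintype.card V) {η q ε4 : ℝ} (hη0 : 0 ≤ η) (hη1 : η ≤ 1)
    (hq : q = K * (c0 * ((Fintype.card V - 2).choose (d - 2) : ℝ))) (hq0 : 0 < q)
    (hq2 : q ≤ 1 / 2) (hmq : (d.choose 2) * q ≤ 1)
    (hN : 0 < (Fintype.card V - d).choose (d - 2))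
    (hε4 : ∀ r, 1 ≤ r → r ≤ K → 2 ^ (d.choose 2)
      * (pc c0 r * ((Fintype.card V - d).choose (d - 2) : ℝ)) + 2 ^ 2 ^ d * η ≤ ε4)
    (hε41 : ε4 ≤ 1 / 2)
    (hs : ∀ r, 1 ≤ r → r ≤ K → ∀ s, 3 ≤ s → s ≤ d →
      pc c0 r * ((Fintype.card V - d).choose (d - s) : ℝ)
        ≤ η * (pc c0 r * ((Fintype.card V - d).choose (d - 2) : ℝ)) ^ (s.choose 2)) :
    ∃ h ∈ hyp V d, ∀ f, UI f →
      |Ex (hyp V d) (fun _ => pc c0 K) (fun H => f (prs h ∪ pr H))
        - Ex (hyp V d) (fun _ => pc c0 K) (fun H => Cm (Ni d h) (prs h).val f (pr H))|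
      ≤ 2 * Real.sqrt (2 * (d.choose 2) * q
          + (d.choose 2) * q * ((d.choose 2) * Real.log (1 / q) + (d.choose 2))
          + (d.choose 2) * (1 + Real.log K) / K + ε4) + (d.choose 2) * q + 2 * ε4 := by
  set n := Fintype.card V with hn'
  set m : ℝ := (d.choose 2 : ℝ) with hm
  set M2 : ℝ := ((n - 2).choose (d - 2) : ℝ) with hM2
  set M2' : ℝ := ((n - d).choose (d - 2) : ℝ) with hM2'
  set M : ℝ := (n.choose d : ℝ) with hM
  have hM2'0 : 0 < M2' := by rw [hM2']; exact_mod_cast hN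
  have hM2'le : M2' ≤ M2 := by
    rw [hM2, hM2']
    exact_mod_cast Nat.choose_le_choose (d - 2) (by omega)
  have hM20 : 0 < M2 := lt_of_lt_of_le hM2'0 hM2'le
  have hM0 : 0 < M := by rw [hM]; exact_mod_cast Nat.choose_pos hn
  have hK0 : (0 : ℝ) < K := by exact_mod_cast hK
  have hm1 : 1 ≤ m := by
    rw [hm]
    exact_mod_cast Nat.choose_pos hd
  have hpcn : ∀ r, 0 ≤ pc c0 r := pc_nonneg h0.le h1.le
  have hpc1 : ∀ r, pc c0 r ≤ 1 := pc_le_one h1.le
  have hpcpos : ∀ r, 1 ≤ r → 0 < pc c0 r := by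
    intro r hr
    have := pc_mono h0.le h1.le hr
    rw [pc_one] at this
    linarith
  have hε40 : 0 ≤ ε4 := le_trans (by
    have := hpcn 1
    positivity) (hε4 1 le_rfl hK)
  have hprsc : ∀ h ∈ hyp V d, (prs h).card = d.choose 2 := by
    intro h hh
    rw [prs, card_powersetCard, mem_hyp.1 hh]
  have hNic : ∀ h ∈ hyp V d, ∀ s, s ⊆ h → (Ni d h s).card = (n - d).choose (d - s.card) := by
    intro h hh s hs
    have h2 := card_le_card hs
    rw [mem_hyp.1 hh] at h2
    rw [card_Ni hs h2, mem_hyp.1 hh]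
  have hNuc : ∀ u : Finset V, u.card = 2 → ((Nu d u).card : ℝ) = M2 := by
    intro u hu
    rw [card_Nu (by omega), hu]
  -- the conditional laws
  set κ : ℕ → Finset V → ℝ := fun r h =>
    Ex (hyp V d) (fun _ => pc c0 r) (fun H => if prs h ⊆ pr H then 1 else 0) with hκ
  have hcc : ∀ r, 1 ≤ r → r ≤ K → ∀ h ∈ hyp V d, 0 < κ r h ∧
      κ r h ≤ (1 + ε4) * (pc c0 r * M2') ^ (d.choose 2) ∧ ∀ g : Finset (Finset V) → ℝ, UI g →
      |Ex (hyp V d) (fun _ => pc c0 r) (fun H => if prs h ⊆ pr H then g (pr H) else 0) / κ r h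
        - Ex (hyp V d) (fun _ => pc c0 r) (fun H => Cm (Ni d h) (prs h).val g (pr H))|
        ≤ 2 * ε4 := by
    intro r hr1 hrK h hh
    have hy0 : 0 < pc c0 r * M2' := mul_pos (hpcpos r hr1) hM2'0
    have h2 := hε4 r hr1 hrK
    have h3 : (1 : ℝ) ≤ 2 ^ (d.choose 2) := one_le_pow₀ (by norm_num)
    have hy1 : pc c0 r * M2' ≤ 1 := by
      have h4 : (0 : ℝ) ≤ 2 ^ 2 ^ d * η := by positivity
      nlinarith
    have := cond_close d h (c := pc c0 r) (η := η) (y := pc c0 r * M2') (ε := ε4)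
      (hpcpos r hr1) (hpc1 r) hη0 hη1 hy0 hy1
      (by
        intro u hu
        rw [hNic h hh u (mem_prs.1 hu).1, (mem_prs.1 hu).2])
      (by
        intro s hsh hs3
        have h5 := card_le_card hsh
        rw [mem_hyp.1 hh] at h5
        rw [hNic h hh s hsh]
        exact hs r hr1 hrK s.card hs3 h5)
      (by rw [hprsc h hh, mem_hyp.1 hh]; exact h2) hε41 (κ := κ r h) rfl
    rw [hprsc h hh] at this
    exact this
  -- lower bound for log (1/κ)
  set L : ℕ → ℝ := fun r => m * Real.log (1 / (r * (c0 * M2))) - ε4 with hL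
  have hrq : ∀ r : ℕ, 1 ≤ r → r ≤ K → 0 < (r : ℝ) * (c0 * M2) ∧ (r : ℝ) * (c0 * M2) ≤ q := by
    intro r hr1 hrK
    have h2 : (0 : ℝ) < r := by exact_mod_cast hr1
    have h3 : (r : ℝ) ≤ K := by exact_mod_cast hrK
    refine ⟨by positivity, ?_⟩
    rw [hq]
    exact mul_le_mul_of_nonneg_right h3 (by positivity)
  have hLκ : ∀ r, 1 ≤ r → r ≤ K → ∀ h ∈ hyp V d, L r ≤ Real.log (1 / κ r h) := by
    intro r hr1 hrK h hh
    obtain ⟨hk0, hk1, _⟩ := hcc r hr1 hrK h hh
    obtain ⟨hr0, _⟩ := hrq r hr1 hrK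
    have h2 : pc c0 r * M2' ≤ r * (c0 * M2) := by
      have h3 := pc_le h1.le r
      calc pc c0 r * M2' ≤ (r * c0) * M2 :=
            mul_le_mul h3 hM2'le hM2'0.le (by positivity)
        _ = _ := by ring
    have h3 : κ r h ≤ (1 + ε4) * (r * (c0 * M2)) ^ (d.choose 2) := by
      refine hk1.trans ?_
      have h4 : 0 ≤ pc c0 r * M2' := mul_nonneg (hpcn r) hM2'0.le
      gcongr
    have h4 := Real.log_le_log hk0 h3
    rw [Real.log_mul (by positivity) (by positivity), Real.log_pow] at h4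
    have h5 : Real.log (1 + ε4) ≤ ε4 := by
      have := Real.log_le_sub_one_of_pos (x := 1 + ε4) (by positivity)
      linarith
    simp only [hL]
    rw [one_div, Real.log_inv, one_div, Real.log_inv]
    rw [← hm] at h4
    linarith
  have hlog2 : (1 : ℝ) / 2 ≤ Real.log 2 := by
    have := Real.log_two_gt_d9
    linarith
  have hL0 : ∀ r, 1 ≤ r → r ≤ K → 0 ≤ L r := by
    intro r hr1 hrK
    obtain ⟨hr0, hrle⟩ := hrq r hr1 hrK
    have h2 : Real.log 2 ≤ Real.log (1 / (r * (c0 * M2))) := by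
      refine Real.log_le_log (by norm_num) ?_
      rw [le_div_iff₀ hr0]
      linarith
    have h3 : Real.log 2 ≤ m * Real.log (1 / (r * (c0 * M2))) := by
      nlinarith
    simp only [hL]
    linarith
  -- the disjointness event
  set B : Finset V → Finset (Finset V) → ℝ := fun h A =>
    if Disjoint (pr A) (prs h) then 1 else 0 with hB
  have hq' : ∀ i, i ≤ K → pc c0 i * M2 ≤ q := by
    intro i hi
    have h2 := pc_le h1.le i
    have h3 : (i : ℝ) ≤ K := by exact_mod_cast hi
    calc pc c0 i * M2 ≤ (i * c0) * M2 := by gcongr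
      _ ≤ (K * c0) * M2 := by gcongr
      _ = q := by rw [hq]; ring
  have hBc : ∀ i, i ≤ K → ∀ h ∈ hyp V d,
      Ex (hyp V d) (fun _ => pc c0 i) (fun A => 1 - B h A) ≤ m * q := by
    intro i hi h hh
    have h2 := prob_not_disjoint_le d (hpcn i) (hpc1 i) h (b := q) (by
      intro u hu
      rw [hNuc u (mem_prs.1 hu).2]
      exact hq' i hi)
    rw [hprsc h hh, ← hm] at h2
    refine le_trans (le_of_eq ?_) h2
    refine Ex_congr fun A _ => ?_
    simp only [hB]
    split_ifs <;> norm_num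
  have hBEx : ∀ i, i ≤ K → ∀ h ∈ hyp V d, 1 - m * q ≤ Ex (hyp V d) (fun _ => pc c0 i) (B h) := by
    intro i hi h hh
    have h2 := hBc i hi h hh
    rw [Ex_sub, Ex_const] at h2
    linarith
  set E : ℕ → Finset V → ℝ := fun i h => Ex (hyp V d) (fun _ => pc c0 i)
    (fun A => B h A * dst d (pc c0 (K - i)) (κ (K - i) h) h (pr A) ^ 2) with hE
  have hklge : ∀ i ∈ range K, ∀ h ∈ hyp V d, L (K - i) * (1 - m * q) + E i h / 4
      ≤ Ex (hyp V d) (fun _ => pc c0 i) (fun A => kl (law d (pc c0 (K - i)) (prs h ∪ pr A))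
          (law d (pc c0 (K - i)) (pr A))) := by
    intro i hi h hh
    rw [mem_range] at hi
    have hr1 : 1 ≤ K - i := by omega
    have hrK : K - i ≤ K := by omega
    have h2 : ∀ A : Finset (Finset V), A ⊆ hyp V d →
        L (K - i) * B h A + (1 / 4) * (B h A * dst d (pc c0 (K - i)) (κ (K - i) h) h (pr A) ^ 2)
        ≤ kl (law d (pc c0 (K - i)) (prs h ∪ pr A)) (law d (pc c0 (K - i)) (pr A)) := by
      intro A _
      simp only [hB]
      split_ifs with hdis
      · have h3 := kl_law_ge d (hpcpos _ hr1) (hpc1 _) hh (pr A) hdis (κ := κ (K - i) h) rfl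
          (hcc _ hr1 hrK h hh).1
        have h4 := hLκ _ hr1 hrK h hh
        linarith
      · have := kl_law_nonneg d (hpcpos _ hr1) (hpc1 _) hh (pr A)
        simpa using this
    have h3 := Ex_mono (S := hyp V d) (p := fun _ => pc c0 i) (fun _ _ => ⟨hpcn i, hpc1 i⟩) h2
    rw [Ex_add, Ex_mul_left, Ex_mul_left] at h3
    have h4 := hBEx i hi.le h hh
    have h5 := mul_le_mul_of_nonneg_left h4 (hL0 _ hr1 hrK)
    simp only [hE]
    linarith
  -- the budget
  have hbud := layers_budget (V := V) d h0 h1 K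
  have hup := ent_law_le (V := V) d (hpcn K) (hpc1 K) hq0 hq2 (fun u hu => (hNuc u hu).le)
    (hq' K le_rfl)
  have hlow : ∑ i ∈ range K, ∑ h ∈ hyp V d, c0 * (L (K - i) * (1 - m * q) + E i h / 4)
      ≤ (n.choose 2 : ℝ) * (q * Real.log (1 / q) + q + 2 * q ^ 2) := by
    refine le_trans ?_ (hbud.trans hup)
    refine sum_le_sum fun i hi => sum_le_sum fun h hh => ?_
    exact mul_le_mul_of_nonneg_left (hklge i hi h hh) h0.le
  have hcard : ((hyp V d).card : ℝ) = M := by rw [card_hyp]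
  have hsplit : ∑ i ∈ range K, ∑ h ∈ hyp V d, c0 * (L (K - i) * (1 - m * q) + E i h / 4)
      = c0 * M * (1 - m * q) * ∑ i ∈ range K, L (K - i)
        + c0 / 4 * ∑ i ∈ range K, ∑ h ∈ hyp V d, E i h := by
    rw [mul_sum, mul_sum, ← sum_add_distrib]
    refine sum_congr rfl fun i _ => ?_
    rw [mul_sum]
    have : ∀ h ∈ hyp V d, c0 * (L (K - i) * (1 - m * q) + E i h / 4)
        = c0 * L (K - i) * (1 - m * q) + c0 / 4 * E i h := fun h _ => by ring
    rw [sum_congr rfl this, sum_add_distrib, sum_const, nsmul_eq_mul, hcard]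
    ring
  have hsumL : m * K * Real.log (1 / q) + m * K - m * (1 + Real.log K) - K * ε4
      ≤ ∑ i ∈ range K, L (K - i) := by
    have h2 : ∑ i ∈ range K, L (K - i) = ∑ j ∈ range K, L (j + 1) := by
      rw [← sum_range_reflect (fun j => L (j + 1)) K]
      refine sum_congr rfl fun i hi => ?_
      rw [mem_range] at hi
      congr 1
      omega
    have h3 : ∀ j ∈ range K, L (j + 1)
        = (-m) * Real.log ((j : ℝ) + 1) + (-m * Real.log (c0 * M2) - ε4) := by
      intro j _
      simp only [hL]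
      push_cast
      rw [one_div, Real.log_inv, Real.log_mul (by positivity) (by positivity)]
      ring
    have h4 : Real.log (c0 * M2) = Real.log q - Real.log K := by
      have : c0 * M2 = q / K := by rw [hq]; field_simp
      rw [this, Real.log_div hq0.ne' hK0.ne']
    have h5 := log_factorial_le K hK
    rw [h2, sum_congr rfl h3, sum_add_distrib, ← mul_sum, sum_log_eq, sum_const, card_range,
      nsmul_eq_mul, h4, one_div, Real.log_inv]
    have h6 := mul_le_mul_of_nonneg_left h5 (by linarith : 0 ≤ m)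
    nlinarith
  have hchoose : (n.choose 2 : ℝ) * q = K * c0 * M * m := by
    have h2 : n.choose d * d.choose 2 = n.choose 2 * (n - 2).choose (d - 2) :=
      Nat.choose_mul hd
    have h3 : M * m = (n.choose 2 : ℝ) * M2 := by
      rw [hM, hm, hM2]
      exact_mod_cast h2
    rw [hq]
    calc (n.choose 2 : ℝ) * (K * (c0 * M2)) = K * c0 * ((n.choose 2 : ℝ) * M2) := by ring
      _ = K * c0 * (M * m) := by rw [h3]
      _ = _ := by ring
  set ε2 : ℝ := 2 * m * q + m * q * (m * Real.log (1 / q) + m) + m * (1 + Real.log K) / K + ε4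
    with hε2
  have hlogq : 0 ≤ Real.log (1 / q) := Real.log_nonneg (by rw [le_div_iff₀ hq0]; linarith)
  have hlogK : 0 ≤ Real.log K := Real.log_nonneg (by exact_mod_cast hK)
  have hfinal : ∑ i ∈ range K, ∑ h ∈ hyp V d, E i h
      ≤ ∑ i ∈ range K, ∑ h ∈ hyp V d, 4 * ε2 := by
    rw [sum_const, sum_const, card_range, nsmul_eq_mul, nsmul_eq_mul, hcard]
    have h2 : (n.choose 2 : ℝ) * (q * Real.log (1 / q) + q + 2 * q ^ 2)
        = K * c0 * M * m * (Real.log (1 / q) + 1 + 2 * q) := by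
      rw [← hchoose]; ring
    rw [hsplit, h2] at hlow
    have h3 := mul_le_mul_of_nonneg_left hsumL
      (by
        have : 0 ≤ 1 - m * q := by linarith
        positivity : 0 ≤ c0 * M * (1 - m * q))
    have h4 : c0 / 4 * ∑ i ∈ range K, ∑ h ∈ hyp V d, E i h
        ≤ c0 * M * K * ε2 := by
      have h5 : K * c0 * M * m * (Real.log (1 / q) + 1 + 2 * q)
          - c0 * M * (1 - m * q)
            * (m * K * Real.log (1 / q) + m * K - m * (1 + Real.log K) - K * ε4)
          ≤ c0 * M * K * ε2 := by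
        have h6 : c0 * M * K * ε2 - (K * c0 * M * m * (Real.log (1 / q) + 1 + 2 * q)
          - c0 * M * (1 - m * q)
            * (m * K * Real.log (1 / q) + m * K - m * (1 + Real.log K) - K * ε4))
          = c0 * M * (m * q) * (m * (1 + Real.log K) + K * ε4) := by
          rw [hε2]
          field_simp
          ring
        have h7 : 0 ≤ c0 * M * (m * q) * (m * (1 + Real.log K) + K * ε4) := by positivity
        linarith
      linarith
    have h8 : c0 / 4 * ∑ i ∈ range K, ∑ h ∈ hyp V d, E i h ≤ c0 / 4 * (K * (M * (4 * ε2))) := by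
      refine h4.trans (le_of_eq ?_)
      ring
    exact le_of_mul_le_mul_left h8 (by positivity)
  have hne : (hyp V d).Nonempty := by
    rw [← card_pos, card_hyp]
    exact Nat.choose_pos hn
  have hneK : (range K).Nonempty := ⟨0, mem_range.2 (by omega)⟩
  obtain ⟨i, hi, hsi⟩ := exists_le_of_sum_le hneK hfinal
  obtain ⟨h, hh, hEh⟩ := exists_le_of_sum_le hne hsi
  rw [mem_range] at hi
  refine ⟨h, hh, ?_⟩
  intro f hf
  have hr1 : 1 ≤ K - i := by omega
  have hrK : K - i ≤ K := by omega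
  have hiK : i + (K - i) = K := by omega
  have hpi : Prob (hyp V d) (fun _ : Finset V => pc c0 i) := fun _ _ => ⟨hpcn i, hpc1 i⟩
  have hpr : Prob (hyp V d) (fun _ : Finset V => pc c0 (K - i)) :=
    fun _ _ => ⟨hpcn _, hpc1 _⟩
  have e1 : Ex (hyp V d) (fun _ => pc c0 K) (fun H => f (prs h ∪ pr H))
      = Ex (hyp V d) (fun _ => pc c0 i) (fun A => Ex (hyp V d) (fun _ => pc c0 (K - i))
        (fun H => f ((prs h ∪ pr A) ∪ pr H))) := by
    have := Ex_pc d c0 i (K - i) (fun H : Finset (Finset V) => f (prs h ∪ pr H))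
    rw [hiK] at this
    rw [← this]
    simp only [pr_union, union_assoc]
  have e2 : Ex (hyp V d) (fun _ => pc c0 K) (fun H => Cm (Ni d h) (prs h).val f (pr H))
      = Ex (hyp V d) (fun _ => pc c0 i) (fun A => Ex (hyp V d) (fun _ => pc c0 (K - i))
        (fun H => Cm (Ni d h) (prs h).val f (pr A ∪ pr H))) := by
    have := Ex_pc d c0 i (K - i) (fun H : Finset (Finset V) => Cm (Ni d h) (prs h).val f (pr H))
    rw [hiK] at this
    rw [← this]
    simp only [pr_union]
  rw [e1, e2, ← Ex_sub]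
  refine (abs_Ex_le hpi _).trans ?_
  have hpt : ∀ A : Finset (Finset V), A ⊆ hyp V d →
      |Ex (hyp V d) (fun _ => pc c0 (K - i)) (fun H => f ((prs h ∪ pr A) ∪ pr H))
        - Ex (hyp V d) (fun _ => pc c0 (K - i))
          (fun H => Cm (Ni d h) (prs h).val f (pr A ∪ pr H))|
      ≤ (B h A * dst d (pc c0 (K - i)) (κ (K - i) h) h (pr A) + (1 - B h A)) + 2 * ε4 := by
    intro A _
    have hcl := (hcc _ hr1 hrK h hh).2.2 (fun G => f (pr A ∪ G)) (fun G => hf _)
    simp only [Cm_translate] at hcl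
    simp only [hB]
    split_ifs with hdis
    · have hdb := dst_bound d (pc c0 (K - i)) (κ (K - i) h) h (pr A) hdis f hf
      refine (abs_sub_le _ _ _).trans (le_trans (add_le_add hdb hcl) ?_)
      linarith
    · have hb1 : ∀ H : Finset (Finset V), 0 ≤ f ((prs h ∪ pr A) ∪ pr H)
          ∧ f ((prs h ∪ pr A) ∪ pr H) ≤ 1 := fun H => hf _
      have hb2 : ∀ H : Finset (Finset V), 0 ≤ Cm (Ni d h) (prs h).val f (pr A ∪ pr H)
          ∧ Cm (Ni d h) (prs h).val f (pr A ∪ pr H) ≤ 1 := fun H => Cm_UI _ _ hf _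
      have c1 := Ex_nonneg hpr (fun H _ => (hb1 H).1)
      have c2 := Ex_le hpr (fun H _ => (hb1 H).2)
      have c3 := Ex_nonneg hpr (fun H _ => (hb2 H).1)
      have c4 := Ex_le hpr (fun H _ => (hb2 H).2)
      rw [abs_le]
      constructor <;> linarith
  refine (Ex_mono hpi hpt).trans ?_
  rw [Ex_add, Ex_add, Ex_const]
  have hBd : Ex (hyp V d) (fun _ => pc c0 i)
      (fun A => B h A * dst d (pc c0 (K - i)) (κ (K - i) h) h (pr A)) ≤ 2 * Real.sqrt ε2 := by
    have h2 := sq_Ex_le hpi (fun A => B h A * dst d (pc c0 (K - i)) (κ (K - i) h) h (pr A))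
    have h3 : Ex (hyp V d) (fun _ => pc c0 i)
        (fun A => (B h A * dst d (pc c0 (K - i)) (κ (K - i) h) h (pr A)) ^ 2) = E i h := by
      simp only [hE]
      refine Ex_congr fun A _ => ?_
      simp only [hB]
      split_ifs <;> ring
    rw [h3] at h2
    have h4 : Ex (hyp V d) (fun _ => pc c0 i)
      (fun A => B h A * dst d (pc c0 (K - i)) (κ (K - i) h) h (pr A)) ≤ Real.sqrt (4 * ε2) :=
      Real.le_sqrt_of_sq_le (h2.trans hEh)
    have h5 : Real.sqrt (4 * ε2) = 2 * Real.sqrt ε2 := by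
      rw [Real.sqrt_mul (by norm_num), show (4 : ℝ) = 2 ^ 2 by norm_num,
        Real.sqrt_sq (by norm_num)]
    rwa [h5] at h4
  have := hBc i hi.le h hh
  linarith

end Pool.Agent.Hyp
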