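import Pool.Agent.Lib.MP_3f2ee3_pr.Graph

/-!
# MP_3f2ee3_pr: products of counts, covers of a clique
-/

set_option autoImplicit false
set_option linter.unusedSectionVars false

namespace Pool.Agent.Hyp

open Finset

section general

variable {Ω ι : Type*} [DecidableEq Ω] [DecidableEq ι]

theorem insert_inter_card_of_notMem {N : Finset Ω} {t : Ω} (ht : t ∉ N) (H : Finset Ω) :
    (insert t H) ∩ N = H ∩ N := by
  rw [insert_inter_of_notMem ht]

theorem Ex_prod_card {S : Finset Ω} {p : Ω → ℝ} (N : ι → Finset Ω) (I : Finset ι) {c : ℝ}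
    (hN : ∀ i ∈ I, N i ⊆ S) (hc : ∀ i ∈ I, ∀ t ∈ N i, p t = c)
    (hd : ∀ i ∈ I, ∀ j ∈ I, i ≠ j → Disjoint (N i) (N j)) :
    Ex S p (fun H => ∏ i ∈ I, ((H ∩ N i).card : ℝ)) = ∏ i ∈ I, (c * (N i).card) := by
  induction I using Finset.induction_on with
  | empty => simp [Ex_const]
  | insert i I hi ih =>
    have hN' : ∀ i ∈ I, N i ⊆ S := fun j hj => hN j (mem_insert_of_mem hj)
    have hc' : ∀ i ∈ I, ∀ t ∈ N i, p t = c := fun j hj => hc j (mem_insert_of_mem hj)
    have hd' : ∀ i ∈ I, ∀ j ∈ I, i ≠ j → Disjoint (N i) (N j) :=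
      fun j hj k hk => hd j (mem_insert_of_mem hj) k (mem_insert_of_mem hk)
    rw [prod_insert hi, ← ih hN' hc' hd']
    simp only [prod_insert hi]
    rw [Ex_card_mul (N i) (hN i (mem_insert_self _ _))]
    have h1 : ∀ t ∈ N i, p t * Ex S p (fun H => ∏ j ∈ I, (((insert t H) ∩ N j).card : ℝ))
        = c * Ex S p (fun H => ∏ j ∈ I, ((H ∩ N j).card : ℝ)) := by
      intro t ht
      rw [hc i (mem_insert_self _ _) t ht]
      congr 2
      funext H
      refine prod_congr rfl fun j hj => ?_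
      have : t ∉ N j := by
        have hij : i ≠ j := fun h => hi (h ▸ hj)
        exact Finset.disjoint_left.1 (hd i (mem_insert_self _ _) j (mem_insert_of_mem hj) hij) ht
      rw [insert_inter_card_of_notMem this]
    rw [sum_congr rfl h1, sum_const, nsmul_eq_mul]
    ring

theorem Ex_prod_card_sq_le {S : Finset Ω} {p : Ω → ℝ} (hp : Prob S p) (N : ι → Finset Ω)
    (I : Finset ι) {c : ℝ} (hc0 : 0 ≤ c)
    (hN : ∀ i ∈ I, N i ⊆ S) (hc : ∀ i ∈ I, ∀ t ∈ N i, p t = c)
    (hd : ∀ i ∈ I, ∀ j ∈ I, i ≠ j → Disjoint (N i) (N j)) :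
    Ex S p (fun H => (∏ i ∈ I, ((H ∩ N i).card : ℝ)) ^ 2)
      ≤ ∏ i ∈ I, (c * (N i).card * (1 + c * (N i).card)) := by
  induction I using Finset.induction_on with
  | empty => simp [Ex_const]
  | insert i I hi ih =>
    have hN' : ∀ i ∈ I, N i ⊆ S := fun j hj => hN j (mem_insert_of_mem hj)
    have hc' : ∀ i ∈ I, ∀ t ∈ N i, p t = c := fun j hj => hc j (mem_insert_of_mem hj)
    have hd' : ∀ i ∈ I, ∀ j ∈ I, i ≠ j → Disjoint (N i) (N j) :=
      fun j hj k hk => hd j (mem_insert_of_mem hj) k (mem_insert_of_mem hk)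
    have ih' := ih hN' hc' hd'
    set X : Finset Ω → ℝ := fun H => ∏ i ∈ I, ((H ∩ N i).card : ℝ) with hX
    have hXt : ∀ t ∈ N i, ∀ H, X (insert t H) = X H := by
      intro t ht H
      simp only [hX]
      refine prod_congr rfl fun j hj => ?_
      have : t ∉ N j := by
        have hij : i ≠ j := fun h => hi (h ▸ hj)
        exact Finset.disjoint_left.1 (hd i (mem_insert_self _ _) j (mem_insert_of_mem hj) hij) ht
      rw [insert_inter_card_of_notMem this]
    have hNi := hN i (mem_insert_self _ _)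
    set y : ℝ := c * (N i).card with hy
    have hy0 : 0 ≤ y := by positivity
    -- first moment
    have e1 : Ex S p (fun H => ((H ∩ N i).card : ℝ) * X H ^ 2) = y * Ex S p (fun H => X H ^ 2) := by
      rw [Ex_card_mul (N i) hNi]
      have h1 : ∀ t ∈ N i, p t * Ex S p (fun H => X (insert t H) ^ 2)
          = c * Ex S p (fun H => X H ^ 2) := by
        intro t ht
        rw [hc i (mem_insert_self _ _) t ht]
        simp only [hXt t ht]
      rw [sum_congr rfl h1, sum_const, nsmul_eq_mul]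
      ring
    have e2 : Ex S p (fun H => ((H ∩ N i).card : ℝ) * (((H ∩ N i).card : ℝ) * X H ^ 2))
        ≤ y * (y * Ex S p (fun H => X H ^ 2) + Ex S p (fun H => X H ^ 2)) := by
      rw [Ex_card_mul (N i) hNi]
      have h1 : ∀ t ∈ N i,
          p t * Ex S p (fun H => (((insert t H) ∩ N i).card : ℝ) * X (insert t H) ^ 2)
          ≤ c * (y * Ex S p (fun H => X H ^ 2) + Ex S p (fun H => X H ^ 2)) := by
        intro t ht
        rw [hc i (mem_insert_self _ _) t ht]
        refine mul_le_mul_of_nonneg_left ?_ hc0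
        rw [← e1, ← Ex_add]
        refine Ex_mono hp fun H _ => ?_
        rw [hXt t ht]
        have h3 : (((insert t H) ∩ N i).card : ℝ) ≤ ((H ∩ N i).card : ℝ) + 1 := by
          rw [insert_inter_of_mem ht]
          exact_mod_cast card_insert_le _ _
        nlinarith [sq_nonneg (X H)]
      refine (sum_le_sum h1).trans ?_
      rw [sum_const, nsmul_eq_mul]
      apply le_of_eq
      ring
    have e3 : (fun H : Finset Ω => (∏ j ∈ insert i I, ((H ∩ N j).card : ℝ)) ^ 2)
        = fun H => ((H ∩ N i).card : ℝ) * (((H ∩ N i).card : ℝ) * X H ^ 2) := by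
      funext H
      rw [prod_insert hi]
      simp only [hX]
      ring
    rw [e3, prod_insert hi]
    calc _ ≤ y * (y * Ex S p (fun H => X H ^ 2) + Ex S p (fun H => X H ^ 2)) := e2
      _ = y * (1 + y) * Ex S p (fun H => X H ^ 2) := by ring
      _ ≤ _ := mul_le_mul_of_nonneg_left ih' (by positivity)

end general

variable {V : Type*} [DecidableEq V]

theorem av_translate (N : Finset (Finset V)) (g : Finset (Finset V) → ℝ)
    (T G : Finset (Finset V)) : av N (fun G => g (T ∪ G)) G = av N g (T ∪ G) := by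
  unfold av
  simp only [union_left_comm T]

theorem Cm_translate (𝒩 : Finset V → Finset (Finset V)) (s : Multiset (Finset V))
    (g : Finset (Finset V) → ℝ) (T G : Finset (Finset V)) :
    Cm 𝒩 s (fun G => g (T ∪ G)) G = Cm 𝒩 s g (T ∪ G) := by
  induction s using Multiset.induction_on generalizing G with
  | empty => rfl
  | cons u s ih =>
    rw [Cm_cons, Cm_cons, ← av_translate]
    congr 1
    funext G
    exact ih G

/-- the Mecke formula for tuples of hyperedges from disjoint classes -/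
theorem Ex_prod_card_mul {S : Finset (Finset V)} {p : Finset V → ℝ}
    (𝒩 : Finset V → Finset (Finset V)) (I : Finset (Finset V)) {c : ℝ}
    (hN : ∀ i ∈ I, 𝒩 i ⊆ S) (hc : ∀ i ∈ I, ∀ t ∈ 𝒩 i, p t = c)
    (hd : ∀ i ∈ I, ∀ j ∈ I, i ≠ j → Disjoint (𝒩 i) (𝒩 j)) (g : Finset (Finset V) → ℝ) :
    Ex S p (fun H => (∏ i ∈ I, ((H ∩ 𝒩 i).card : ℝ)) * g (pr H))
      = (∏ i ∈ I, (c * (𝒩 i).card)) * Ex S p (fun H => Cm 𝒩 I.val g (pr H)) := by
  induction I using Finset.induction_on generalizing g with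
  | empty => simp
  | insert i I hi ih =>
    have hN' : ∀ i ∈ I, 𝒩 i ⊆ S := fun j hj => hN j (mem_insert_of_mem hj)
    have hc' : ∀ i ∈ I, ∀ t ∈ 𝒩 i, p t = c := fun j hj => hc j (mem_insert_of_mem hj)
    have hd' : ∀ i ∈ I, ∀ j ∈ I, i ≠ j → Disjoint (𝒩 i) (𝒩 j) :=
      fun j hj k hk => hd j (mem_insert_of_mem hj) k (mem_insert_of_mem hk)
    have hXt : ∀ t ∈ 𝒩 i, ∀ H : Finset (Finset V), ∏ j ∈ I, (((insert t H) ∩ 𝒩 j).card : ℝ)
        = ∏ j ∈ I, ((H ∩ 𝒩 j).card : ℝ) := by
      intro t ht H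
      refine prod_congr rfl fun j hj => ?_
      have : t ∉ 𝒩 j := by
        have hij : i ≠ j := fun h => hi (h ▸ hj)
        exact Finset.disjoint_left.1 (hd i (mem_insert_self _ _) j (mem_insert_of_mem hj) hij) ht
      rw [insert_inter_card_of_notMem this]
    have hNi := hN i (mem_insert_self _ _)
    have e3 : (fun H : Finset (Finset V) => (∏ j ∈ insert i I, ((H ∩ 𝒩 j).card : ℝ)) * g (pr H))
        = fun H => ((H ∩ 𝒩 i).card : ℝ) * ((∏ j ∈ I, ((H ∩ 𝒩 j).card : ℝ)) * g (pr H)) := by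
      funext H
      rw [prod_insert hi, mul_assoc]
    rw [e3, Ex_card_mul (𝒩 i) hNi]
    have h1 : ∀ t ∈ 𝒩 i, p t * Ex S p (fun H => (∏ j ∈ I, (((insert t H) ∩ 𝒩 j).card : ℝ))
          * g (pr (insert t H)))
        = c * ((∏ j ∈ I, (c * (𝒩 j).card))
            * Ex S p (fun H => Cm 𝒩 I.val g (prs t ∪ pr H))) := by
      intro t ht
      rw [hc i (mem_insert_self _ _) t ht]
      simp only [hXt t ht, pr_insert]
      rw [ih hN' hc' hd' (fun G => g (prs t ∪ G))]
      simp only [Cm_translate]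
    rw [sum_congr rfl h1, ← mul_sum, ← mul_sum, ← Ex_sum, prod_insert hi]
    have h2 : (insert i I).val = i ::ₘ I.val := insert_val_of_notMem hi
    rw [h2]
    simp only [Cm_cons]
    by_cases hcard : ((𝒩 i).card : ℝ) = 0
    · have : 𝒩 i = ∅ := by
        rw [← card_eq_zero]
        exact_mod_cast hcard
      simp [this, Ex_const]
    · have h3 : (fun H : Finset (Finset V) => ∑ t ∈ 𝒩 i, Cm 𝒩 I.val g (prs t ∪ pr H))
          = fun H => ((𝒩 i).card : ℝ) * av (𝒩 i) (Cm 𝒩 I.val g) (pr H) := by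
        funext H
        rw [av, mul_div_cancel₀ _ hcard]
      rw [h3, Ex_mul_left]
      ring

variable [Fintype V]

/-- The families of subsets of `h` covering all pairs of `h`, not all of them pairs. -/
def badCovers (h : Finset V) : Finset (Finset (Finset V)) :=
  (h.powerset.powerset).filter (fun F => (∀ s ∈ F, 2 ≤ s.card) ∧ prs h ⊆ pr F ∧
    ∃ s ∈ F, 3 ≤ s.card)

theorem card_badCovers (h : Finset V) : (badCovers h).card ≤ 2 ^ 2 ^ h.card := by
  refine (card_filter_le _ _).trans ?_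
  rw [card_powerset, card_powerset]

open Classical in
theorem cover_bound (d : ℕ) (h : Finset V) (H : Finset (Finset V)) (hH : H ⊆ hyp V d)
    (hY : prs h ⊆ pr H) (hX : ∏ u ∈ prs h, ((H ∩ Ni d h u).card : ℝ) = 0) :
    1 ≤ ∑ F ∈ badCovers h, ∏ s ∈ F, ((H ∩ Ni d h s).card : ℝ) := by
  set F : Finset (Finset V) := (H.filter (fun h' => 2 ≤ (h' ∩ h).card)).image (fun h' => h' ∩ h)
    with hF
  have hone : ∀ s ∈ F, 1 ≤ ((H ∩ Ni d h s).card : ℝ) := by
    intro s hs
    rw [hF, mem_image] at hs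
    obtain ⟨h', hh', rfl⟩ := hs
    rw [mem_filter] at hh'
    have : 0 < (H ∩ Ni d h (h' ∩ h)).card := by
      refine card_pos.2 ⟨h', ?_⟩
      rw [mem_inter, mem_Ni]
      exact ⟨hh'.1, mem_hyp.1 (hH hh'.1), rfl⟩
    exact_mod_cast this
  have hcov : prs h ⊆ pr F := by
    intro u hu
    have hu' := mem_pr.1 (hY hu)
    obtain ⟨h', hh', huh', hu2⟩ := hu'
    rw [mem_prs] at hu
    rw [mem_pr]
    refine ⟨h' ∩ h, ?_, subset_inter huh' hu.1, hu2⟩
    rw [hF, mem_image]
    refine ⟨h', ?_, rfl⟩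
    rw [mem_filter]
    refine ⟨hh', ?_⟩
    rw [← hu2]
    exact card_le_card (subset_inter huh' hu.1)
  have hbad : F ∈ badCovers h := by
    rw [badCovers, mem_filter]
    refine ⟨?_, ?_, hcov, ?_⟩
    · rw [mem_powerset]
      intro s hs
      rw [hF, mem_image] at hs
      obtain ⟨h', _, rfl⟩ := hs
      rw [mem_powerset]
      exact inter_subset_right
    · intro s hs
      rw [hF, mem_image] at hs
      obtain ⟨h', hh', rfl⟩ := hs
      exact (mem_filter.1 hh').2
    · by_contra hcon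
      push Not at hcon
      apply absurd hX
      apply prod_ne_zero_iff.2
      intro u hu
      obtain ⟨s, hs, hus, hu2⟩ := mem_pr.1 (hcov hu)
      have h3 := hcon s hs
      have : u = s := eq_of_subset_of_card_le hus (by omega)
      rw [this]
      have := hone s hs
      linarith
  have hnn : ∀ F' ∈ badCovers h, 0 ≤ ∏ s ∈ F', ((H ∩ Ni d h s).card : ℝ) :=
    fun F' _ => prod_nonneg fun s _ => Nat.cast_nonneg _
  calc (1 : ℝ) ≤ ∏ s ∈ F, ((H ∩ Ni d h s).card : ℝ) := by
        rw [← prod_const_one (s := F)]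
        exact prod_le_prod (fun _ _ => zero_le_one) hone
    _ ≤ _ := single_le_sum hnn hbad

theorem Ni_disjoint (d : ℕ) (h : Finset V) {s s' : Finset V} (hs : s ≠ s') :
    Disjoint (Ni d h s) (Ni d h s') := by
  rw [Finset.disjoint_left]
  intro a ha ha'
  rw [mem_Ni] at ha ha'
  exact hs (ha.2.symm.trans ha'.2)

theorem one_add_pow_le (m : ℕ) {y : ℝ} (h0 : 0 ≤ y) (h1 : y ≤ 1) :
    (1 + y) ^ m ≤ 1 + (2 ^ m - 1) * y := by
  induction m with
  | zero => simp
  | succ m ih =>
    have h2 : (1 : ℝ) ≤ 2 ^ m := one_le_pow₀ (by norm_num)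
    calc (1 + y) ^ (m + 1) = (1 + y) ^ m * (1 + y) := pow_succ _ _
      _ ≤ (1 + (2 ^ m - 1) * y) * (1 + y) := by gcongr
      _ ≤ 1 + (2 ^ (m + 1) - 1) * y := by
        have h3 : (2 ^ m - 1) * y * y ≤ (2 ^ m - 1) * y * 1 :=
          mul_le_mul_of_nonneg_left h1 (mul_nonneg (by linarith) h0)
        rw [pow_succ]
        nlinarith

/-- Truncated Mecke formula: the indicator of `prs h ⊆ pr H` is close to the product of
the numbers of hyperedges meeting `h` exactly in the pairs. -/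
theorem Ex_abs_sub_le (d : ℕ) (h : Finset V) {c η y : ℝ} (hc0 : 0 ≤ c) (hc1 : c ≤ 1)
    (hη0 : 0 ≤ η) (hη1 : η ≤ 1) (hy0 : 0 ≤ y) (hy1 : y ≤ 1)
    (hy : ∀ u ∈ prs h, c * (Ni d h u).card = y)
    (hs : ∀ s, s ⊆ h → 3 ≤ s.card → c * (Ni d h s).card ≤ η * y ^ (s.card.choose 2)) :
    Ex (hyp V d) (fun _ => c) (fun H => |(if prs h ⊆ pr H then (1 : ℝ) else 0)
        - ∏ u ∈ prs h, ((H ∩ Ni d h u).card : ℝ)|)
      ≤ (2 ^ (prs h).card * y + 2 ^ 2 ^ h.card * η) * y ^ (prs h).card := by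
  classical
  have hp : Prob (hyp V d) (fun _ : Finset V => c) := fun _ _ => ⟨hc0, hc1⟩
  set m := (prs h).card with hm
  set X : Finset (Finset V) → ℝ := fun H => ∏ u ∈ prs h, ((H ∩ Ni d h u).card : ℝ) with hXdef
  have hXnat : ∀ H, X H = 0 ∨ 1 ≤ X H := by
    intro H
    have : X H = ((∏ u ∈ prs h, (H ∩ Ni d h u).card : ℕ) : ℝ) := by
      simp only [hXdef]; push_cast; rfl
    rw [this]
    rcases Nat.eq_zero_or_pos (∏ u ∈ prs h, (H ∩ Ni d h u).card) with h0 | h0
    · left; rw [h0]; simp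
    · right; exact_mod_cast h0
  have hpt : ∀ H, H ⊆ hyp V d → |(if prs h ⊆ pr H then (1 : ℝ) else 0) - X H|
      ≤ (X H ^ 2 - X H) + ∑ F ∈ badCovers h, ∏ s ∈ F, ((H ∩ Ni d h s).card : ℝ) := by
    intro H hH
    have hnn : 0 ≤ ∑ F ∈ badCovers h, ∏ s ∈ F, ((H ∩ Ni d h s).card : ℝ) :=
      sum_nonneg fun F' _ => prod_nonneg fun s _ => Nat.cast_nonneg _
    rcases hXnat H with h0 | h1
    · rw [h0]
      by_cases hY : prs h ⊆ pr H
      · rw [if_pos hY]
        have := cover_bound d h H hH hY h0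
        simp only [sub_zero, abs_one]
        linarith
      · rw [if_neg hY]
        simpa using hnn
    · have hY : prs h ⊆ pr H := by
        intro u hu
        have hne : ((H ∩ Ni d h u).card : ℝ) ≠ 0 := by
          intro h2
          have : X H = 0 := by
            simp only [hXdef]
            exact prod_eq_zero hu h2
          linarith
        have : (H ∩ Ni d h u).Nonempty := by
          rw [← card_pos]
          exact Nat.pos_of_ne_zero (fun h3 => hne (by rw [h3]; simp))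
        obtain ⟨h', hh'⟩ := this
        rw [mem_inter, mem_Ni] at hh'
        rw [mem_prs] at hu
        exact mem_pr.2 ⟨h', hh'.1, by rw [← hh'.2.2]; exact inter_subset_left, hu.2⟩
      rw [if_pos hY, abs_sub_comm, abs_of_nonneg (by linarith)]
      nlinarith
  refine (Ex_mono hp hpt).trans ?_
  rw [Ex_add, Ex_sub, Ex_sum]
  have e1 : Ex (hyp V d) (fun _ => c) X = y ^ m := by
    simp only [hXdef]
    rw [Ex_prod_card (Ni d h) (prs h) (fun i _ => Ni_subset _ _ _) (fun _ _ _ _ => rfl)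
      (fun i _ j _ hij => Ni_disjoint d h hij), prod_congr rfl hy, prod_const]
  have e2 : Ex (hyp V d) (fun _ => c) (fun H => X H ^ 2) ≤ (y * (1 + y)) ^ m := by
    refine (Ex_prod_card_sq_le hp (Ni d h) (prs h) hc0 (fun i _ => Ni_subset _ _ _)
      (fun _ _ _ _ => rfl) (fun i _ j _ hij => Ni_disjoint d h hij)).trans ?_
    rw [prod_congr rfl fun u hu => by rw [hy u hu], prod_const]
  have e3 : ∀ F ∈ badCovers h, Ex (hyp V d) (fun _ => c)
      (fun H => ∏ s ∈ F, ((H ∩ Ni d h s).card : ℝ)) ≤ η * y ^ m := by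
    intro F hF
    rw [badCovers, mem_filter] at hF
    obtain ⟨hFh, hF2, hFc, s0, hs0, hs3⟩ := hF
    rw [Ex_prod_card (Ni d h) F (fun i _ => Ni_subset _ _ _) (fun _ _ _ _ => rfl)
      (fun i _ j _ hij => Ni_disjoint d h hij)]
    have hsub : ∀ s ∈ F, s ⊆ h := fun s hs => mem_powerset.1 ((mem_powerset.1 hFh) hs)
    have hle : ∀ s ∈ F, c * (Ni d h s).card ≤ y ^ (s.card.choose 2) := by
      intro s hsF
      rcases Nat.lt_or_ge s.card 3 with h3 | h3
      · have h2 : s.card = 2 := by have := hF2 s hsF; omega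
        rw [hy s (mem_prs.2 ⟨hsub s hsF, h2⟩), h2]
        simp
      · refine (hs s (hsub s hsF) h3).trans ?_
        have := pow_nonneg hy0 (s.card.choose 2)
        nlinarith
    have hy' : ∏ s ∈ F, y ^ (s.card.choose 2) ≤ y ^ m := by
      rw [prod_pow_eq_pow_sum]
      refine pow_le_pow_of_le_one hy0 hy1 ?_
      calc m ≤ (pr F).card := card_le_card hFc
        _ ≤ ∑ s ∈ F, (prs s).card := card_biUnion_le
        _ = ∑ s ∈ F, s.card.choose 2 := by
          refine sum_congr rfl fun s _ => ?_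
          rw [prs, card_powersetCard]
    have hnn : ∀ s : Finset V, 0 ≤ c * ((Ni d h s).card : ℝ) := fun s => by positivity
    calc ∏ s ∈ F, (c * ((Ni d h s).card : ℝ))
        = (c * (Ni d h s0).card) * ∏ s ∈ F.erase s0, (c * ((Ni d h s).card : ℝ)) :=
          (mul_prod_erase F _ hs0).symm
      _ ≤ (η * y ^ (s0.card.choose 2)) * ∏ s ∈ F.erase s0, y ^ (s.card.choose 2) := by
          refine mul_le_mul (hs s0 (hsub s0 hs0) hs3) ?_ (prod_nonneg fun s _ => hnn s)
            (by positivity)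
          exact prod_le_prod (fun s _ => hnn s) fun s hsF => hle s (mem_of_mem_erase hsF)
      _ = η * ∏ s ∈ F, y ^ (s.card.choose 2) := by
          rw [mul_assoc, mul_prod_erase F (fun s => y ^ (s.card.choose 2)) hs0]
      _ ≤ η * y ^ m := mul_le_mul_of_nonneg_left hy' hη0
  have e4 : ∑ F ∈ badCovers h, Ex (hyp V d) (fun _ => c)
      (fun H => ∏ s ∈ F, ((H ∩ Ni d h s).card : ℝ)) ≤ 2 ^ 2 ^ h.card * (η * y ^ m) := by
    refine (sum_le_sum e3).trans ?_
    rw [sum_const, nsmul_eq_mul]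
    refine mul_le_mul_of_nonneg_right ?_ (by positivity)
    exact_mod_cast card_badCovers h
  have e5 : (y * (1 + y)) ^ m ≤ y ^ m + y ^ m * (2 ^ m * y) := by
    rw [mul_pow]
    have h1 := one_add_pow_le m hy0 hy1
    have h2 : (1 + y) ^ m ≤ 1 + 2 ^ m * y := by nlinarith
    have h3 : 0 ≤ y ^ m := by positivity
    nlinarith
  rw [e1]
  calc _ ≤ ((y ^ m + y ^ m * (2 ^ m * y)) - y ^ m) + 2 ^ 2 ^ h.card * (η * y ^ m) := by
        gcongr
        exact e2.trans e5
    _ = _ := by ring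

end Pool.Agent.Hyp
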