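import Pool.Agent.Lib.MP_3f2ee3_pr.Basic

/-!
# MP_3f2ee3_pr: relative entropy on finite types, superadditivity for independent coordinates
-/

set_option autoImplicit false
set_option linter.unusedSectionVars false

namespace Pool.Agent.Hyp

open Finset

section kl

variable {α : Type*} [Fintype α]

/-- relative entropy (natural logarithm) -/
noncomputable def kl (P Q : α → ℝ) : ℝ := ∑ a, P a * Real.log (P a / Q a)

/-- entropy -/
noncomputable def ent (P : α → ℝ) : ℝ := ∑ a, Real.negMulLog (P a)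

/-- absolute continuity -/
def AC (P Q : α → ℝ) : Prop := ∀ a, Q a = 0 → P a = 0

theorem term_ge {x y : ℝ} (hx : 0 ≤ x) (hy : 0 ≤ y) (h : y = 0 → x = 0) :
    x - y ≤ x * Real.log (x / y) := by
  rcases hx.eq_or_lt with h0 | h0
  · rw [← h0]; simp [hy]
  · have hy0 : 0 < y := lt_of_le_of_ne hy (fun h1 => by rw [h h1.symm] at h0; exact lt_irrefl _ h0)
    have h1 := Real.one_sub_inv_le_log_of_pos (div_pos h0 hy0)
    have h2 : x * (1 - (x / y)⁻¹) = x - y := by
      field_simp
    rw [← h2]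
    exact mul_le_mul_of_nonneg_left h1 hx

theorem kl_nonneg {P Q : α → ℝ} (hP : ∀ a, 0 ≤ P a) (hQ : ∀ a, 0 ≤ Q a) (h : AC P Q)
    (hs : ∑ a, Q a ≤ ∑ a, P a) : 0 ≤ kl P Q := by
  calc (0 : ℝ) ≤ ∑ a, (P a - Q a) := by rw [sum_sub_distrib]; linarith
    _ ≤ kl P Q := sum_le_sum fun a _ => term_ge (hP a) (hQ a) (h a)

theorem term_ge_sqrt {x y : ℝ} (hx : 0 ≤ x) (hy : 0 ≤ y) (h : y = 0 → x = 0) :
    (Real.sqrt x - Real.sqrt y) ^ 2 + (x - y) ≤ x * Real.log (x / y) := by
  rcases hx.eq_or_lt with h0 | h0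
  · rw [← h0]
    simp [Real.sq_sqrt hy]
  · have hy0 : 0 < y := lt_of_le_of_ne hy (fun h1 => by rw [h h1.symm] at h0; exact lt_irrefl _ h0)
    have hsx : 0 < Real.sqrt x := Real.sqrt_pos.2 h0
    have hsy : 0 < Real.sqrt y := Real.sqrt_pos.2 hy0
    have h1 := Real.one_sub_inv_le_log_of_pos (div_pos hsx hsy)
    have h3 : Real.log (x / y) = 2 * Real.log (Real.sqrt x / Real.sqrt y) := by
      rw [Real.log_div h0.ne' hy0.ne', Real.log_div hsx.ne' hsy.ne', Real.log_sqrt hx,
        Real.log_sqrt hy]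
      ring
    have ex : Real.sqrt x ^ 2 = x := Real.sq_sqrt hx
    have ey : Real.sqrt y ^ 2 = y := Real.sq_sqrt hy
    set a := Real.sqrt x
    set b := Real.sqrt y
    rw [h3, ← ex, ← ey]
    have h2 : a ^ 2 * (2 * (1 - (a / b)⁻¹)) = (a - b) ^ 2 + (a ^ 2 - b ^ 2) := by
      field_simp
      ring
    rw [← h2]
    have : 0 ≤ a ^ 2 := by positivity
    nlinarith

/-- a weak form of Pinsker's inequality -/
theorem sq_sum_abs_le {P Q : α → ℝ} (hP : ∀ a, 0 ≤ P a) (hQ : ∀ a, 0 ≤ Q a) (h : AC P Q)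
    (hP1 : ∑ a, P a = 1) (hQ1 : ∑ a, Q a = 1) : (∑ a, |P a - Q a|) ^ 2 ≤ 4 * kl P Q := by
  have h1 : ∑ a, (Real.sqrt (P a) - Real.sqrt (Q a)) ^ 2 ≤ kl P Q := by
    have : ∑ a, ((Real.sqrt (P a) - Real.sqrt (Q a)) ^ 2 + (P a - Q a)) ≤ kl P Q :=
      sum_le_sum fun a _ => term_ge_sqrt (hP a) (hQ a) (h a)
    rw [sum_add_distrib, sum_sub_distrib, hP1, hQ1] at this
    linarith
  have h2 : ∑ a, (Real.sqrt (P a) + Real.sqrt (Q a)) ^ 2 ≤ 4 := by
    calc ∑ a, (Real.sqrt (P a) + Real.sqrt (Q a)) ^ 2 ≤ ∑ a, (2 * P a + 2 * Q a) := by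
          refine sum_le_sum fun a _ => ?_
          have e1 := Real.sq_sqrt (hP a)
          have e2 := Real.sq_sqrt (hQ a)
          nlinarith [sq_nonneg (Real.sqrt (P a) - Real.sqrt (Q a))]
      _ = 4 := by rw [sum_add_distrib, ← mul_sum, ← mul_sum, hP1, hQ1]; norm_num
  have h3 : ∀ a, |P a - Q a|
      = |Real.sqrt (P a) - Real.sqrt (Q a)| * |Real.sqrt (P a) + Real.sqrt (Q a)| := by
    intro a
    rw [← abs_mul]
    congr 1
    have e1 := Real.sq_sqrt (hP a)
    have e2 := Real.sq_sqrt (hQ a)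
    nlinarith
  have h4 := sum_mul_sq_le_sq_mul_sq univ (fun a => |Real.sqrt (P a) - Real.sqrt (Q a)|)
    (fun a => |Real.sqrt (P a) + Real.sqrt (Q a)|)
  simp only [sq_abs] at h4
  simp only [h3]
  refine h4.trans ?_
  have h5 : 0 ≤ ∑ a, (Real.sqrt (P a) - Real.sqrt (Q a)) ^ 2 := sum_nonneg fun a _ => sq_nonneg _
  calc _ ≤ (∑ a, (Real.sqrt (P a) - Real.sqrt (Q a)) ^ 2) * 4 :=
        mul_le_mul_of_nonneg_left h2 h5
    _ ≤ _ := by linarith

/-- log-sum inequality for two terms -/
theorem log_sum_ineq {a a' b b' : ℝ} (ha : 0 ≤ a) (ha' : 0 ≤ a') (hb : 0 ≤ b) (hb' : 0 ≤ b')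
    (h : b = 0 → a = 0) (h' : b' = 0 → a' = 0) :
    (a + a') * Real.log ((a + a') / (b + b'))
      ≤ a * Real.log (a / b) + a' * Real.log (a' / b') := by
  rcases (add_nonneg ha ha').eq_or_lt with h0 | h0
  · have e1 : a = 0 := by linarith
    have e2 : a' = 0 := by linarith
    simp [e1, e2]
  have hB : 0 < b + b' := by
    rcases (add_nonneg hb hb').eq_or_lt with h1 | h1
    · have e1 : b = 0 := by linarith
      have e2 : b' = 0 := by linarith
      rw [h e1, h' e2] at h0
      simp at h0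
    · exact h1
  set s := a + a' with hs
  set t := b + b' with ht
  -- a log (a/b) - a log(s/t) ≥ a - b s / t
  have key : ∀ {x y : ℝ}, 0 ≤ x → 0 ≤ y → (y = 0 → x = 0) →
      x - y * s / t + x * Real.log (s / t) ≤ x * Real.log (x / y) := by
    intro x y hx hy hxy
    rcases hx.eq_or_lt with h1 | h1
    · rw [← h1]
      have : 0 ≤ y * s / t := by positivity
      simp [this]
    · have hy0 : 0 < y :=
        lt_of_le_of_ne hy (fun h2 => by rw [hxy h2.symm] at h1; exact lt_irrefl _ h1)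
      have h2 := term_ge (x := x) (y := y * s / t) hx (by positivity)
        (fun h3 => absurd h3 (by positivity))
      have h3 : Real.log (x / (y * s / t)) = Real.log (x / y) - Real.log (s / t) := by
        rw [Real.log_div h1.ne' (by positivity), Real.log_div (by positivity) hB.ne',
          Real.log_mul hy0.ne' h0.ne', Real.log_div h1.ne' hy0.ne', Real.log_div h0.ne' hB.ne']
        ring
      rw [h3, mul_sub] at h2
      linarith
  have k1 := key ha hb h
  have k2 := key ha' hb' h'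
  have e : b * s / t + b' * s / t = s := by
    field_simp
    rw [ht]
  nlinarith

theorem kl_convex {P P' Q Q' : α → ℝ} {lam : ℝ} (h0 : 0 < lam) (h1 : lam < 1)
    (hP : ∀ a, 0 ≤ P a) (hP' : ∀ a, 0 ≤ P' a) (hQ : ∀ a, 0 ≤ Q a) (hQ' : ∀ a, 0 ≤ Q' a)
    (h : AC P Q) (h' : AC P' Q') :
    kl (fun a => lam * P a + (1 - lam) * P' a) (fun a => lam * Q a + (1 - lam) * Q' a)
      ≤ lam * kl P Q + (1 - lam) * kl P' Q' := by
  have h1' : 0 < 1 - lam := by linarith
  unfold kl
  rw [mul_sum, mul_sum, ← sum_add_distrib]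
  refine sum_le_sum fun a _ => ?_
  have := log_sum_ineq (a := lam * P a) (a' := (1 - lam) * P' a) (b := lam * Q a)
    (b' := (1 - lam) * Q' a) (mul_nonneg h0.le (hP a)) (mul_nonneg h1'.le (hP' a))
    (mul_nonneg h0.le (hQ a)) (mul_nonneg h1'.le (hQ' a))
    (fun hh => by
      have : Q a = 0 := by
        rcases mul_eq_zero.1 hh with h2 | h2
        · exact absurd h2 h0.ne'
        · exact h2
      rw [h a this, mul_zero])
    (fun hh => by
      have : Q' a = 0 := by
        rcases mul_eq_zero.1 hh with h2 | h2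
        · exact absurd h2 h1'.ne'
        · exact h2
      rw [h' a this, mul_zero])
  rw [mul_div_mul_left _ _ h0.ne', mul_div_mul_left _ _ h1'.ne'] at this
  linarith

end kl

section super

variable {Ω : Type*} [DecidableEq Ω] {α : Type*} [Fintype α]

/-- mixture of a family of functions -/
noncomputable def mix (S : Finset Ω) (p : Ω → ℝ) (Q : Finset Ω → α → ℝ) (a : α) : ℝ :=
  Ex S p (fun x => Q x a)

theorem mix_eq_zero {S : Finset Ω} {p : Ω → ℝ} (hp : ∀ t ∈ S, 0 < p t ∧ p t < 1)
    {Q : Finset Ω → α → ℝ} (hQ : ∀ x a, 0 ≤ Q x a) {a : α} (h : mix S p Q a = 0)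
    {x : Finset Ω} (hx : x ⊆ S) : Q x a = 0 := by
  unfold mix Ex at h
  have hnn : ∀ y ∈ S.powerset, 0 ≤ wt S p y * Q y a := fun y hy =>
    mul_nonneg (wt_pos hp (mem_powerset.1 hy)).le (hQ y a)
  have h1 := (sum_eq_zero_iff_of_nonneg hnn).1 h x (mem_powerset.2 hx)
  rcases mul_eq_zero.1 h1 with h2 | h2
  · exact absurd h2 (wt_pos hp hx).ne'
  · exact h2

theorem Ex_kl_eq {S : Finset Ω} {p : Ω → ℝ} (hp : ∀ t ∈ S, 0 < p t ∧ p t < 1)
    {Q : Finset Ω → α → ℝ} (hQ : ∀ x a, 0 ≤ Q x a) {Z : α → ℝ} (hZ : AC (mix S p Q) Z) :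
    Ex S p (fun x => kl (Q x) Z) = Ex S p (fun x => kl (Q x) (mix S p Q)) + kl (mix S p Q) Z := by
  have h1 : ∀ x, x ⊆ S → kl (Q x) Z
      = kl (Q x) (mix S p Q) + ∑ a, Real.log (mix S p Q a / Z a) * Q x a := by
    intro x hx
    unfold kl
    rw [← sum_add_distrib]
    refine sum_congr rfl fun a _ => ?_
    by_cases h0 : Q x a = 0
    · simp [h0]
    · have hm : mix S p Q a ≠ 0 := fun h => h0 (mix_eq_zero hp hQ h hx)
      have hz : Z a ≠ 0 := fun h => hm (hZ a h)
      rw [Real.log_div h0 hz, Real.log_div h0 hm, Real.log_div hm hz]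
      ring
  rw [Ex_congr h1, Ex_add, Ex_sum]
  congr 1
  unfold kl
  refine sum_congr rfl fun a _ => ?_
  rw [Ex_mul_left, mul_comm]
  rfl

theorem mix_insert {S : Finset Ω} {s : Ω} (hs : s ∉ S) (p : Ω → ℝ) (Q : Finset Ω → α → ℝ) :
    mix (insert s S) p Q
      = fun a => p s * mix S p (fun x => Q (insert s x)) a + (1 - p s) * mix S p Q a := by
  funext a
  exact Ex_insert hs p _

theorem mix_nonneg {S : Finset Ω} {p : Ω → ℝ} (hp : ∀ t ∈ S, 0 < p t ∧ p t < 1)
    {Q : Finset Ω → α → ℝ} (hQ : ∀ x a, 0 ≤ Q x a) (a : α) : 0 ≤ mix S p Q a :=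
  Ex_nonneg (fun t ht => ⟨(hp t ht).1.le, (hp t ht).2.le⟩) fun x _ => hQ x a

theorem sum_mix {S : Finset Ω} {p : Ω → ℝ} {Q : Finset Ω → α → ℝ}
    (hQ1 : ∀ x, ∑ a, Q x a = 1) : ∑ a, mix S p Q a = 1 := by
  unfold mix
  rw [← Ex_sum]
  simp only [hQ1]
  exact Ex_const _ _ _

/-- Superadditivity of information for independent coordinates. -/
theorem superadd (S : Finset Ω) (p : Ω → ℝ) (hp : ∀ t ∈ S, 0 < p t ∧ p t < 1)
    (Q : Finset Ω → α → ℝ) (hQ : ∀ x a, 0 ≤ Q x a) (hQ1 : ∀ x, ∑ a, Q x a = 1) :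
    ∑ t ∈ S, p t * kl (mix S p (fun x => Q (insert t x))) (mix S p Q)
      ≤ Ex S p (fun x => kl (Q x) (mix S p Q)) := by
  induction S using Finset.induction_on generalizing Q with
  | empty =>
    simp only [sum_empty, Ex_empty]
    have : mix ∅ p Q = Q ∅ := by funext a; exact Ex_empty _ _
    rw [this]
    exact kl_nonneg (hQ ∅) (hQ ∅) (fun _ h => h) le_rfl
  | insert s S hs ih =>
    have hp' : ∀ t ∈ S, 0 < p t ∧ p t < 1 := fun t ht => hp t (mem_insert_of_mem ht)
    have hps := hp s (mem_insert_self _ _)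
    have hps' : 0 < 1 - p s := by linarith [hps.2]
    set Z := mix (insert s S) p Q with hZ
    set R1 := mix S p (fun x => Q (insert s x)) with hR1
    set R0 := mix S p Q with hR0
    have hZeq : Z = fun a => p s * R1 a + (1 - p s) * R0 a := mix_insert hs p Q
    have hR1n : ∀ a, 0 ≤ R1 a := mix_nonneg hp' (fun x a => hQ _ a)
    have hR0n : ∀ a, 0 ≤ R0 a := mix_nonneg hp' hQ
    have hZn : ∀ a, 0 ≤ Z a := mix_nonneg hp hQ
    have hac1 : AC R1 Z := by
      intro a ha
      rw [hZeq] at ha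
      have h1 := mul_nonneg hps.1.le (hR1n a)
      have h2 := mul_nonneg hps'.le (hR0n a)
      have h3 : p s * R1 a = 0 := by simp only at ha; linarith
      rcases mul_eq_zero.1 h3 with h4 | h4
      · exact absurd h4 hps.1.ne'
      · exact h4
    have hac0 : AC R0 Z := by
      intro a ha
      rw [hZeq] at ha
      have h1 := mul_nonneg hps.1.le (hR1n a)
      have h2 := mul_nonneg hps'.le (hR0n a)
      have h3 : (1 - p s) * R0 a = 0 := by simp only at ha; linarith
      rcases mul_eq_zero.1 h3 with h4 | h4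
      · exact absurd h4 hps'.ne'
      · exact h4
    have c1 := Ex_kl_eq hp' (Q := fun x => Q (insert s x)) (fun x a => hQ _ a) hac1
    have c0 := Ex_kl_eq hp' (Q := Q) hQ hac0
    have i1 := ih hp' (fun x => Q (insert s x)) (fun x a => hQ _ a) (fun x => hQ1 _)
    have i0 := ih hp' Q hQ hQ1
    rw [Ex_insert hs, sum_insert hs]
    have e1 : mix (insert s S) p (fun x => Q (insert s x)) = R1 := by
      rw [mix_insert hs]
      funext a
      simp only [insert_idem]
      rw [← hR1]
      ring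
    rw [e1]
    have e2 : ∀ t ∈ S, p t * kl (mix (insert s S) p (fun x => Q (insert t x))) Z
        ≤ p s * (p t * kl (mix S p (fun x => Q (insert s (insert t x)))) R1)
          + (1 - p s) * (p t * kl (mix S p (fun x => Q (insert t x))) R0) := by
      intro t ht
      have e3 : mix (insert s S) p (fun x => Q (insert t x))
          = fun a => p s * mix S p (fun x => Q (insert s (insert t x))) a
            + (1 - p s) * mix S p (fun x => Q (insert t x)) a := by
        rw [mix_insert hs]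
        simp only [insert_comm t s]
      rw [e3, hZeq]
      have := kl_convex (P := mix S p (fun x => Q (insert s (insert t x))))
        (P' := mix S p (fun x => Q (insert t x))) (Q := R1) (Q' := R0) hps.1 hps.2
        (mix_nonneg hp' (fun x a => hQ _ a)) (mix_nonneg hp' (fun x a => hQ _ a)) hR1n hR0n
        (by
          intro a ha
          have : ∀ x, x ⊆ S → Q (insert s (insert t x)) a = 0 := fun x hx =>
            mix_eq_zero hp' (Q := fun x => Q (insert s x)) (fun x a => hQ _ a) ha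
              (insert_subset ht hx)
          exact (Ex_congr this).trans (Ex_const _ _ _))
        (by
          intro a ha
          have : ∀ x, x ⊆ S → Q (insert t x) a = 0 := fun x hx =>
            mix_eq_zero hp' hQ ha (insert_subset ht hx)
          exact (Ex_congr this).trans (Ex_const _ _ _))
      have ht0 := (hp' t ht).1.le
      calc _ ≤ p t * (p s * kl (mix S p (fun x => Q (insert s (insert t x)))) R1
            + (1 - p s) * kl (mix S p (fun x => Q (insert t x))) R0) :=
            mul_le_mul_of_nonneg_left this ht0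
        _ = _ := by ring
    have e4 := sum_le_sum e2
    rw [sum_add_distrib, ← mul_sum, ← mul_sum] at e4
    have hk0 : 0 ≤ kl R0 Z := kl_nonneg hR0n hZn hac0 (by rw [sum_mix hQ1, sum_mix hQ1])
    have m1 := mul_le_mul_of_nonneg_left i1 hps.1.le
    have m0 := mul_le_mul_of_nonneg_left i0 hps'.le
    have m2 := mul_nonneg hps'.le hk0
    rw [c1, c0]
    nlinarith

/-- The information as a difference of entropies. -/
theorem Ex_kl_mix {S : Finset Ω} {p : Ω → ℝ} (hp : ∀ t ∈ S, 0 < p t ∧ p t < 1)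
    {Q : Finset Ω → α → ℝ} (hQ : ∀ x a, 0 ≤ Q x a) :
    Ex S p (fun x => kl (Q x) (mix S p Q)) = ent (mix S p Q) - Ex S p (fun x => ent (Q x)) := by
  have h1 : ∀ x, x ⊆ S → kl (Q x) (mix S p Q)
      = (∑ a, (-Real.log (mix S p Q a)) * Q x a) - ent (Q x) := by
    intro x hx
    unfold kl ent
    rw [← sum_sub_distrib]
    refine sum_congr rfl fun a _ => ?_
    by_cases h0 : Q x a = 0
    · simp [h0, Real.negMulLog]
    · have hm : mix S p Q a ≠ 0 := fun h => h0 (mix_eq_zero hp hQ h hx)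
      rw [Real.log_div h0 hm, Real.negMulLog]
      ring
  rw [Ex_congr h1, Ex_sub, Ex_sum]
  congr 1
  unfold ent Real.negMulLog
  refine sum_congr rfl fun a _ => ?_
  rw [Ex_mul_left]
  unfold mix
  ring

end super

theorem ent_nonneg {α : Type*} [Fintype α] {P : α → ℝ} (hP : ∀ a, 0 ≤ P a)
    (hP1 : ∑ a, P a = 1) : 0 ≤ ent P := by
  refine sum_nonneg fun a _ => Real.negMulLog_nonneg (hP a) ?_
  rw [← hP1]
  exact single_le_sum (fun b _ => hP b) (mem_univ a)

/-- Entropy of a random set, by comparison with a product measure. -/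
theorem ent_le {β : Type*} [Fintype β] [DecidableEq β] (U : Finset β) (P : Finset β → ℝ)
    (hP : ∀ G, 0 ≤ P G) (hP1 : ∑ G, P G = 1) (hsupp : ∀ G, ¬ G ⊆ U → P G = 0) {q N : ℝ}
    (h0 : 0 < q) (h1 : q < 1) (hN : ∑ G, P G * G.card ≤ N) :
    ent P ≤ N * Real.log (1 / q) + U.card * Real.log (1 / (1 - q)) := by
  have h1' : 0 < 1 - q := by linarith
  set R : Finset β → ℝ := fun G => if G ⊆ U then wt U (fun _ => q) G else 0 with hR
  have hRn : ∀ G, 0 ≤ R G := by
    intro G
    simp only [hR]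
    split_ifs with h
    · exact wt_nonneg (fun _ _ => ⟨h0.le, h1.le⟩) h
    · exact le_rfl
  have hR1 : ∑ G, R G = 1 := by
    have h2 := Ex_const U (fun _ => q) 1
    unfold Ex at h2
    rw [← h2]
    simp only [mul_one]
    rw [← sum_filter]
    congr 1
    ext G
    simp
  have hac : AC P R := by
    intro G hG
    simp only [hR] at hG
    split_ifs at hG with h
    · exact absurd hG (wt_pos (fun _ _ => ⟨h0, h1⟩) h).ne'
    · exact hsupp G h
  have hkl := kl_nonneg hP hRn hac (by rw [hR1, hP1])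
  have hl0 : 0 ≤ Real.log (1 / q) := Real.log_nonneg (by rw [le_div_iff₀ h0]; linarith)
  have hl1 : 0 ≤ Real.log (1 / (1 - q)) := Real.log_nonneg (by rw [le_div_iff₀ h1']; linarith)
  have hpt : ∀ G, P G * Real.log (P G / R G)
      ≤ P G * G.card * Real.log (1 / q) + P G * (U.card * Real.log (1 / (1 - q)))
        - Real.negMulLog (P G) := by
    intro G
    by_cases hG0 : P G = 0
    · simp [hG0]
    have hGU : G ⊆ U := by
      by_contra h
      exact hG0 (hsupp G h)
    have hRG : R G = q ^ G.card * (1 - q) ^ (U \ G).card := by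
      simp only [hR, if_pos hGU, wt, prod_const]
    rw [Real.log_div hG0 (by rw [hRG]; positivity), hRG,
      Real.log_mul (by positivity) (by positivity), Real.log_pow, Real.log_pow, Real.negMulLog,
      one_div, one_div, Real.log_inv, Real.log_inv]
    rw [one_div, Real.log_inv] at hl0 hl1
    have hc : ((U \ G).card : ℝ) ≤ U.card := by
      exact_mod_cast card_le_card sdiff_subset
    have hPG := hP G
    have h5 : P G * (-(((U \ G).card : ℝ) * Real.log (1 - q)))
        ≤ P G * ((U.card : ℝ) * -Real.log (1 - q)) := by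
      refine mul_le_mul_of_nonneg_left ?_ hPG
      nlinarith
    nlinarith
  have h2 : kl P R ≤ ∑ G, (P G * G.card * Real.log (1 / q)
      + P G * (U.card * Real.log (1 / (1 - q))) - Real.negMulLog (P G)) :=
    sum_le_sum fun G _ => hpt G
  rw [sum_sub_distrib, sum_add_distrib, ← sum_mul, ← sum_mul, hP1] at h2
  have h3 := mul_le_mul_of_nonneg_right hN hl0
  unfold ent
  linarith

end Pool.Agent.Hyp
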