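import Pool.Agent.Lib.MP_3f2ee3_pr.Basic

/-!
# MP_3f2ee3_pr: projected graphs and planting operators
-/

set_option autoImplicit false
set_option linter.unusedSectionVars false

namespace Pool.Agent.Hyp

open Finset

variable {V : Type*} [DecidableEq V]

/-- The pairs of vertices of the hyperedge `h`. -/
def prs (h : Finset V) : Finset (Finset V) := h.powersetCard 2

/-- The projected graph (as a set of pairs) of a hypergraph. -/
def pr (H : Finset (Finset V)) : Finset (Finset V) := H.biUnion prs

theorem mem_prs {h u : Finset V} : u ∈ prs h ↔ u ⊆ h ∧ u.card = 2 := by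
  simp [prs]

theorem prs_mono {h h' : Finset V} (hh : h ⊆ h') : prs h ⊆ prs h' :=
  powersetCard_mono hh

theorem mem_pr {H : Finset (Finset V)} {u : Finset V} :
    u ∈ pr H ↔ ∃ h ∈ H, u ⊆ h ∧ u.card = 2 := by
  simp [pr, mem_prs]

@[simp] theorem pr_empty : pr (∅ : Finset (Finset V)) = ∅ := by simp [pr]

@[simp] theorem pr_insert (h : Finset V) (H : Finset (Finset V)) :
    pr (insert h H) = prs h ∪ pr H := by
  simp [pr, biUnion_insert]

@[simp] theorem pr_union (H H' : Finset (Finset V)) : pr (H ∪ H') = pr H ∪ pr H' := by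
  simp [pr, union_biUnion]

@[simp] theorem pr_singleton (h : Finset V) : pr {h} = prs h := by simp [pr]

theorem prs_pair {u : Finset V} (hu : u.card = 2) : prs u = {u} := by
  ext w
  rw [mem_prs, mem_singleton]
  constructor
  · rintro ⟨h1, h2⟩
    exact eq_of_subset_of_card_le h1 (by omega)
  · rintro rfl
    exact ⟨subset_rfl, hu⟩

/-- Real valued functions of graphs with values in `[0,1]`. -/
def UI {α : Type*} (g : α → ℝ) : Prop := ∀ G, 0 ≤ g G ∧ g G ≤ 1

/-- Planting a uniformly random hyperedge of the class `N`. -/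
noncomputable def av (N : Finset (Finset V)) (g : Finset (Finset V) → ℝ)
    (G : Finset (Finset V)) : ℝ :=
  (∑ h ∈ N, g (prs h ∪ G)) / N.card

theorem av_comm (N N' : Finset (Finset V)) (g : Finset (Finset V) → ℝ) :
    av N (av N' g) = av N' (av N g) := by
  funext G
  unfold av
  rw [← sum_div, ← sum_div, sum_comm, div_div, div_div, mul_comm]
  congr 1
  refine sum_congr rfl fun h _ => sum_congr rfl fun h' _ => ?_
  congr 1
  rw [← union_assoc, ← union_assoc, union_comm (prs h)]

theorem av_UI (N : Finset (Finset V)) {g : Finset (Finset V) → ℝ} (hg : UI g) : UI (av N g) := by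
  intro G
  unfold av
  constructor
  · exact div_nonneg (sum_nonneg fun h _ => (hg _).1) (Nat.cast_nonneg _)
  · refine div_le_one_of_le₀ ?_ (Nat.cast_nonneg _)
    calc ∑ h ∈ N, g (prs h ∪ G) ≤ ∑ h ∈ N, (1 : ℝ) := sum_le_sum fun h _ => (hg _).2
      _ = N.card := by simp

theorem av_union_right (N : Finset (Finset V)) (g : Finset (Finset V) → ℝ)
    (T G : Finset (Finset V)) : av N (fun G => g (G ∪ T)) G = av N g (G ∪ T) := by
  unfold av
  simp only [union_assoc]

/-- invariance of `g` under adding the pairs of `B` -/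
def Blind (B : Finset (Finset V)) (g : Finset (Finset V) → ℝ) : Prop := ∀ G, g (G ∪ B) = g G

theorem av_blind {B : Finset (Finset V)} {g : Finset (Finset V) → ℝ} (hg : Blind B g)
    (N : Finset (Finset V)) : Blind B (av N g) := by
  intro G
  unfold av
  simp only [← union_assoc, hg _]

theorem Blind.mono {B B' : Finset (Finset V)} {g : Finset (Finset V) → ℝ} (hg : Blind B g)
    (h : B' ⊆ B) : Blind B' g := by
  intro G
  rw [← hg (G ∪ B'), union_assoc, union_eq_right.2 h, hg]

theorem Blind.congr {B : Finset (Finset V)} {g : Finset (Finset V) → ℝ} (hg : Blind B g)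
    {G G' : Finset (Finset V)} (h : G ∪ B = G' ∪ B) : g G = g G' := by
  rw [← hg G, h, hg]

instance lcomm (𝒩 : Finset V → Finset (Finset V)) :
    LeftCommutative (fun (u : Finset V) (g : Finset (Finset V) → ℝ) => av (𝒩 u) g) :=
  ⟨fun u u' g => av_comm (𝒩 u) (𝒩 u') g⟩

/-- Planting operator for a multiset of pairs. -/
noncomputable def Cm (𝒩 : Finset V → Finset (Finset V)) (s : Multiset (Finset V))
    (g : Finset (Finset V) → ℝ) : Finset (Finset V) → ℝ :=
  s.foldr (fun u g => av (𝒩 u) g) g

section Cm

variable (𝒩 : Finset V → Finset (Finset V))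

@[simp] theorem Cm_zero (g : Finset (Finset V) → ℝ) : Cm 𝒩 0 g = g := rfl

@[simp] theorem Cm_cons (u : Finset V) (s : Multiset (Finset V)) (g : Finset (Finset V) → ℝ) :
    Cm 𝒩 (u ::ₘ s) g = av (𝒩 u) (Cm 𝒩 s g) := by
  rw [Cm, Multiset.foldr_cons, Cm]

@[simp] theorem Cm_singleton (u : Finset V) (g : Finset (Finset V) → ℝ) :
    Cm 𝒩 {u} g = av (𝒩 u) g := rfl

theorem Cm_add (s t : Multiset (Finset V)) (g : Finset (Finset V) → ℝ) :
    Cm 𝒩 (s + t) g = Cm 𝒩 s (Cm 𝒩 t g) := by
  rw [Cm, Multiset.foldr_add]
  rfl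

theorem Cm_UI (s : Multiset (Finset V)) {g : Finset (Finset V) → ℝ} (hg : UI g) :
    UI (Cm 𝒩 s g) := by
  induction s using Multiset.induction_on with
  | empty => exact hg
  | cons u s ih => rw [Cm_cons]; exact av_UI _ ih

theorem Cm_blind (s : Multiset (Finset V)) {B : Finset (Finset V)} {g : Finset (Finset V) → ℝ}
    (hg : Blind B g) : Blind B (Cm 𝒩 s g) := by
  induction s using Multiset.induction_on with
  | empty => exact hg
  | cons u s ih => rw [Cm_cons]; exact av_blind ih _

end Cm

variable [Fintype V]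

/-- All `d`-subsets. -/
def hyp (V : Type*) [Fintype V] (d : ℕ) : Finset (Finset V) := (univ : Finset V).powersetCard d

theorem mem_hyp {d : ℕ} {h : Finset V} : h ∈ hyp V d ↔ h.card = d := by
  simp [hyp]

theorem card_hyp (d : ℕ) : (hyp V d).card = (Fintype.card V).choose d := by
  simp [hyp, card_univ]

/-- The hyperedges of degree `d` containing `u`. -/
def Nu (d : ℕ) (u : Finset V) : Finset (Finset V) := (hyp V d).filter (fun h => u ⊆ h)

theorem mem_Nu {d : ℕ} {u h : Finset V} : h ∈ Nu d u ↔ h.card = d ∧ u ⊆ h := by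
  simp [Nu, mem_hyp]

theorem Nu_subset (d : ℕ) (u : Finset V) : Nu d u ⊆ hyp V d := filter_subset _ _

theorem card_Nu {d : ℕ} {u : Finset V} (hu : u.card ≤ d) :
    (Nu d u).card = (Fintype.card V - u.card).choose (d - u.card) := by
  rw [Nu, hyp, card_filter_powersetCard_subset u univ d (subset_univ _) hu, card_univ]

/-- The hyperedges `h'` of degree `d` with `h' ∩ h = s`. -/
def Ni (d : ℕ) (h s : Finset V) : Finset (Finset V) := (hyp V d).filter (fun h' => h' ∩ h = s)

theorem mem_Ni {d : ℕ} {h s h' : Finset V} : h' ∈ Ni d h s ↔ h'.card = d ∧ h' ∩ h = s := by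
  simp [Ni, mem_hyp]

theorem Ni_subset (d : ℕ) (h s : Finset V) : Ni d h s ⊆ hyp V d := filter_subset _ _

theorem Ni_subset_Nu {d : ℕ} {h s : Finset V} : Ni d h s ⊆ Nu d s := by
  intro h' hh
  rw [mem_Ni] at hh
  rw [mem_Nu]
  exact ⟨hh.1, by rw [← hh.2]; exact inter_subset_left⟩

theorem card_Ni {d : ℕ} {h s : Finset V} (hs : s ⊆ h) (hd : s.card ≤ d) :
    (Ni d h s).card = (Fintype.card V - h.card).choose (d - s.card) := by
  have h1 : Ni d h s = ((univ \ h).powersetCard (d - s.card)).image (· ∪ s) := by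
    ext h'
    rw [mem_Ni, mem_image]
    constructor
    · rintro ⟨h1, h2⟩
      refine ⟨h' \ h, ?_, ?_⟩
      · rw [mem_powersetCard]
        refine ⟨sdiff_subset_sdiff (subset_univ _) subset_rfl, ?_⟩
        have := card_sdiff_add_card_inter h' h
        rw [h2] at this
        omega
      · rw [← h2, sdiff_union_inter]
    · rintro ⟨y, hy, rfl⟩
      rw [mem_powersetCard] at hy
      have hd1 : Disjoint y h := by
        rw [Finset.disjoint_left]
        intro a ha hah
        exact (mem_sdiff.1 (hy.1 ha)).2 hah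
      constructor
      · rw [card_union_of_disjoint (hd1.mono_right hs), hy.2]
        omega
      · rw [union_inter_distrib_right, disjoint_iff_inter_eq_empty.1 hd1, empty_union,
          inter_eq_left.2 hs]
  have hinj : Set.InjOn (· ∪ s) ((univ \ h).powersetCard (d - s.card) : Set (Finset V)) := by
    intro a ha b hb hab
    have ha' : Disjoint a s := by
      have := (mem_powersetCard.1 ha).1
      rw [Finset.disjoint_left]
      intro x hx hxs
      exact (mem_sdiff.1 (this hx)).2 (hs hxs)
    have hb' : Disjoint b s := by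
      have := (mem_powersetCard.1 hb).1
      rw [Finset.disjoint_left]
      intro x hx hxs
      exact (mem_sdiff.1 (this hx)).2 (hs hxs)
    calc a = (a ∪ s) \ s := (union_sdiff_cancel_right ha').symm
      _ = (b ∪ s) \ s := by rw [show a ∪ s = b ∪ s from hab]
      _ = b := union_sdiff_cancel_right hb'
  rw [h1, card_image_of_injOn hinj, card_powersetCard, card_sdiff_of_subset (subset_univ _),
    card_univ]

end Pool.Agent.Hyp
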