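import Pool.Agent.Lib.MP_3f2ee3_pr.Graph

/-!
# MP_3f2ee3_pr: hidden plantings (second moment)
-/

set_option autoImplicit false
set_option linter.unusedSectionVars false

namespace Pool.Agent.Hyp

open Finset

variable {V : Type*} [DecidableEq V] [Fintype V]

/-- sum over the choices of a hyperedge over each pair of the list -/
noncomputable def SL (d : ℕ) : List (Finset V) → (Finset (Finset V) → ℝ) → ℝ
  | [], φ => φ ∅
  | (u :: l), φ => ∑ h ∈ Nu d u, SL d l (fun τ => φ (insert h τ))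

theorem SL_nil (d : ℕ) (φ : Finset (Finset V) → ℝ) : SL d [] φ = φ ∅ := rfl

theorem SL_cons (d : ℕ) (u : Finset V) (l : List (Finset V)) (φ : Finset (Finset V) → ℝ) :
    SL d (u :: l) φ = ∑ h ∈ Nu d u, SL d l (fun τ => φ (insert h τ)) := rfl

theorem SL_le (d : ℕ) (l : List (Finset V)) (φ ψ : Finset (Finset V) → ℝ)
    (h : ∀ τ, τ ⊆ hyp V d → τ.card ≤ l.length → φ τ ≤ ψ τ) : SL d l φ ≤ SL d l ψ := by
  induction l generalizing φ ψ with
  | nil => exact h ∅ (empty_subset _) (by simp)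
  | cons u l ih =>
    rw [SL_cons, SL_cons]
    refine sum_le_sum fun e he => ih _ _ fun τ hτ hc => h _ ?_ ?_
    · exact insert_subset (Nu_subset _ _ he) hτ
    · exact (card_insert_le _ _).trans (by simpa using hc)

theorem SL_congr (d : ℕ) (l : List (Finset V)) (φ ψ : Finset (Finset V) → ℝ)
    (h : ∀ τ, τ ⊆ hyp V d → τ.card ≤ l.length → φ τ = ψ τ) : SL d l φ = SL d l ψ :=
  le_antisymm (SL_le d l _ _ fun τ h1 h2 => (h τ h1 h2).le)
    (SL_le d l _ _ fun τ h1 h2 => (h τ h1 h2).ge)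

theorem SL_const (d : ℕ) (l : List (Finset V)) {M : ℝ}
    (hM : ∀ u ∈ l, ((Nu d u).card : ℝ) = M) (c : ℝ) :
    SL d l (fun _ => c) = M ^ l.length * c := by
  induction l with
  | nil => simp [SL_nil]
  | cons u l ih =>
    rw [SL_cons, ih (fun v hv => hM v (List.mem_cons_of_mem _ hv)), sum_const, nsmul_eq_mul,
      hM u List.mem_cons_self, List.length_cons, pow_succ]
    ring

theorem SL_mul_left (d : ℕ) (l : List (Finset V)) (c : ℝ) (φ : Finset (Finset V) → ℝ) :
    SL d l (fun τ => c * φ τ) = c * SL d l φ := by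
  induction l generalizing φ with
  | nil => simp [SL_nil]
  | cons u l ih =>
    simp only [SL_cons, ih]
    rw [mul_sum]

theorem SL_sum {ι : Type*} (d : ℕ) (l : List (Finset V)) (I : Finset ι)
    (φ : ι → Finset (Finset V) → ℝ) :
    SL d l (fun τ => ∑ i ∈ I, φ i τ) = ∑ i ∈ I, SL d l (φ i) := by
  induction l generalizing φ with
  | nil => simp [SL_nil]
  | cons u l ih =>
    simp only [SL_cons, ih]
    rw [sum_comm]

theorem SL_Ex (d : ℕ) (l : List (Finset V)) (S : Finset (Finset V)) (p : Finset V → ℝ)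
    (φ : Finset (Finset V) → Finset (Finset V) → ℝ) :
    Ex S p (fun H => SL d l (φ H)) = SL d l (fun τ => Ex S p (fun H => φ H τ)) := by
  unfold Ex
  rw [SL_sum]
  exact sum_congr rfl fun H _ => by rw [← SL_mul_left]

/-- comparison with the planting operators -/
theorem SL_eq_Cm (d : ℕ) (l : List (Finset V)) {M : ℝ} (hM0 : M ≠ 0)
    (hM : ∀ u ∈ l, ((Nu d u).card : ℝ) = M) (g : Finset (Finset V) → ℝ)
    (G : Finset (Finset V)) :
    SL d l (fun τ => g (pr τ ∪ G)) = M ^ l.length * Cm (Nu d) (l : Multiset (Finset V)) g G := by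
  induction l generalizing G with
  | nil => simp [SL_nil]
  | cons u l ih =>
    have h1 : ((u :: l : List (Finset V)) : Multiset (Finset V)) = u ::ₘ (l : Multiset _) := rfl
    rw [SL_cons, h1, Cm_cons, List.length_cons, pow_succ, av, hM u List.mem_cons_self]
    have h2 : ∀ h ∈ Nu d u, SL d l (fun τ => g (pr (insert h τ) ∪ G))
        = M ^ l.length * Cm (Nu d) (l : Multiset (Finset V)) g (prs h ∪ G) := by
      intro h _
      rw [← ih (fun v hv => hM v (List.mem_cons_of_mem _ hv))]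
      refine SL_congr d l _ _ fun τ _ _ => ?_
      rw [pr_insert, union_right_comm, union_comm (prs h ∪ G)]
    rw [sum_congr rfl h2, ← mul_sum]
    field_simp

theorem SL_pow_le (d : ℕ) (l : List (Finset V)) {c : ℝ} (hc0 : 0 < c) (hc1 : c ≤ 1)
    (A : Finset (Finset V)) :
    SL d l (fun τ => (c⁻¹) ^ (τ ∩ A).card)
      ≤ (l.map (fun u => ((Nu d u).card : ℝ) + ((Nu d u ∩ A).card : ℝ) / c)).prod := by
  have hc1' : 1 ≤ c⁻¹ := (one_le_inv₀ hc0).2 hc1
  have hgen : ∀ (l : List (Finset V)) (K : ℝ), 0 ≤ K →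
      SL d l (fun τ => K * (c⁻¹) ^ (τ ∩ A).card)
      ≤ K * (l.map (fun u => ((Nu d u).card : ℝ) + ((Nu d u ∩ A).card : ℝ) / c)).prod := by
    intro l
    induction l with
    | nil => intro K hK; simp [SL_nil]
    | cons u l ih =>
      intro K hK
      rw [SL_cons, List.map_cons, List.prod_cons]
      have h1 : ∀ h ∈ Nu d u, SL d l (fun τ => K * (c⁻¹) ^ (insert h τ ∩ A).card)
          ≤ (K * (if h ∈ A then c⁻¹ else 1))
            * (l.map (fun u => ((Nu d u).card : ℝ) + ((Nu d u ∩ A).card : ℝ) / c)).prod := by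
        intro h _
        refine le_trans (SL_le d l _ _ fun τ _ _ => ?_) (ih (K * (if h ∈ A then c⁻¹ else 1))
          (by split_ifs <;> positivity))
        rw [mul_assoc]
        refine mul_le_mul_of_nonneg_left ?_ hK
        split_ifs with hA
        · rw [insert_inter_of_mem hA, ← pow_succ']
          exact pow_le_pow_right₀ hc1' (card_insert_le _ _)
        · rw [insert_inter_of_notMem hA, one_mul]
      refine (sum_le_sum h1).trans ?_
      rw [← sum_mul, ← mul_sum, mul_assoc]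
      refine mul_le_mul_of_nonneg_left ?_ hK
      refine mul_le_mul_of_nonneg_right ?_ ?_
      · have h2 : ∑ h ∈ Nu d u, (if h ∈ A then c⁻¹ else (1 : ℝ))
            = ∑ h ∈ Nu d u, ((1 : ℝ) + (if h ∈ A then (c⁻¹ - 1) else 0)) :=
          sum_congr rfl fun h _ => by split_ifs <;> ring
        rw [h2, sum_add_distrib, ← sum_filter, sum_const, sum_const, nsmul_eq_mul, nsmul_eq_mul,
          mul_one]
        have h3 : (Nu d u).filter (fun h => h ∈ A) = Nu d u ∩ A := by
          ext h; simp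
        rw [h3, div_eq_mul_inv]
        have h4 : (0 : ℝ) ≤ (Nu d u ∩ A).card := Nat.cast_nonneg _
        nlinarith
      · exact List.prod_nonneg (by
          intro x hx
          rw [List.mem_map] at hx
          obtain ⟨v, _, rfl⟩ := hx
          positivity)
  have := hgen l 1 zero_le_one
  simpa using this

/-- General second moment bound. -/
theorem hidden_general {ι : Type*} (d : ℕ) (I : Finset ι) (hI : I.Nonempty)
    (l : ι → List (Finset V)) (s : ℕ) (hl : ∀ i ∈ I, (l i).length = s) {M c err : ℝ}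
    (hM0 : 0 < M) (hM : ∀ i ∈ I, ∀ u ∈ l i, ((Nu d u).card : ℝ) = M) (hc0 : 0 < c) (hc1 : c ≤ 1)
    (herr : ∀ A : Finset (Finset V), A ⊆ hyp V d → A.card ≤ s →
      ∑ i ∈ I, ((l i).map (fun u => ((Nu d u).card : ℝ) + ((Nu d u ∩ A).card : ℝ) / c)).prod
        ≤ I.card * M ^ s * (1 + err))
    (g : Finset (Finset V) → ℝ) (hg : UI g) :
    |Ex (hyp V d) (fun _ => c) (fun H => g (pr H))
      - (∑ i ∈ I, Ex (hyp V d) (fun _ => c)
          (fun H => Cm (Nu d) (l i : Multiset (Finset V)) g (pr H))) / I.card|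
      ≤ Real.sqrt err := by
  have hp : Prob (hyp V d) (fun _ : Finset V => c) := fun _ _ => ⟨hc0.le, hc1⟩
  have hIc : (0 : ℝ) < I.card := by exact_mod_cast card_pos.2 hI
  set Z : ℝ := I.card * M ^ s with hZ
  have hZ0 : 0 < Z := by positivity
  -- the averaging functional
  set Av : (Finset (Finset V) → ℝ) → ℝ := fun φ => (∑ i ∈ I, SL d (l i) φ) / Z with hAv
  have hAv_le : ∀ φ ψ : Finset (Finset V) → ℝ,
      (∀ τ, τ ⊆ hyp V d → τ.card ≤ s → φ τ ≤ ψ τ) → Av φ ≤ Av ψ := by
    intro φ ψ h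
    simp only [hAv]
    refine div_le_div_of_nonneg_right (sum_le_sum fun i hi => ?_) hZ0.le
    exact SL_le d (l i) _ _ fun τ h1 h2 => h τ h1 (by rwa [hl i hi] at h2)
  have hAv_congr : ∀ φ ψ : Finset (Finset V) → ℝ,
      (∀ τ, τ ⊆ hyp V d → τ.card ≤ s → φ τ = ψ τ) → Av φ = Av ψ := fun φ ψ h =>
    le_antisymm (hAv_le _ _ fun τ h1 h2 => (h τ h1 h2).le)
      (hAv_le _ _ fun τ h1 h2 => (h τ h1 h2).ge)
  have hAv_const : ∀ x : ℝ, Av (fun _ => x) = x := by
    intro x
    simp only [hAv]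
    have : ∀ i ∈ I, SL d (l i) (fun _ => x) = M ^ s * x := by
      intro i hi
      rw [SL_const d (l i) (hM i hi), hl i hi]
    rw [sum_congr rfl this, sum_const, nsmul_eq_mul, ← mul_assoc, ← hZ,
      mul_div_cancel_left₀ _ hZ0.ne']
  have hAv_Ex : ∀ φ : Finset (Finset V) → Finset (Finset V) → ℝ,
      Ex (hyp V d) (fun _ => c) (fun H => Av (φ H))
        = Av (fun τ => Ex (hyp V d) (fun _ => c) (fun H => φ H τ)) := by
    intro φ
    simp only [hAv]
    rw [Ex_div, Ex_sum]
    simp only [SL_Ex]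
  have hAv_mul : ∀ (x : ℝ) (φ : Finset (Finset V) → ℝ),
      Av (fun τ => x * φ τ) = x * Av φ := by
    intro x φ
    simp only [hAv, SL_mul_left, ← mul_sum, mul_div_assoc]
  -- Λ
  set Λ : Finset (Finset V) → ℝ := fun H => Av (fun τ => if τ ⊆ H then (c⁻¹) ^ τ.card else 0)
    with hΛ
  have hΛF : ∀ F : Finset (Finset V) → ℝ, Ex (hyp V d) (fun _ => c) (fun H => F H * Λ H)
      = Av (fun τ => Ex (hyp V d) (fun _ => c) (fun H => F (τ ∪ H))) := by
    intro F
    have h1 : (fun H : Finset (Finset V) => F H * Λ H)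
        = fun H => Av (fun τ => F H * (if τ ⊆ H then (c⁻¹) ^ τ.card else 0)) := by
      funext H
      rw [hAv_mul]
    rw [h1, hAv_Ex]
    refine hAv_congr _ _ fun τ hτ _ => ?_
    have h2 : (fun H : Finset (Finset V) => F H * (if τ ⊆ H then (c⁻¹) ^ τ.card else 0))
        = fun H => (c⁻¹) ^ τ.card * (if τ ⊆ H then F H else 0) := by
      funext H
      split_ifs <;> ring
    rw [h2, Ex_mul_left, Ex_subset _ τ hτ, prod_const, ← mul_assoc, ← mul_pow,
      inv_mul_cancel₀ hc0.ne', one_pow, one_mul]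
  have hΛ1 : Ex (hyp V d) (fun _ => c) Λ = 1 := by
    have := hΛF (fun _ => 1)
    simp only [one_mul, Ex_const] at this
    rw [this, hAv_const]
  have hΛ2 : Ex (hyp V d) (fun _ => c) (fun H => Λ H * Λ H) ≤ 1 + err := by
    rw [hΛF Λ, ← hAv_const (1 + err)]
    refine hAv_le _ _ fun A hA hAc => ?_
    simp only [hΛ]
    rw [hAv_Ex]
    have h3 : Av (fun τ => Ex (hyp V d) (fun _ => c)
        (fun H => if τ ⊆ A ∪ H then (c⁻¹) ^ τ.card else 0)) = Av (fun τ => (c⁻¹) ^ (τ ∩ A).card) := by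
      refine hAv_congr _ _ fun τ hτ _ => ?_
      have h4 : (fun H : Finset (Finset V) => if τ ⊆ A ∪ H then (c⁻¹) ^ τ.card else 0)
          = fun H => if τ \ A ⊆ H then (c⁻¹) ^ τ.card else 0 := by
        funext H
        congr 1
        refine propext ⟨fun h6 x hx => ?_, fun h6 x hx => ?_⟩
        · rw [mem_sdiff] at hx
          exact (mem_union.1 (h6 hx.1)).resolve_left hx.2
        · by_cases hxA : x ∈ A
          · exact mem_union_left _ hxA
          · exact mem_union_right _ (h6 (mem_sdiff.2 ⟨hx, hxA⟩))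
      rw [h4, Ex_subset _ (τ \ A) (sdiff_subset.trans hτ), Ex_const, prod_const]
      have h5 : τ.card = (τ \ A).card + (τ ∩ A).card := (card_sdiff_add_card_inter τ A).symm
      rw [h5, pow_add, ← mul_assoc, ← mul_pow, mul_inv_cancel₀ hc0.ne', one_pow, one_mul]
    rw [h3]
    simp only [hAv]
    rw [div_le_iff₀ hZ0]
    refine (sum_le_sum fun i _ => SL_pow_le d (l i) hc0 hc1 A).trans ?_
    refine (herr A hA hAc).trans (le_of_eq ?_)
    rw [hZ]; ring
  -- conclusion
  have hmain : (∑ i ∈ I, Ex (hyp V d) (fun _ => c)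
      (fun H => Cm (Nu d) (l i : Multiset (Finset V)) g (pr H))) / I.card
      = Ex (hyp V d) (fun _ => c) (fun H => g (pr H) * Λ H) := by
    rw [hΛF (fun H => g (pr H))]
    simp only [hAv]
    have h1 : ∀ i ∈ I, SL d (l i) (fun τ => Ex (hyp V d) (fun _ => c) (fun H => g (pr (τ ∪ H))))
        = M ^ s * Ex (hyp V d) (fun _ => c)
          (fun H => Cm (Nu d) (l i : Multiset (Finset V)) g (pr H)) := by
      intro i hi
      rw [← SL_Ex, ← Ex_mul_left]
      refine Ex_congr fun H _ => ?_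
      simp only [pr_union]
      rw [SL_eq_Cm d (l i) hM0.ne' (hM i hi), hl i hi]
    rw [sum_congr rfl h1, ← mul_sum, hZ]
    field_simp
  rw [hmain, ← Ex_sub]
  have h6 : (Ex (hyp V d) (fun _ => c) (fun H => g (pr H) - g (pr H) * Λ H)) ^ 2 ≤ err := by
    refine (sq_Ex_le hp _).trans ?_
    calc Ex (hyp V d) (fun _ => c) (fun H => (g (pr H) - g (pr H) * Λ H) ^ 2)
        ≤ Ex (hyp V d) (fun _ => c) (fun H => (Λ H * Λ H + (-2) * Λ H) + 1) := by
          refine Ex_mono hp fun H _ => ?_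
          have h7 := hg (pr H)
          have h8 : (g (pr H) - g (pr H) * Λ H) ^ 2 = g (pr H) ^ 2 * (1 - Λ H) ^ 2 := by ring
          rw [h8]
          have h9 : g (pr H) ^ 2 ≤ 1 := by nlinarith [h7.1, h7.2]
          nlinarith [sq_nonneg (1 - Λ H)]
      _ = Ex (hyp V d) (fun _ => c) (fun H => Λ H * Λ H) + (-2) * 1 + 1 := by
          rw [Ex_add, Ex_add, Ex_mul_left, Ex_const, hΛ1]
      _ ≤ err := by linarith
  exact Real.abs_le_sqrt h6

/-- the vertices of the hyperedges of `A` -/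
def vt (A : Finset (Finset V)) : Finset V := A.biUnion id

theorem card_vt_le {d s : ℕ} {A : Finset (Finset V)} (hA : A ⊆ hyp V d) (hs : A.card ≤ s) :
    ((vt A).card : ℝ) ≤ s * d := by
  have h1 : (vt A).card ≤ A.card * d := by
    refine card_biUnion_le_card_mul _ _ _ fun h hh => ?_
    rw [id, mem_hyp.1 (hA hh)]
  have h2 : (vt A).card ≤ s * d := h1.trans (Nat.mul_le_mul_right _ hs)
  exact_mod_cast h2

theorem card_Nu_inter_le (d : ℕ) {A : Finset (Finset V)}
    (u : Finset V) {v : V} (hv : v ∈ u) (hvA : v ∉ vt A) : ((Nu d u ∩ A).card : ℝ) = 0 := by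
  have : Nu d u ∩ A = ∅ := by
    rw [← not_nonempty_iff_eq_empty]
    rintro ⟨h, hh⟩
    rw [mem_inter, mem_Nu] at hh
    exact hvA (mem_biUnion.2 ⟨h, hh.2, hh.1.2 hv⟩)
  rw [this]; simp

theorem card_Nu_inter_le' (d : ℕ) {s : ℕ} {A : Finset (Finset V)} (hs : A.card ≤ s)
    (u : Finset V) : ((Nu d u ∩ A).card : ℝ) ≤ s := by
  exact_mod_cast (card_le_card inter_subset_right).trans hs

/-- the factor of a pair in the second moment bound -/
theorem factor_le (d : ℕ) {s : ℕ} {A : Finset (Finset V)} (hs : A.card ≤ s) {M c q : ℝ}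
    (hM0 : 0 < M) (hc0 : 0 < c) (hq : q = c * M) (u : Finset V) (hM : ((Nu d u).card : ℝ) = M) :
    ((Nu d u).card : ℝ) + ((Nu d u ∩ A).card : ℝ) / c
      ≤ M * (1 + s / q) ∧ (∀ v ∈ u, v ∉ vt A →
        ((Nu d u).card : ℝ) + ((Nu d u ∩ A).card : ℝ) / c = M) := by
  constructor
  · have h1 := card_Nu_inter_le' d hs u
    rw [hM, hq, mul_add, mul_one]
    have h2 : M * (s / (c * M)) = s / c := by field_simp
    rw [h2]
    gcongr
  · intro v hv hvA
    rw [card_Nu_inter_le d u hv hvA, hM]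
    simp

theorem sum_ind_le {W U : Finset V} {x : ℝ} (hx : 0 ≤ x) {u0 : ℝ} (hU : (U.card : ℝ) ≤ u0) :
    ∑ w ∈ W, (1 + (if w ∈ U then x else 0)) ≤ W.card + u0 * x := by
  rw [sum_add_distrib, sum_const, nsmul_eq_mul, mul_one, ← sum_filter, sum_const, nsmul_eq_mul]
  have h1 : ((W.filter (fun w => w ∈ U)).card : ℝ) ≤ u0 := by
    refine le_trans ?_ hU
    have : W.filter (fun w => w ∈ U) ⊆ U := fun w hw => (mem_filter.1 hw).2
    exact_mod_cast card_le_card this
  have := mul_le_mul_of_nonneg_right h1 hx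
  linarith

theorem close_sum_le {W W' U : Finset V} {x u0 : ℝ} (hx : 0 ≤ x) (hu : (U.card : ℝ) ≤ u0) :
    ∑ i ∈ W ×ˢ W', (1 + (if i.1 ∈ U then (1 : ℝ) else 0) * x + (if i.2 ∈ U then (1 : ℝ) else 0) * x
        + (if i.1 ∈ U then (1 : ℝ) else 0) * (if i.2 ∈ U then (1 : ℝ) else 0) * x ^ 4)
      ≤ W.card * W'.card + u0 * x * W'.card + W.card * (u0 * x) + u0 * u0 * x ^ 4 := by
  have hu0 : 0 ≤ u0 := le_trans (Nat.cast_nonneg _) hu
  have hA : ∀ W : Finset V, ∑ w ∈ W, (if w ∈ U then (1 : ℝ) else 0) ≤ u0 := by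
    intro W
    rw [← sum_filter, sum_const, nsmul_eq_mul, mul_one]
    refine le_trans ?_ hu
    have : W.filter (fun w => w ∈ U) ⊆ U := fun w hw => (mem_filter.1 hw).2
    exact_mod_cast card_le_card this
  have hA0 : ∀ W : Finset V, 0 ≤ ∑ w ∈ W, (if w ∈ U then (1 : ℝ) else 0) :=
    fun W => sum_nonneg fun w _ => by split_ifs <;> norm_num
  set a := ∑ w ∈ W, (if w ∈ U then (1 : ℝ) else 0) with ha
  set b := ∑ w ∈ W', (if w ∈ U then (1 : ℝ) else 0) with hb
  have hsum : ∑ i ∈ W ×ˢ W', (1 + (if i.1 ∈ U then (1 : ℝ) else 0) * x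
        + (if i.2 ∈ U then (1 : ℝ) else 0) * x
        + (if i.1 ∈ U then (1 : ℝ) else 0) * (if i.2 ∈ U then (1 : ℝ) else 0) * x ^ 4)
      = W.card * W'.card + a * x * W'.card + W.card * (b * x) + a * b * x ^ 4 := by
    rw [sum_product]
    have h1 : ∀ w ∈ W, ∑ w' ∈ W', (1 + (if w ∈ U then (1 : ℝ) else 0) * x
        + (if w' ∈ U then (1 : ℝ) else 0) * x
        + (if w ∈ U then (1 : ℝ) else 0) * (if w' ∈ U then (1 : ℝ) else 0) * x ^ 4)
        = W'.card + (if w ∈ U then (1 : ℝ) else 0) * (x * W'.card) + b * x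
          + (if w ∈ U then (1 : ℝ) else 0) * (b * x ^ 4) := by
      intro w _
      rw [sum_add_distrib, sum_add_distrib, sum_add_distrib, sum_const, sum_const, ← sum_mul,
        ← sum_mul, ← mul_sum, nsmul_eq_mul, nsmul_eq_mul]
      ring
    rw [sum_congr rfl h1, sum_add_distrib, sum_add_distrib, sum_add_distrib, sum_const, sum_const,
      ← sum_mul, ← sum_mul, nsmul_eq_mul, nsmul_eq_mul]
    ring
  rw [hsum]
  have k1 := hA W
  have k2 := hA W'
  have k3 := hA0 W
  have k4 := hA0 W'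
  gcongr

theorem close_factor_le {M x F1 F2 F3 : ℝ} {P Q : Prop} [Decidable P] [Decidable Q] (hM : 0 < M)
    (hx : 1 ≤ x) (g1 : 0 ≤ F1) (g2 : 0 ≤ F2) (g3 : 0 ≤ F3) (f1 : F1 ≤ M * x) (f2 : F2 ≤ M * x)
    (f3 : F3 ≤ M * x) (e1 : ¬ P → F1 = M) (e2 : ¬ P → F2 = M) (e3 : ¬ Q → F2 = M)
    (e4 : ¬ Q → F3 = M) :
    F1 * (F2 * (F2 * F3)) ≤ M ^ 4 * (1 + (if P then (1 : ℝ) else 0) * x
      + (if Q then (1 : ℝ) else 0) * x
      + (if P then (1 : ℝ) else 0) * (if Q then (1 : ℝ) else 0) * x ^ 4) := by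
  have hM4 : 0 < M ^ 4 := by positivity
  have hx4 : 0 ≤ x ^ 4 := by positivity
  by_cases hP : P
  · by_cases hQ : Q
    · rw [if_pos hP, if_pos hQ]
      have h1 : F1 * (F2 * (F2 * F3)) ≤ (M * x) * ((M * x) * ((M * x) * (M * x))) :=
        mul_le_mul f1 (mul_le_mul f2 (mul_le_mul f2 f3 g3 (by positivity)) (by positivity)
          (by positivity)) (by positivity) (by positivity)
      have h2 : (M * x) * ((M * x) * ((M * x) * (M * x))) = M ^ 4 * x ^ 4 := by ring
      nlinarith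
    · rw [if_pos hP, if_neg hQ, e3 hQ, e4 hQ]
      have h1 : F1 * (M * (M * M)) ≤ (M * x) * (M * (M * M)) :=
        mul_le_mul_of_nonneg_right f1 (by positivity)
      have h2 : (M * x) * (M * (M * M)) = M ^ 4 * x := by ring
      nlinarith
  · rw [e1 hP, e2 hP, if_neg hP]
    by_cases hQ : Q
    · rw [if_pos hQ]
      have h1 : M * (M * (M * F3)) ≤ M * (M * (M * (M * x))) :=
        mul_le_mul_of_nonneg_left (mul_le_mul_of_nonneg_left
          (mul_le_mul_of_nonneg_left f3 hM.le) hM.le) hM.le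
      have h2 : M * (M * (M * (M * x))) = M ^ 4 * x := by ring
      nlinarith
    · rw [if_neg hQ, e4 hQ]
      apply le_of_eq
      ring

section specific

variable (d : ℕ) {c q w0 : ℝ}

/-- planting one or two hyperedges over `{a, w}`, `w` random -/
theorem hidden_star (k : ℕ) (hk : k = 1 ∨ k = 2) (hd : 2 ≤ d) (hc0 : 0 < c) (hc1 : c ≤ 1)
    (hM0 : 0 < ((Fintype.card V - 2).choose (d - 2) : ℝ))
    (hq : q = c * ((Fintype.card V - 2).choose (d - 2) : ℝ)) (hq1 : q ≤ 1)
    (a : V) (W : Finset V) (haW : a ∉ W) (hw0 : 0 < w0) (hW : w0 ≤ W.card)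
    (hρ : 1 ≤ w0 * q ^ 2) (g : Finset (Finset V) → ℝ) (hg : UI g) :
    |Ex (hyp V d) (fun _ => c) (fun H => g (pr H))
      - (∑ w ∈ W, Ex (hyp V d) (fun _ => c)
          (fun H => Cm (Nu d) (Multiset.replicate k {a, w}) g (pr H))) / W.card|
      ≤ Real.sqrt (10040 * d ^ 2 * (1 / (w0 * q ^ 2))) := by
  set M : ℝ := ((Fintype.card V - 2).choose (d - 2) : ℝ) with hM
  have hq0 : 0 < q := by rw [hq]; positivity
  have hWc : 0 < (W.card : ℝ) := lt_of_lt_of_le hw0 hW
  have hWne : W.Nonempty := by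
    rw [← card_pos]; exact_mod_cast hWc
  have hpair : ∀ w ∈ W, ((Nu d {a, w}).card : ℝ) = M := by
    intro w hw
    have h2 : ({a, w} : Finset V).card = 2 := card_pair (fun h => haW (h ▸ hw))
    rw [card_Nu (by omega), h2]
  set x : ℝ := (1 + k / q) ^ k with hx
  have hd1 : (1 : ℝ) ≤ d := by exact_mod_cast (by omega : 1 ≤ d)
  have hk1 : (k : ℝ) ≤ 2 := by rcases hk with rfl | rfl <;> norm_num
  have hk0 : (0 : ℝ) ≤ k := Nat.cast_nonneg _
  have hkq : 0 ≤ (k : ℝ) / q := by positivity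
  have hx0 : 0 ≤ x := by positivity
  set err : ℝ := k * d * x / W.card with herr
  have herrle : err ≤ 10040 * d ^ 2 * (1 / (w0 * q ^ 2)) := by
    have h1 : 1 + (k : ℝ) / q ≤ 3 / q := by
      rw [le_div_iff₀ hq0, add_mul, div_mul_cancel₀ _ hq0.ne']
      linarith
    have h2 : x ≤ (3 / q) ^ 2 := by
      have h3 : 1 ≤ 3 / q := by rw [le_div_iff₀ hq0]; linarith
      rcases hk with rfl | rfl
      · rw [hx, pow_one]
        calc 1 + ((1 : ℕ) : ℝ) / q ≤ 3 / q := h1
          _ = 3 / q * 1 := by ring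
          _ ≤ 3 / q * (3 / q) := by gcongr
          _ = _ := by ring
      · rw [hx]
        exact pow_le_pow_left₀ (by positivity) h1 2
    calc err = k * d * x / W.card := rfl
      _ ≤ 2 * d * (3 / q) ^ 2 / w0 := by gcongr
      _ = 18 * d * (1 / (w0 * q ^ 2)) := by field_simp; ring
      _ ≤ 10040 * d ^ 2 * (1 / (w0 * q ^ 2)) := by
        have h4 : 0 ≤ 1 / (w0 * q ^ 2) := by positivity
        refine mul_le_mul_of_nonneg_right ?_ h4
        nlinarith
  have hmain := hidden_general (V := V) d W hWne (fun w => List.replicate k {a, w}) k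
    (fun w _ => List.length_replicate) (M := M) (c := c) (err := err) hM0
    (by
      intro w hw u hu
      rw [List.mem_replicate] at hu
      rw [hu.2]
      exact hpair w hw) hc0 hc1
    (by
      intro A hA hAc
      have h1 : ∀ w ∈ W, ((List.replicate k ({a, w} : Finset V)).map (fun u =>
          ((Nu d u).card : ℝ) + ((Nu d u ∩ A).card : ℝ) / c)).prod
          ≤ M ^ k * (1 + (if w ∈ vt A then x else 0)) := by
        intro w hw
        rw [List.map_replicate, List.prod_replicate]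
        have h2 := factor_le d hAc hM0 hc0 hq {a, w} (hpair w hw)
        by_cases hwA : w ∈ vt A
        · rw [if_pos hwA]
          calc _ ≤ (M * (1 + k / q)) ^ k := pow_le_pow_left₀ (by positivity) h2.1 k
            _ = M ^ k * x := by rw [mul_pow]
            _ ≤ _ := by
              have : 0 < M ^ k := by positivity
              nlinarith
        · rw [if_neg hwA, h2.2 w (by simp) hwA]
          simp
      refine (sum_le_sum h1).trans ?_
      rw [← mul_sum]
      have h3 := sum_ind_le (W := W) (U := vt A) hx0 (card_vt_le hA hAc)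
      calc M ^ k * ∑ w ∈ W, (1 + (if w ∈ vt A then x else 0))
          ≤ M ^ k * (W.card + k * d * x) := by gcongr
        _ = W.card * M ^ k * (1 + err) := by
          rw [herr]; field_simp)
    g hg
  refine le_trans (le_of_eq ?_) (hmain.trans (Real.sqrt_le_sqrt herrle))
  simp only [Multiset.coe_replicate]

/-- the closing piece -/
theorem hidden_close (hd : 2 ≤ d) (hc0 : 0 < c) (hc1 : c ≤ 1)
    (hM0 : 0 < ((Fintype.card V - 2).choose (d - 2) : ℝ))
    (hq : q = c * ((Fintype.card V - 2).choose (d - 2) : ℝ)) (hq1 : q ≤ 1)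
    (a b : V) (W W' : Finset V) (haW : a ∉ W) (hbW : b ∉ W') (hWW : Disjoint W W')
    (hw0 : 0 < w0) (hW : w0 ≤ W.card) (hW' : w0 ≤ W'.card)
    (hρ : 1 ≤ w0 * q ^ 2) (g : Finset (Finset V) → ℝ) (hg : UI g) :
    |Ex (hyp V d) (fun _ => c) (fun H => g (pr H))
      - (∑ i ∈ W ×ˢ W', Ex (hyp V d) (fun _ => c)
          (fun H => Cm (Nu d) {{a, i.1}, {i.1, i.2}, {i.1, i.2}, {i.2, b}} g (pr H)))
        / (W ×ˢ W').card|
      ≤ Real.sqrt (10040 * d ^ 2 * (1 / (w0 * q ^ 2))) := by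
  set M : ℝ := ((Fintype.card V - 2).choose (d - 2) : ℝ) with hM
  have hq0 : 0 < q := by rw [hq]; positivity
  have hWc : 0 < (W.card : ℝ) := lt_of_lt_of_le hw0 hW
  have hWc' : 0 < (W'.card : ℝ) := lt_of_lt_of_le hw0 hW'
  have hWne : (W ×ˢ W').Nonempty := by
    rw [nonempty_product, ← card_pos, ← card_pos]
    exact ⟨by exact_mod_cast hWc, by exact_mod_cast hWc'⟩
  have hpair : ∀ x y : V, x ≠ y → ((Nu d {x, y}).card : ℝ) = M := by
    intro x y hxy
    have h2 : ({x, y} : Finset V).card = 2 := card_pair hxy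
    rw [card_Nu (by omega), h2]
  have hne : ∀ i ∈ W ×ˢ W', a ≠ i.1 ∧ i.1 ≠ i.2 ∧ i.2 ≠ b := by
    intro i hi
    rw [mem_product] at hi
    refine ⟨fun h => haW (h ▸ hi.1), fun h => ?_, fun h => hbW (h ▸ hi.2)⟩
    exact Finset.disjoint_left.1 hWW hi.1 (h ▸ hi.2)
  have hd1 : (1 : ℝ) ≤ d := by exact_mod_cast (by omega : 1 ≤ d)
  set x : ℝ := 1 + 4 / q with hx
  have hx1 : 1 ≤ x := by
    have : 0 ≤ 4 / q := by positivity
    linarith
  set err : ℝ := 4 * d * x / W.card + 4 * d * x / W'.card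
    + (4 * d) ^ 2 * x ^ 4 / (W.card * W'.card) with herr
  have herrle : err ≤ 10040 * d ^ 2 * (1 / (w0 * q ^ 2)) := by
    have h1 : x ≤ 5 / q := by
      rw [hx, le_div_iff₀ hq0, add_mul, div_mul_cancel₀ _ hq0.ne']
      linarith
    have hρ' : 1 / (w0 * q ^ 2) ≤ 1 := by
      rw [div_le_one (by positivity)]; exact hρ
    have hρ0 : 0 ≤ 1 / (w0 * q ^ 2) := by positivity
    have e1 : 4 * d * x / W.card ≤ 20 * d * (1 / (w0 * q ^ 2)) := by
      calc 4 * d * x / W.card ≤ 4 * d * (5 / q) / w0 := by gcongr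
        _ = 20 * d * (1 / (w0 * q)) := by field_simp; ring
        _ ≤ 20 * d * (1 / (w0 * q ^ 2)) := by
          gcongr
          nlinarith
    have e2 : 4 * d * x / W'.card ≤ 20 * d * (1 / (w0 * q ^ 2)) := by
      calc 4 * d * x / W'.card ≤ 4 * d * (5 / q) / w0 := by gcongr
        _ = 20 * d * (1 / (w0 * q)) := by field_simp; ring
        _ ≤ 20 * d * (1 / (w0 * q ^ 2)) := by
          gcongr
          nlinarith
    have e3 : (4 * d) ^ 2 * x ^ 4 / (W.card * W'.card)
        ≤ 10000 * d ^ 2 * (1 / (w0 * q ^ 2)) := by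
      calc (4 * d : ℝ) ^ 2 * x ^ 4 / (W.card * W'.card)
          ≤ (4 * d) ^ 2 * (5 / q) ^ 4 / (w0 * w0) := by gcongr
        _ = 10000 * d ^ 2 * ((1 / (w0 * q ^ 2)) * (1 / (w0 * q ^ 2))) := by field_simp; ring
        _ ≤ 10000 * d ^ 2 * ((1 / (w0 * q ^ 2)) * 1) := by gcongr
        _ = _ := by ring
    have e4 : (d : ℝ) ≤ d ^ 2 := by nlinarith
    nlinarith
  have hmain := hidden_general (V := V) d (W ×ˢ W') hWne
    (fun i => [{a, i.1}, {i.1, i.2}, {i.1, i.2}, {i.2, b}]) 4
    (fun i _ => rfl) (M := M) (c := c) (err := err) hM0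
    (by
      intro i hi u hu
      obtain ⟨h1, h2, h3⟩ := hne i hi
      simp only [List.mem_cons, List.not_mem_nil, or_false] at hu
      rcases hu with rfl | rfl | rfl | rfl
      · exact hpair _ _ h1
      · exact hpair _ _ h2
      · exact hpair _ _ h2
      · exact hpair _ _ h3) hc0 hc1
    (by
      intro A hA hAc
      set U := vt A with hU
      have h1 : ∀ i ∈ W ×ˢ W', (([{a, i.1}, {i.1, i.2}, {i.1, i.2}, {i.2, b}] :
            List (Finset V)).map (fun u =>
          ((Nu d u).card : ℝ) + ((Nu d u ∩ A).card : ℝ) / c)).prod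
          ≤ M ^ 4 * (1 + (if i.1 ∈ U then (1 : ℝ) else 0) * x
            + (if i.2 ∈ U then (1 : ℝ) else 0) * x
            + (if i.1 ∈ U then (1 : ℝ) else 0) * (if i.2 ∈ U then (1 : ℝ) else 0) * x ^ 4) := by
        intro i hi
        obtain ⟨n1, n2, n3⟩ := hne i hi
        have f1 := factor_le d hAc hM0 hc0 hq {a, i.1} (hpair _ _ n1)
        have f2 := factor_le d hAc hM0 hc0 hq {i.1, i.2} (hpair _ _ n2)
        have f3 := factor_le d hAc hM0 hc0 hq {i.2, b} (hpair _ _ n3)
        have h4 : ((4 : ℕ) : ℝ) = 4 := by norm_num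
        rw [h4, ← hx] at f1 f2 f3
        simp only [List.map_cons, List.map_nil, List.prod_cons, List.prod_nil, mul_one]
        exact close_factor_le hM0 hx1 (by positivity) (by positivity) (by positivity)
          f1.1 f2.1 f3.1 (fun h => f1.2 i.1 (by simp) h) (fun h => f2.2 i.1 (by simp) h)
          (fun h => f2.2 i.2 (by simp) h) (fun h => f3.2 i.2 (by simp) h)
      refine (sum_le_sum h1).trans ?_
      rw [← mul_sum]
      have hUc : (U.card : ℝ) ≤ 4 * d := by
        have := card_vt_le hA hAc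
        exact_mod_cast this
      have hsum := close_sum_le (W := W) (W' := W') (by linarith : 0 ≤ x) hUc
      rw [card_product]
      push_cast
      calc _ ≤ M ^ 4 * (W.card * W'.card + (4 * d) * x * W'.card
            + W.card * ((4 * d) * x) + (4 * d) * (4 * d) * x ^ 4) :=
            mul_le_mul_of_nonneg_left hsum (by positivity)
        _ = W.card * W'.card * M ^ 4 * (1 + err) := by
          rw [herr]; field_simp; ring)
    g hg
  exact hmain.trans (Real.sqrt_le_sqrt herrle)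

end specific

end Pool.Agent.Hyp
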