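import Pool.Agent.Lib.MP_3f2ee3_pr.Entropy
import Pool.Agent.Lib.MP_3f2ee3_pr.Cover

/-!
# MP_3f2ee3_pr: the entropy budget of the layers
-/

set_option autoImplicit false
set_option linter.unusedSectionVars false

namespace Pool.Agent.Hyp

open Finset

variable {V : Type*} [DecidableEq V] [Fintype V]

/-- the law of `S ∪ pr H`, `H` of density `c` -/
noncomputable def law (d : ℕ) (c : ℝ) (S G : Finset (Finset V)) : ℝ :=
  Ex (hyp V d) (fun _ => c) (fun H => if S ∪ pr H = G then 1 else 0)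

theorem law_sum (d : ℕ) (c : ℝ) (S : Finset (Finset V)) (f : Finset (Finset V) → ℝ) :
    ∑ G, law d c S G * f G = Ex (hyp V d) (fun _ => c) (fun H => f (S ∪ pr H)) := by
  have h1 : ∀ G, law d c S G * f G
      = Ex (hyp V d) (fun _ => c) (fun H => if S ∪ pr H = G then f G else 0) := by
    intro G
    rw [law, ← Ex_mul_right]
    exact Ex_congr fun H _ => by split_ifs <;> simp
  simp only [h1]
  rw [← Ex_sum]
  exact Ex_congr fun H _ => by simp

theorem sum_law (d : ℕ) (c : ℝ) (S : Finset (Finset V)) : ∑ G, law d c S G = 1 := by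
  have := law_sum d c S (fun _ => 1)
  simpa [Ex_const] using this

theorem law_nonneg (d : ℕ) {c : ℝ} (h0 : 0 ≤ c) (h1 : c ≤ 1) (S G : Finset (Finset V)) :
    0 ≤ law d c S G :=
  Ex_nonneg (fun _ _ => ⟨h0, h1⟩) fun H _ => by split_ifs <;> norm_num

theorem mix_law (d : ℕ) (c0 c' : ℝ) (S : Finset (Finset V)) :
    mix (hyp V d) (fun _ => c0) (fun x => law d c' (S ∪ pr x))
      = law d (c0 + c' - c0 * c') S := by
  funext G
  unfold mix law
  rw [← Ex_superpose (hyp V d) (fun _ => c0) (fun _ => c')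
    (fun H => if S ∪ pr H = G then (1 : ℝ) else 0)]
  simp only [pr_union, union_assoc]

theorem ent_step (d : ℕ) {c0 c' : ℝ} (h0 : 0 < c0) (h1 : c0 < 1) (h0' : 0 ≤ c') (h1' : c' ≤ 1)
    (S : Finset (Finset V)) :
    Ex (hyp V d) (fun _ => c0) (fun A => ent (law d c' (S ∪ pr A)))
      + ∑ h ∈ hyp V d, c0 * kl (law d (c0 + c' - c0 * c') (prs h ∪ S))
          (law d (c0 + c' - c0 * c') S)
      ≤ ent (law d (c0 + c' - c0 * c') S) := by
  have hp : ∀ t ∈ hyp V d, 0 < (fun _ : Finset V => c0) t ∧ (fun _ : Finset V => c0) t < 1 :=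
    fun _ _ => ⟨h0, h1⟩
  have hQ : ∀ (x G : Finset (Finset V)), 0 ≤ law d c' (S ∪ pr x) G :=
    fun x G => law_nonneg d h0' h1' _ _
  have h2 := superadd (hyp V d) (fun _ => c0) hp (fun x => law d c' (S ∪ pr x)) hQ
    (fun x => sum_law d c' _)
  rw [Ex_kl_mix hp hQ, mix_law] at h2
  have h3 : ∀ h : Finset V, mix (hyp V d) (fun _ => c0) (fun x => law d c' (S ∪ pr (insert h x)))
      = law d (c0 + c' - c0 * c') (prs h ∪ S) := by
    intro h
    rw [← mix_law]
    congr 1
    funext x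
    rw [pr_insert, union_comm (prs h) S, union_assoc]
  simp only [h3] at h2
  linarith

/-- density of `r` layers -/
noncomputable def pc (c0 : ℝ) (r : ℕ) : ℝ := 1 - (1 - c0) ^ r

theorem pc_zero (c0 : ℝ) : pc c0 0 = 0 := by simp [pc]

theorem pc_one (c0 : ℝ) : pc c0 1 = c0 := by simp [pc]

theorem pc_add (c0 : ℝ) (r s : ℕ) : pc c0 r + pc c0 s - pc c0 r * pc c0 s = pc c0 (r + s) := by
  unfold pc
  rw [pow_add]
  ring

theorem pc_nonneg {c0 : ℝ} (h0 : 0 ≤ c0) (h1 : c0 ≤ 1) (r : ℕ) : 0 ≤ pc c0 r := by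
  unfold pc
  have : (1 - c0) ^ r ≤ 1 := pow_le_one₀ (by linarith) (by linarith)
  linarith

theorem pc_le_one {c0 : ℝ} (h1 : c0 ≤ 1) (r : ℕ) : pc c0 r ≤ 1 := by
  unfold pc
  have : 0 ≤ (1 - c0) ^ r := pow_nonneg (by linarith) _
  linarith

theorem pc_le {c0 : ℝ} (h1 : c0 ≤ 1) (r : ℕ) : pc c0 r ≤ r * c0 := by
  unfold pc
  have := one_add_mul_le_pow (a := -c0) (by linarith) r
  rw [← sub_eq_add_neg] at this
  linarith

theorem pc_mono {c0 : ℝ} (h0 : 0 ≤ c0) (h1 : c0 ≤ 1) {r s : ℕ} (h : r ≤ s) :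
    pc c0 r ≤ pc c0 s := by
  unfold pc
  have := pow_le_pow_of_le_one (a := 1 - c0) (by linarith) (by linarith) h
  linarith

theorem Ex_pc (d : ℕ) (c0 : ℝ) (r s : ℕ) (f : Finset (Finset V) → ℝ) :
    Ex (hyp V d) (fun _ => pc c0 r) (fun A => Ex (hyp V d) (fun _ => pc c0 s)
      (fun B => f (A ∪ B))) = Ex (hyp V d) (fun _ => pc c0 (r + s)) f := by
  rw [Ex_superpose, pc_add]

theorem layers_budget (d : ℕ) {c0 : ℝ} (h0 : 0 < c0) (h1 : c0 < 1) (K : ℕ) :
    ∑ i ∈ range K, ∑ h ∈ hyp V d, c0 * Ex (hyp V d) (fun _ => pc c0 i)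
        (fun A => kl (law d (pc c0 (K - i)) (prs h ∪ pr A)) (law d (pc c0 (K - i)) (pr A)))
      ≤ ent (law d (pc c0 K) (∅ : Finset (Finset V))) := by
  have hpcn : ∀ r, 0 ≤ pc c0 r := pc_nonneg h0.le h1.le
  have hpc1 : ∀ r, pc c0 r ≤ 1 := pc_le_one h1.le
  have key : ∀ j, j ≤ K → Ex (hyp V d) (fun _ => pc c0 j)
        (fun A => ent (law d (pc c0 (K - j)) (pr A)))
      + ∑ i ∈ range j, ∑ h ∈ hyp V d, c0 * Ex (hyp V d) (fun _ => pc c0 i)
        (fun A => kl (law d (pc c0 (K - i)) (prs h ∪ pr A)) (law d (pc c0 (K - i)) (pr A)))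
      ≤ ent (law d (pc c0 K) (∅ : Finset (Finset V))) := by
    intro j
    induction j with
    | zero =>
      intro _
      rw [pc_zero, Ex_zero]
      simp
    | succ j ih =>
      intro hj
      refine le_trans ?_ (ih (by omega))
      rw [sum_range_succ, ← add_assoc, add_right_comm]
      refine add_le_add_left ?_ _
      have h2 : ∀ A : Finset (Finset V), Ex (hyp V d) (fun _ => c0)
          (fun B => ent (law d (pc c0 (K - (j + 1))) (pr A ∪ pr B)))
          + ∑ h ∈ hyp V d, c0 * kl (law d (pc c0 (K - j)) (prs h ∪ pr A))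
            (law d (pc c0 (K - j)) (pr A))
          ≤ ent (law d (pc c0 (K - j)) (pr A)) := by
        intro A
        have h3 := ent_step d h0 h1 (hpcn (K - (j + 1))) (hpc1 (K - (j + 1))) (pr A)
        have h4 : c0 + pc c0 (K - (j + 1)) - c0 * pc c0 (K - (j + 1)) = pc c0 (K - j) := by
          have := pc_add c0 1 (K - (j + 1))
          rw [pc_one] at this
          rw [this]
          congr 1
          omega
        rw [h4] at h3
        exact h3
      have h5 := Ex_mono (S := hyp V d) (p := fun _ => pc c0 j) (fun _ _ => ⟨hpcn j, hpc1 j⟩)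
        (fun A _ => h2 A)
      rw [Ex_add, Ex_sum] at h5
      have h6 : Ex (hyp V d) (fun _ => pc c0 j) (fun A => Ex (hyp V d) (fun _ => c0)
          (fun B => ent (law d (pc c0 (K - (j + 1))) (pr A ∪ pr B))))
          = Ex (hyp V d) (fun _ => pc c0 (j + 1))
            (fun A => ent (law d (pc c0 (K - (j + 1))) (pr A))) := by
        have := Ex_pc d c0 j 1 (fun A : Finset (Finset V) =>
          ent (law d (pc c0 (K - (j + 1))) (pr A)))
        rw [pc_one] at this
        rw [← this]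
        simp only [pr_union]
      rw [h6] at h5
      simp only [Ex_mul_left] at h5
      exact h5
  have hK := key K le_rfl
  have hent : 0 ≤ Ex (hyp V d) (fun _ => pc c0 K)
      (fun A : Finset (Finset V) => ent (law d (pc c0 (K - K)) (pr A))) :=
    Ex_nonneg (fun _ _ => ⟨hpcn K, hpc1 K⟩) fun A _ =>
      ent_nonneg (fun G => law_nonneg d (hpcn _) (hpc1 _) _ _) (sum_law _ _ _)
  linarith

/-- the distance between the planted law and the conditioned law -/
noncomputable def dst (d : ℕ) (c κ : ℝ) (h : Finset V) (S : Finset (Finset V)) : ℝ :=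
  ∑ G, |law d c (prs h ∪ S) G - (if prs h ⊆ G then law d c S G / κ else 0)|

theorem mul_law_le (d : ℕ) {c : ℝ} (h0 : 0 ≤ c) (h1 : c ≤ 1) {h : Finset V} (hh : h ∈ hyp V d)
    (S G : Finset (Finset V)) : c * law d c (prs h ∪ S) G ≤ law d c S G := by
  have h2 := Ex_mem hh (fun _ : Finset V => c) (fun H => if S ∪ pr H = G then (1 : ℝ) else 0)
  have h3 : (fun H : Finset (Finset V) => if S ∪ pr (insert h H) = G then (1 : ℝ) else 0)
      = fun H => if (prs h ∪ S) ∪ pr H = G then 1 else 0 := by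
    funext H
    rw [pr_insert, union_comm (prs h) S, union_assoc]
  rw [h3] at h2
  unfold law
  rw [← h2]
  refine Ex_mono (fun _ _ => ⟨h0, h1⟩) fun H _ => ?_
  split_ifs <;> norm_num

theorem kl_law_nonneg (d : ℕ) {c : ℝ} (h0 : 0 < c) (h1 : c ≤ 1) {h : Finset V}
    (hh : h ∈ hyp V d) (S : Finset (Finset V)) :
    0 ≤ kl (law d c (prs h ∪ S)) (law d c S) := by
  refine kl_nonneg (fun G => law_nonneg d h0.le h1 _ _) (fun G => law_nonneg d h0.le h1 _ _) ?_
    (by rw [sum_law, sum_law])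
  intro G hG
  have h2 := mul_law_le d h0.le h1 hh S G
  rw [hG] at h2
  have h3 := law_nonneg d h0.le h1 (prs h ∪ S) G
  nlinarith

theorem kl_law_ge (d : ℕ) {c κ : ℝ} (h0 : 0 < c) (h1 : c ≤ 1) {h : Finset V}
    (hh : h ∈ hyp V d) (S : Finset (Finset V)) (hdisj : Disjoint S (prs h))
    (hκ : κ = Ex (hyp V d) (fun _ => c) (fun H => if prs h ⊆ pr H then 1 else 0))
    (hκ0 : 0 < κ) :
    Real.log (1 / κ) + (dst d c κ h S) ^ 2 / 4 ≤ kl (law d c (prs h ∪ S)) (law d c S) := by
  set P1 := law d c (prs h ∪ S) with hP1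
  set P0 : Finset (Finset V) → ℝ := fun G => if prs h ⊆ G then law d c S G / κ else 0 with hP0
  have hP1n : ∀ G, 0 ≤ P1 G := fun G => law_nonneg d h0.le h1 _ _
  have hLn : ∀ G, 0 ≤ law d c S G := fun G => law_nonneg d h0.le h1 _ _
  have hP0n : ∀ G, 0 ≤ P0 G := by
    intro G
    simp only [hP0]
    split_ifs
    · exact div_nonneg (hLn G) hκ0.le
    · exact le_rfl
  have hsupp : ∀ G, ¬ prs h ⊆ G → P1 G = 0 := by
    intro G hG
    rw [hP1, law]
    refine (Ex_congr (g := fun _ => 0) fun H _ => ?_).trans (Ex_const _ _ _)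
    rw [if_neg]
    rintro rfl
    exact hG (subset_union_left.trans subset_union_left)
  have hac : AC P1 P0 := by
    intro G hG
    by_cases hG' : prs h ⊆ G
    · simp only [hP0, if_pos hG'] at hG
      have h2 : law d c S G = 0 := by
        rcases div_eq_zero_iff.1 hG with h3 | h3
        · exact h3
        · exact absurd h3 hκ0.ne'
      have h3 := mul_law_le d h0.le h1 hh S G
      rw [h2] at h3
      have h4 := hP1n G
      rw [hP1] at h4 ⊢
      nlinarith
    · exact hsupp G hG'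
  have hsub : ∀ H : Finset (Finset V), prs h ⊆ S ∪ pr H ↔ prs h ⊆ pr H := by
    intro H
    constructor
    · intro h2 u hu
      rcases mem_union.1 (h2 hu) with h3 | h3
      · exact absurd hu (Finset.disjoint_left.1 hdisj h3)
      · exact h3
    · intro h2
      exact h2.trans subset_union_right
  have hP01 : ∑ G, P0 G = 1 := by
    have h2 : ∀ G, P0 G = law d c S G * (if prs h ⊆ G then 1 / κ else 0) := by
      intro G
      simp only [hP0]
      split_ifs
      · ring
      · ring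
    simp only [h2]
    rw [law_sum]
    simp only [hsub]
    have h3 : (fun H : Finset (Finset V) => if prs h ⊆ pr H then 1 / κ else 0)
        = fun H => (if prs h ⊆ pr H then (1 : ℝ) else 0) / κ := by
      funext H
      split_ifs <;> simp
    rw [h3, Ex_div, ← hκ, div_self hκ0.ne']
  have hpin := sq_sum_abs_le hP1n hP0n hac (sum_law _ _ _) hP01
  have hkl : kl P1 (law d c S) = kl P1 P0 + Real.log (1 / κ) := by
    have h2 : ∀ G, P1 G * Real.log (P1 G / law d c S G)
        = P1 G * Real.log (P1 G / P0 G) + P1 G * Real.log (1 / κ) := by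
      intro G
      by_cases hz : P1 G = 0
      · simp [hz]
      · have hG' : prs h ⊆ G := by
          by_contra hcon
          exact hz (hsupp G hcon)
        have h3 : P0 G ≠ 0 := fun h4 => hz (hac G h4)
        have h5 : P0 G = law d c S G / κ := by simp only [hP0, if_pos hG']
        have h6 : law d c S G ≠ 0 := by
          intro h7
          rw [h5, h7, zero_div] at h3
          exact h3 rfl
        rw [h5, ← mul_add, ← Real.log_mul (by
          have : 0 < P1 G := lt_of_le_of_ne (hP1n G) (Ne.symm hz)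
          have : 0 < law d c S G := lt_of_le_of_ne (hLn G) (Ne.symm h6)
          positivity) (by positivity)]
        congr 2
        field_simp
    unfold kl
    rw [sum_congr rfl fun G _ => h2 G, sum_add_distrib, ← sum_mul, hP1, sum_law, one_mul]
  have hd : dst d c κ h S = ∑ G, |P1 G - P0 G| := rfl
  rw [hkl, hd]
  linarith

/-- the probability that a pair is covered -/
theorem prob_pair_le (d : ℕ) {c : ℝ} (h0 : 0 ≤ c) (h1 : c ≤ 1) (u : Finset V) :
    Ex (hyp V d) (fun _ => c) (fun H => if u ∈ pr H then 1 else 0) ≤ c * (Nu d u).card := by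
  have hp : Prob (hyp V d) (fun _ : Finset V => c) := fun _ _ => ⟨h0, h1⟩
  have h2 : ∀ H, H ⊆ hyp V d → (if u ∈ pr H then (1 : ℝ) else 0)
      ≤ ((H ∩ Nu d u).card : ℝ) * 1 := by
    intro H hH
    split_ifs with hu
    · obtain ⟨h, hh, huh, _⟩ := mem_pr.1 hu
      have : 0 < (H ∩ Nu d u).card := by
        refine card_pos.2 ⟨h, mem_inter.2 ⟨hh, mem_Nu.2 ⟨mem_hyp.1 (hH hh), huh⟩⟩⟩
      have h3 : (1 : ℝ) ≤ (H ∩ Nu d u).card := by exact_mod_cast this
      linarith
    · positivity
  refine (Ex_mono hp h2).trans ?_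
  rw [Ex_card_mul (Nu d u) (Nu_subset d u) (fun _ => (1 : ℝ))]
  simp only [Ex_const, sum_const, nsmul_eq_mul]
  apply le_of_eq
  ring

end Pool.Agent.Hyp
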