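import Pool.Agent.Lib.MP_3f2ee3_pr.Path
import Pool.Agent.Lib.MP_3f2ee3_pr.Layers

/-!
# MP_3f2ee3_pr: planting a hyperedge over a planted pair is not detectable
-/

set_option autoImplicit false
set_option linter.unusedSectionVars false

namespace Pool.Agent.Hyp

open Finset

variable {V : Type*} [DecidableEq V] [Fintype V]

theorem Cm_sum {ι : Type*} (𝒩 : Finset V → Finset (Finset V)) (s : Multiset (Finset V))
    (I : Finset ι) (f : ι → Finset (Finset V) → ℝ) (G : Finset (Finset V)) :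
    Cm 𝒩 s (fun G => ∑ i ∈ I, f i G) G = ∑ i ∈ I, Cm 𝒩 s (f i) G := by
  induction s using Multiset.induction_on generalizing G with
  | empty => rfl
  | cons u s ih =>
    rw [Cm_cons]
    unfold av
    simp only [Cm_cons, ih]
    rw [sum_comm, sum_div]
    rfl

theorem mu_mono {d : ℕ} {c : ℝ} (hc0 : 0 ≤ c) (hc1 : c ≤ 1) {f g : Finset (Finset V) → ℝ}
    (h : ∀ G, f G ≤ g G) : mu d c f ≤ mu d c g :=
  Ex_mono (fun _ _ => ⟨hc0, hc1⟩) fun _ _ => h _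

theorem mu_abs_sub_le {d : ℕ} {c : ℝ} (hc0 : 0 ≤ c) (hc1 : c ≤ 1)
    {f g k : Finset (Finset V) → ℝ} (h : ∀ G, |f G - g G| ≤ k G) :
    |mu d c f - mu d c g| ≤ mu d c k := by
  unfold mu
  rw [← Ex_sub]
  exact (abs_Ex_le (fun _ _ => ⟨hc0, hc1⟩) _).trans
    (Ex_mono (fun _ _ => ⟨hc0, hc1⟩) fun _ _ => h _)

/-- cost of making a function blind -/
theorem blind_cost (d : ℕ) {c q θ : ℝ} (hc0 : 0 ≤ c) (hc1 : c ≤ 1) (hθ : 0 ≤ θ)
    (hq : ∀ u : Finset V, u.card = 2 → c * (Nu d u).card ≤ q)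
    (hθ' : ∀ u v : Finset V, u.card = 2 → v.card = 2 → u ≠ v →
      ((Nu d u ∩ Nu d v).card : ℝ) ≤ θ * (Nu d u).card)
    {B P : Finset (Finset V)} {e : Finset V} (hB2 : ∀ v ∈ B, v.card = 2)
    (hP2 : ∀ v ∈ P, v.card = 2) (he2 : e.card = 2)
    {g : Finset (Finset V) → ℝ} (hg : UI g) (hge : Blind {e} g)
    (s : Multiset (Finset V)) (hs1 : ∀ p ∈ P, p ∈ s) (hs2 : ∀ u ∈ s, u ∈ insert e P)
    {b0 k : ℝ} (hb0 : (B.card : ℝ) ≤ b0) (hk : (s.card : ℝ) ≤ k) (hq0 : 0 ≤ q) :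
    |mu d c (Cm (Nu d) s g) - mu d c (Cm (Nu d) s (bl B P g))| ≤ b0 * (q + k * θ) := by
  set R := B \ (insert e P) with hR
  have h1 : ∀ G, |g G - bl B P g G| ≤ (∑ v ∈ R, if v ∈ G then (1 : ℝ) else 0)
      + ∑ p ∈ P, if p ∈ G then (0 : ℝ) else 1 := by
    intro G
    refine (bl_close hg hge G).trans ?_
    unfold bad
    refine add_le_add le_rfl ?_
    split_ifs with hP
    · exact sum_nonneg fun p _ => by split_ifs <;> norm_num
    · rw [Finset.not_subset] at hP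
      obtain ⟨p, hp, hpG⟩ := hP
      have := single_le_sum (f := fun p => if p ∈ G then (0 : ℝ) else 1)
        (fun p _ => by positivity) hp
      simpa [hpG] using this
  have h2 := mu_abs_sub_le (d := d) hc0 hc1 (Cm_abs_sub_le (Nu d) s h1)
  refine h2.trans ?_
  rw [Cm_add_fun]
  have h3 : ∀ G, Cm (Nu d) s (fun G => ∑ v ∈ R, if v ∈ G then (1 : ℝ) else 0) G
      + Cm (Nu d) s (fun G => ∑ p ∈ P, if p ∈ G then (0 : ℝ) else 1) G
      ≤ ∑ v ∈ R, ((if v ∈ G then (1 : ℝ) else 0) + k * θ) := by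
    intro G
    rw [Cm_sum, Cm_sum]
    have h4 : ∑ p ∈ P, Cm (Nu d) s (fun G => if p ∈ G then (0 : ℝ) else 1) G = 0 :=
      sum_eq_zero fun p hp => Cm_notMem_eq_zero d s (hs1 p hp) (hP2 p hp) G
    rw [h4, add_zero]
    refine sum_le_sum fun v hv => ?_
    rw [hR, mem_sdiff] at hv
    have h5 := Cm_mem_le d hθ v s (by
      intro u hu
      have hu' := hs2 u hu
      have hu2 : u.card = 2 := by
        rcases mem_insert.1 hu' with h | h
        · rw [h]; exact he2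
        · exact hP2 u h
      exact hθ' u v hu2 (hB2 v hv.1) (fun h => hv.2 (h ▸ hu'))) G
    refine h5.trans ?_
    have := mul_le_mul_of_nonneg_right hk hθ
    linarith
  refine (mu_mono (d := d) hc0 hc1 h3).trans ?_
  unfold mu
  rw [Ex_sum]
  have h6 : ∀ v ∈ R, Ex (hyp V d) (fun _ => c)
      (fun H => (if v ∈ pr H then (1 : ℝ) else 0) + k * θ) ≤ q + k * θ := by
    intro v hv
    rw [hR, mem_sdiff] at hv
    rw [Ex_add, Ex_const]
    have := (prob_pair_le d hc0 hc1 v).trans (hq v (hB2 v hv.1))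
    linarith
  refine (sum_le_sum h6).trans ?_
  rw [sum_const, nsmul_eq_mul]
  have h7 : (R.card : ℝ) ≤ b0 := by
    refine le_trans ?_ hb0
    exact_mod_cast card_le_card sdiff_subset
  have h8 : 0 ≤ k * θ := mul_nonneg (le_trans (Nat.cast_nonneg _) hk) hθ
  exact mul_le_mul_of_nonneg_right h7 (by linarith)

/-- the comparison along a fixed path -/
theorem fixed_path {d : ℕ} {c q θ ε b0 : ℝ} (hc0 : 0 ≤ c) (hc1 : c ≤ 1) (hθ : 0 ≤ θ)
    (hq0 : 0 ≤ q)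
    (hq : ∀ u : Finset V, u.card = 2 → c * (Nu d u).card ≤ q)
    (hθ' : ∀ u v : Finset V, u.card = 2 → v.card = 2 → u ≠ v →
      ((Nu d u ∩ Nu d v).card : ℝ) ≤ θ * (Nu d u).card)
    (hCL : CliqueRel V d c ε) {A : Finset V} (hA : A.card + 2 = d)
    {x0 x1 x2 x3 x4 x5 : V}
    (h0 : x0 ∉ A) (h1 : x1 ∉ A) (h2 : x2 ∉ A) (h3 : x3 ∉ A) (h4 : x4 ∉ A) (h5 : x5 ∉ A)
    (h01 : x0 ≠ x1) (h12 : x1 ≠ x2) (h23 : x2 ≠ x3) (h34 : x3 ≠ x4) (h45 : x4 ≠ x5)
    (h03 : x0 ≠ x3) (h05 : x0 ≠ x5) (hb0 : (((d + 4).choose 2 : ℕ) : ℝ) ≤ b0)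
    (g : Finset (Finset V) → ℝ) (hg : UI g) (hge : Blind {{x0, x5}} g) :
    |mu d c (Cm (Nu d) ({{x0, x5}, {x1, x2}, {x3, x4}}
          + {{x0, x1}, {x1, x2}, {x2, x3}, {x3, x4}, {x4, x5}}) g)
      - mu d c (Cm (Nu d) ({{x0, x1}, {x2, x3}, {x4, x5}}
          + {{x0, x1}, {x1, x2}, {x2, x3}, {x3, x4}, {x4, x5}}) g)|
      ≤ 8 * ε + 2 * (b0 * (q + 8 * θ)) := by
  set W0 : Multiset (Finset V) := {{x0, x1}, {x1, x2}, {x2, x3}, {x3, x4}, {x4, x5}} with hW0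
  set P : Finset (Finset V) := {{x0, x1}, {x1, x2}, {x2, x3}, {x3, x4}, {x4, x5}} with hP
  set V' : Finset V := {x0, x1, x2, x3, x4, x5} ∪ A with hV'
  set B := prs V' with hB
  have hB2 : ∀ v ∈ B, v.card = 2 := fun v hv => (mem_prs.1 hv).2
  have hP2 : ∀ v ∈ P, v.card = 2 := by
    intro v hv
    simp only [hP, mem_insert, mem_singleton] at hv
    rcases hv with rfl | rfl | rfl | rfl | rfl
    · exact card_pair h01
    · exact card_pair h12
    · exact card_pair h23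
    · exact card_pair h34
    · exact card_pair h45
  have hBc : (B.card : ℝ) ≤ b0 := by
    refine le_trans ?_ hb0
    have h6 : V'.card ≤ d + 4 := by
      refine (card_union_le _ _).trans ?_
      have : ({x0, x1, x2, x3, x4, x5} : Finset V).card ≤ 6 := card_le_six
      omega
    rw [hB, prs, card_powersetCard]
    exact_mod_cast Nat.choose_le_choose 2 h6
  have hs1 : ∀ (s : Multiset (Finset V)), ∀ p ∈ P, p ∈ s + W0 := by
    intro s p hp
    rw [Multiset.mem_add]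
    right
    simpa [hP, hW0] using hp
  have c1 := blind_cost d hc0 hc1 hθ hq hθ' hB2 hP2 (card_pair h05) hg hge
    (({{x0, x5}, {x1, x2}, {x3, x4}} : Multiset (Finset V)) + W0) (hs1 _)
    (by
      intro u hu
      rw [Multiset.mem_add] at hu
      simp only [hP, hW0, mem_insert, mem_singleton, Multiset.insert_eq_cons, Multiset.mem_cons,
        Multiset.mem_singleton] at hu ⊢
      tauto) hBc (k := 8) (by simp [hW0]) hq0
  have c2 := blind_cost d hc0 hc1 hθ hq hθ' hB2 hP2 (card_pair h05) hg hge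
    (({{x0, x1}, {x2, x3}, {x4, x5}} : Multiset (Finset V)) + W0) (hs1 _)
    (by
      intro u hu
      rw [Multiset.mem_add] at hu
      simp only [hP, hW0, mem_insert, mem_singleton, Multiset.insert_eq_cons, Multiset.mem_cons,
        Multiset.mem_singleton] at hu ⊢
      tauto) hBc (k := 8) (by simp [hW0]) hq0
  have c3 := path_rel hCL hA h0 h1 h2 h3 h4 h5 h01 h12 h23 h34 h45 h03 h05 (V' := V')
    subset_union_right (mem_union_left _ (by simp)) (mem_union_left _ (by simp))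
    (mem_union_left _ (by simp)) (mem_union_left _ (by simp)) (mem_union_left _ (by simp))
    (mem_union_left _ (by simp)) (Cm (Nu d) W0 (bl B P g)) (Cm_UI _ _ (bl_UI B P hg))
    (Cm_blind _ _ (bl_blind B P g))
  rw [Cm_comm, Cm_comm] at c3
  rw [abs_le] at *
  constructor <;> linarith [c1.1, c1.2, c2.1, c2.2, c3.1, c3.2]

/-! ### restatements -/

theorem hidden_star' {d k : ℕ} (hk : k = 1 ∨ k = 2) (hd : 2 ≤ d) {c q w0 eh : ℝ} (hc0 : 0 < c)
    (hc1 : c ≤ 1)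
    (hM0 : 0 < ((Fintype.card V - 2).choose (d - 2) : ℝ))
    (hq : q = c * ((Fintype.card V - 2).choose (d - 2) : ℝ)) (hq1 : q ≤ 1)
    (heh : eh = Real.sqrt (10040 * d ^ 2 * (1 / (w0 * q ^ 2))))
    (a : V) (W : Finset V) (haW : a ∉ W) (hw0 : 0 < w0) (hW : w0 ≤ W.card)
    (hρ : 1 ≤ w0 * q ^ 2) (g : Finset (Finset V) → ℝ) (hg : UI g) :
    |mu d c g - avg W (fun w => mu d c (Cm (Nu d) (Multiset.replicate k {a, w}) g))| ≤ eh := by
  rw [heh]
  unfold mu avg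
  exact hidden_star (V := V) d k hk hd hc0 hc1 hM0 hq hq1 a W haW hw0 hW hρ g hg

theorem hidden_close' {d : ℕ} (hd : 2 ≤ d) {c q w0 eh : ℝ} (hc0 : 0 < c)
    (hc1 : c ≤ 1)
    (hM0 : 0 < ((Fintype.card V - 2).choose (d - 2) : ℝ))
    (hq : q = c * ((Fintype.card V - 2).choose (d - 2) : ℝ)) (hq1 : q ≤ 1)
    (heh : eh = Real.sqrt (10040 * d ^ 2 * (1 / (w0 * q ^ 2))))
    (a b : V) (W W' : Finset V) (haW : a ∉ W) (hbW : b ∉ W') (hWW : Disjoint W W')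
    (hw0 : 0 < w0) (hW : w0 ≤ W.card) (hW' : w0 ≤ W'.card)
    (hρ : 1 ≤ w0 * q ^ 2) (g : Finset (Finset V) → ℝ) (hg : UI g) :
    |mu d c g - avg W (fun w => avg W' (fun w' =>
      mu d c (Cm (Nu d) {{a, w}, {w, w'}, {w, w'}, {w', b}} g)))| ≤ eh := by
  rw [heh, ← avg_product W W'
    (fun i => mu d c (Cm (Nu d) {{a, i.1}, {i.1, i.2}, {i.1, i.2}, {i.2, b}} g))]
  unfold mu avg
  exact hidden_close (V := V) d hd hc0 hc1 hM0 hq hq1 a b W W' haW hbW hWW hw0 hW hW' hρ g hg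

/-- the left multiset of the path argument -/
def ML (x0 x1 x2 x3 x4 x5 : V) : Multiset (Finset V) :=
  {{x0, x5}, {x1, x2}, {x3, x4}} + {{x0, x1}, {x1, x2}, {x2, x3}, {x3, x4}, {x4, x5}}

/-- the right multiset of the path argument -/
def MR (x0 x1 x2 x3 x4 x5 : V) : Multiset (Finset V) :=
  {{x0, x1}, {x2, x3}, {x4, x5}} + {{x0, x1}, {x1, x2}, {x2, x3}, {x3, x4}, {x4, x5}}

theorem ML_eq (x0 x1 x2 x3 x4 x5 : V) (d : ℕ) (g : Finset (Finset V) → ℝ) :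
    Cm (Nu d) {{x2, x3}, {x3, x4}, {x3, x4}, {x4, x5}}
      (Cm (Nu d) (Multiset.replicate 2 {x1, x2}) (Cm (Nu d) (Multiset.replicate 1 {x0, x1})
        (Cm (Nu d) {{x0, x5}} g))) = Cm (Nu d) (ML x0 x1 x2 x3 x4 x5) g := by
  have h : ({{x2, x3}, {x3, x4}, {x3, x4}, {x4, x5}} : Multiset (Finset V))
      + (Multiset.replicate 2 {x1, x2} + (Multiset.replicate 1 {x0, x1} + {{x0, x5}}))
      = ML x0 x1 x2 x3 x4 x5 := by
    unfold ML
    simp only [Multiset.insert_eq_cons, Multiset.replicate_succ, Multiset.replicate_zero,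
      ← Multiset.singleton_add, add_zero]
    abel
  rw [← h, Cm_add, Cm_add, Cm_add]

theorem MR_eq (x0 x1 x2 x3 x4 x5 : V) (d : ℕ) (g : Finset (Finset V) → ℝ) :
    Cm (Nu d) {{x1, x2}, {x2, x3}, {x2, x3}, {x3, x4}}
      (Cm (Nu d) (Multiset.replicate 2 {x5, x4}) (Cm (Nu d) (Multiset.replicate 2 {x0, x1}) g))
      = Cm (Nu d) (MR x0 x1 x2 x3 x4 x5) g := by
  have h : ({{x1, x2}, {x2, x3}, {x2, x3}, {x3, x4}} : Multiset (Finset V))
      + (Multiset.replicate 2 {x5, x4} + Multiset.replicate 2 {x0, x1})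
      = MR x0 x1 x2 x3 x4 x5 := by
    unfold MR
    rw [pair_comm x5 x4]
    simp only [Multiset.insert_eq_cons, Multiset.replicate_succ, Multiset.replicate_zero,
      ← Multiset.singleton_add, add_zero]
    abel
  rw [← h, Cm_add, Cm_add]

/-- Planting a hyperedge over a planted pair is not detectable. -/
theorem main_abstract {d : ℕ} (hd : 2 ≤ d) {c q θ ε b0 w0 : ℝ} (hc0 : 0 < c) (hc1 : c ≤ 1)
    (hM0 : 0 < ((Fintype.card V - 2).choose (d - 2) : ℝ))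
    (hq : q = c * ((Fintype.card V - 2).choose (d - 2) : ℝ)) (hq1 : q ≤ 1) (hθ : 0 ≤ θ)
    (hθ' : ∀ u v : Finset V, u.card = 2 → v.card = 2 → u ≠ v →
      ((Nu d u ∩ Nu d v).card : ℝ) ≤ θ * (Nu d u).card)
    (hCL : CliqueRel V d c ε) {A W1 W2 W3 W4 : Finset V} (hA : A.card + 2 = d)
    {x0 x5 : V} (h05 : x0 ≠ x5)
    (hA0 : x0 ∉ A) (hA5 : x5 ∉ A) (hA1 : Disjoint W1 A) (hA2 : Disjoint W2 A)
    (hA3 : Disjoint W3 A) (hA4 : Disjoint W4 A)
    (h01 : x0 ∉ W1) (h03 : x0 ∉ W3) (h54 : x5 ∉ W4)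
    (h12 : Disjoint W1 W2) (h23 : Disjoint W2 W3) (h34 : Disjoint W3 W4)
    (hw0 : 0 < w0) (w1 : w0 ≤ W1.card) (w2 : w0 ≤ W2.card) (w3 : w0 ≤ W3.card)
    (w4 : w0 ≤ W4.card) (hρ : 1 ≤ w0 * q ^ 2) (hb0 : (((d + 4).choose 2 : ℕ) : ℝ) ≤ b0)
    (g : Finset (Finset V) → ℝ) (hg : UI g) (hge : Blind {{x0, x5}} g) :
    |mu d c (Cm (Nu d) {{x0, x5}} g) - mu d c g|
      ≤ 6 * Real.sqrt (10040 * d ^ 2 * (1 / (w0 * q ^ 2))) + 8 * ε
        + 2 * (b0 * (q + 8 * θ)) := by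
  obtain ⟨eh, heh⟩ : ∃ eh, eh = Real.sqrt (10040 * d ^ 2 * (1 / (w0 * q ^ 2))) := ⟨_, rfl⟩
  rw [← heh]
  have hq0 : 0 < q := by rw [hq]; positivity
  have hqle : ∀ u : Finset V, u.card = 2 → c * (Nu d u).card ≤ q := by
    intro u hu
    rw [card_Nu (by omega), hu, hq]
  have hne : ∀ {W : Finset V}, w0 ≤ W.card → W.Nonempty := by
    intro W hW
    rw [← card_pos]
    have : (0 : ℝ) < W.card := lt_of_lt_of_le hw0 hW
    exact_mod_cast this
  have n1 := hne w1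
  have n2 := hne w2
  have n3 := hne w3
  have n4 := hne w4
  have nin : ∀ {W W' : Finset V} {x : V}, Disjoint W W' → x ∈ W → x ∉ W' :=
    fun h hx hx' => Finset.disjoint_left.1 h hx hx'
  -- left chain
  obtain ⟨FL, hFL⟩ : ∃ FL : V → V → V → V → ℝ, ∀ x1 x2 x3 x4,
    FL x1 x2 x3 x4 = mu d c (Cm (Nu d) (ML x0 x1 x2 x3 x4 x5) g) := ⟨_, fun _ _ _ _ => rfl⟩
  obtain ⟨FR, hFR⟩ : ∃ FR : V → V → V → V → ℝ, ∀ x1 x2 x3 x4,
    FR x1 x2 x3 x4 = mu d c (Cm (Nu d) (MR x0 x1 x2 x3 x4 x5) g) := ⟨_, fun _ _ _ _ => rfl⟩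
  have L : |mu d c (Cm (Nu d) {{x0, x5}} g) - avg W1 (fun x1 => avg W2 (fun x2 => avg W3 (fun x3 =>
      avg W4 (fun x4 => FL x1 x2 x3 x4))))| ≤ 3 * eh := by
    have s1 := hidden_star' (Or.inl rfl) hd hc0 hc1 hM0 hq hq1 heh x0 W1 h01 hw0 w1 hρ
      (Cm (Nu d) {{x0, x5}} g) (Cm_UI _ _ hg)
    have s2 := fun x1 (hx1 : x1 ∈ W1) =>
      hidden_star' (Or.inr rfl) hd hc0 hc1 hM0 hq hq1 heh x1 W2 (nin h12 hx1) hw0 w2
        hρ (Cm (Nu d) (Multiset.replicate 1 {x0, x1})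
        (Cm (Nu d) {{x0, x5}} g)) (Cm_UI _ _ (Cm_UI _ _ hg))
    have s3 : ∀ x1 ∈ W1, ∀ x2 ∈ W2, |mu d c
          (Cm (Nu d) (Multiset.replicate 2 {x1, x2}) (Cm (Nu d) (Multiset.replicate 1 {x0, x1})
            (Cm (Nu d) {{x0, x5}} g))) - avg W3 (fun x3 => avg W4 (fun x4 =>
              FL x1 x2 x3 x4))| ≤ eh := by
      intro x1 hx1 x2 hx2
      have := hidden_close' hd hc0 hc1 hM0 hq hq1 heh x2 x5 W3 W4 (nin h23 hx2) h54 h34 hw0
        w3 w4 hρ (Cm (Nu d) (Multiset.replicate 2 {x1, x2}) (Cm (Nu d)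
          (Multiset.replicate 1 {x0, x1}) (Cm (Nu d) {{x0, x5}} g)))
          (Cm_UI _ _ (Cm_UI _ _ (Cm_UI _ _ hg)))
      have e : avg W3 (fun x3 => avg W4 (fun x4 => FL x1 x2 x3 x4))
          = avg W3 (fun x3 => avg W4 (fun x4 =>
            mu d c (Cm (Nu d) {{x2, x3}, {x3, x4}, {x3, x4}, {x4, x5}}
              (Cm (Nu d) (Multiset.replicate 2 {x1, x2}) (Cm (Nu d)
          (Multiset.replicate 1 {x0, x1}) (Cm (Nu d) {{x0, x5}} g)))))) := by
        refine avg_congr fun x3 _ => avg_congr fun x4 _ => ?_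
        rw [hFL, ← ML_eq]
      rw [e]
      exact this
    have t2 : ∀ x1 ∈ W1, |mu d c (Cm (Nu d) (Multiset.replicate 1 {x0, x1})
        (Cm (Nu d) {{x0, x5}} g)) - avg W2 (fun x2 => avg W3 (fun x3 => avg W4 (fun x4 =>
              FL x1 x2 x3 x4)))| ≤ eh + eh := by
      intro x1 hx1
      exact (abs_sub_le _ _ _).trans (add_le_add (s2 x1 hx1) (avg_close n2 (s3 x1 hx1)))
    refine (abs_sub_le _ _ _).trans (le_trans (add_le_add s1 (avg_close n1 t2)) (le_of_eq ?_))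
    ring
  -- right chain
  have R : |mu d c g - avg W1 (fun x1 => avg W2 (fun x2 => avg W3 (fun x3 =>
      avg W4 (fun x4 => FR x1 x2 x3 x4))))| ≤ 3 * eh := by
    have s1 := hidden_star' (Or.inr rfl) hd hc0 hc1 hM0 hq hq1 heh x0 W1 h01 hw0 w1 hρ
      g hg
    have s2 := fun x1 (_ : x1 ∈ W1) =>
      hidden_star' (Or.inr rfl) hd hc0 hc1 hM0 hq hq1 heh x5 W4 h54 hw0 w4
        hρ (Cm (Nu d) (Multiset.replicate 2 {x0, x1}) g) (Cm_UI _ _ hg)
    have s3 : ∀ x1 ∈ W1, ∀ x4 ∈ W4, |mu d c (Cm (Nu d) (Multiset.replicate 2 {x5, x4})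
          (Cm (Nu d) (Multiset.replicate 2 {x0, x1}) g)) - avg W2 (fun x2 => avg W3 (fun x3 =>
              FR x1 x2 x3 x4))| ≤ eh := by
      intro x1 hx1 x4 hx4
      have := hidden_close' hd hc0 hc1 hM0 hq hq1 heh x1 x4 W2 W3 (nin h12 hx1)
        (nin h34.symm hx4) h23 hw0
        w2 w3 hρ (Cm (Nu d) (Multiset.replicate 2 {x5, x4})
          (Cm (Nu d) (Multiset.replicate 2 {x0, x1}) g))
          (Cm_UI _ _ (Cm_UI _ _ hg))
      have e : avg W2 (fun x2 => avg W3 (fun x3 => FR x1 x2 x3 x4))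
          = avg W2 (fun x2 => avg W3 (fun x3 =>
            mu d c (Cm (Nu d) {{x1, x2}, {x2, x3}, {x2, x3}, {x3, x4}}
              (Cm (Nu d) (Multiset.replicate 2 {x5, x4})
          (Cm (Nu d) (Multiset.replicate 2 {x0, x1}) g))))) := by
        refine avg_congr fun x2 _ => avg_congr fun x3 _ => ?_
        rw [hFR, ← MR_eq]
      rw [e]
      exact this
    have t2 : ∀ x1 ∈ W1, |mu d c (Cm (Nu d) (Multiset.replicate 2 {x0, x1}) g)
        - avg W2 (fun x2 => avg W3 (fun x3 => avg W4 (fun x4 =>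
              FR x1 x2 x3 x4)))| ≤ eh + eh := by
      intro x1 hx1
      have e1 : avg W2 (fun x2 => avg W3 (fun x3 => avg W4 (fun x4 =>
              FR x1 x2 x3 x4)))
          = avg W4 (fun x4 => avg W2 (fun x2 => avg W3 (fun x3 =>
              FR x1 x2 x3 x4))) := by
        rw [avg_comm W4 W2]
        refine avg_congr fun x2 _ => ?_
        rw [avg_comm W3 W4]
      rw [e1]
      exact (abs_sub_le _ _ _).trans (add_le_add (s2 x1 hx1) (avg_close n4 (s3 x1 hx1)))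
    refine (abs_sub_le _ _ _).trans (le_trans (add_le_add s1 (avg_close n1 t2)) (le_of_eq ?_))
    ring
  have mid : |avg W1 (fun x1 => avg W2 (fun x2 => avg W3 (fun x3 =>
      avg W4 (fun x4 => FL x1 x2 x3 x4))))
      - avg W1 (fun x1 => avg W2 (fun x2 => avg W3 (fun x3 =>
      avg W4 (fun x4 => FR x1 x2 x3 x4))))|
      ≤ 8 * ε + 2 * (b0 * (q + 8 * θ)) := by
    refine avg_close n1 fun x1 hx1 => avg_close n2 fun x2 hx2 => avg_close n3 fun x3 hx3 =>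
      avg_close n4 fun x4 hx4 => ?_
    rw [hFL, hFR]
    exact fixed_path hc0.le hc1 hθ hq0.le hqle hθ' hCL hA hA0 (nin hA1 hx1) (nin hA2 hx2)
      (nin hA3 hx3) (nin hA4 hx4) hA5 (fun h => h01 (h ▸ hx1)) (fun h => nin h12 hx1 (h ▸ hx2))
      (fun h => nin h23 hx2 (h ▸ hx3)) (fun h => nin h34 hx3 (h ▸ hx4))
      (fun h => h54 (h ▸ hx4)) (fun h => h03 (h ▸ hx3)) h05 hb0 g hg hge
  rw [abs_le] at *
  constructor <;> linarith [L.1, L.2, R.1, R.2, mid.1, mid.2]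

end Pool.Agent.Hyp
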