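import Pool.Agent.Lib.MP_3f2ee3_pr.Hidden
import Pool.Agent.Lib.MP_3f2ee3_pr.Cover

/-!
# MP_3f2ee3_pr: the alternating path argument
-/

set_option autoImplicit false
set_option linter.unusedSectionVars false

namespace Pool.Agent.Hyp

open Finset

variable {V : Type*} [DecidableEq V] [Fintype V]

/-- expectation of a graph function -/
noncomputable def mu (d : ℕ) (c : ℝ) (g : Finset (Finset V) → ℝ) : ℝ :=
  Ex (hyp V d) (fun _ => c) (fun H => g (pr H))

/-- average over a finite set -/
noncomputable def avg {α : Type*} (W : Finset α) (F : α → ℝ) : ℝ := (∑ w ∈ W, F w) / W.card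

theorem avg_close {α : Type*} {W : Finset α} (hW : W.Nonempty) {F G : α → ℝ} {ε : ℝ}
    (h : ∀ w ∈ W, |F w - G w| ≤ ε) : |avg W F - avg W G| ≤ ε := by
  have hc : (0 : ℝ) < W.card := by exact_mod_cast card_pos.2 hW
  unfold avg
  rw [← sub_div, ← sum_sub_distrib, abs_div, abs_of_pos hc, div_le_iff₀ hc]
  refine (abs_sum_le_sum_abs _ _).trans ((sum_le_sum h).trans ?_)
  rw [sum_const, nsmul_eq_mul, mul_comm]

theorem avg_comm {α β : Type*} (W : Finset α) (W' : Finset β) (F : α → β → ℝ) :
    avg W (fun x => avg W' (fun y => F x y)) = avg W' (fun y => avg W (fun x => F x y)) := by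
  unfold avg
  rw [← sum_div, ← sum_div, sum_comm, div_div, div_div, mul_comm]

theorem avg_product {α β : Type*} (W : Finset α) (W' : Finset β) (F : α × β → ℝ) :
    avg (W ×ˢ W') F = avg W (fun x => avg W' (fun y => F (x, y))) := by
  unfold avg
  rw [sum_product, card_product, ← sum_div, div_div]
  push_cast
  rw [mul_comm]

theorem avg_congr {α : Type*} {W : Finset α} {F G : α → ℝ} (h : ∀ w ∈ W, F w = G w) :
    avg W F = avg W G := by
  unfold avg
  rw [sum_congr rfl h]

/-! ### multisets of pairs -/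

theorem prs_insert_val {x : V} {T : Finset V} (hx : x ∉ T) :
    (prs (insert x T)).val = (prs T).val + T.val.map (fun t => ({x, t} : Finset V)) := by
  have h1 : prs (insert x T) = prs T ∪ T.image (fun t => ({x, t} : Finset V)) := by
    ext u
    rw [mem_union, mem_image, mem_prs, mem_prs]
    constructor
    · rintro ⟨h1, h2⟩
      by_cases hxu : x ∈ u
      · right
        obtain ⟨a, b, hab, rfl⟩ := card_eq_two.1 h2
        rw [mem_insert, mem_singleton] at hxu
        rcases hxu with rfl | rfl
        · refine ⟨b, ?_, rfl⟩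
          have := h1 (mem_insert_of_mem (mem_singleton_self b))
          rcases mem_insert.1 this with h | h
          · exact absurd h (Ne.symm hab)
          · exact h
        · refine ⟨a, ?_, pair_comm _ _⟩
          have := h1 (mem_insert_self a _)
          rcases mem_insert.1 this with h | h
          · exact absurd h hab
          · exact h
      · left
        refine ⟨fun y hy => ?_, h2⟩
        rcases mem_insert.1 (h1 hy) with h | h
        · exact absurd (h ▸ hy) hxu
        · exact h
    · rintro (⟨h1, h2⟩ | ⟨t, ht, rfl⟩)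
      · exact ⟨h1.trans (subset_insert _ _), h2⟩
      · refine ⟨?_, card_pair (fun h => hx (h ▸ ht))⟩
        intro y hy
        rw [mem_insert, mem_singleton] at hy
        rcases hy with rfl | rfl
        · exact mem_insert_self _ _
        · exact mem_insert_of_mem ht
  have hd : Disjoint (prs T) (T.image (fun t => ({x, t} : Finset V))) := by
    rw [Finset.disjoint_left]
    intro u hu hu'
    rw [mem_prs] at hu
    obtain ⟨t, _, rfl⟩ := mem_image.1 hu'
    exact hx (hu.1 (mem_insert_self _ _))
  have hinj : Set.InjOn (fun t => ({x, t} : Finset V)) (T : Set V) := by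
    intro a ha b hb hab
    have h2 : a ∈ ({x, b} : Finset V) := by
      have : a ∈ ({x, a} : Finset V) := by simp
      have hab' : ({x, a} : Finset V) = {x, b} := hab
      rwa [hab'] at this
    rw [mem_insert, mem_singleton] at h2
    rcases h2 with rfl | h2
    · exact absurd ha hx
    · exact h2
  rw [h1, ← disjUnion_eq_union _ _ hd]
  change (prs T).val + (T.image (fun t => ({x, t} : Finset V))).val = _
  rw [image_val_of_injOn hinj]

/-- the multiset identity behind the four-cycle relation -/
theorem four_cycle_multiset {A : Finset V} {x y z w : V} (hx : x ∉ A) (hy : y ∉ A) (hz : z ∉ A)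
    (hw : w ∉ A) (hxy : x ≠ y) (hxw : x ≠ w) (hzy : z ≠ y) (hzw : z ≠ w) :
    (prs (insert x (insert w A))).val + ((prs (insert z (insert y A))).val
        + ({{x, y}, {z, w}} : Multiset (Finset V)))
      = (prs (insert x (insert y A))).val + ((prs (insert z (insert w A))).val
        + ({{x, w}, {z, y}} : Multiset (Finset V))) := by
  rw [prs_insert_val (x := x) (T := insert w A) (by simp [hx, hxw]),
    prs_insert_val (x := z) (T := insert y A) (by simp [hz, hzy]),
    prs_insert_val (x := x) (T := insert y A) (by simp [hx, hxy]),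
    prs_insert_val (x := z) (T := insert w A) (by simp [hz, hzw]),
    prs_insert_val hw, prs_insert_val hy, insert_val_of_notMem hw, insert_val_of_notMem hy]
  simp only [Multiset.map_cons, Multiset.insert_eq_cons]
  simp only [← Multiset.singleton_add]
  abel

section rel

variable (d : ℕ) {c ε : ℝ}

/-- the clique relation -/
def CliqueRel (V : Type*) [DecidableEq V] [Fintype V] (d : ℕ) (c ε : ℝ) : Prop :=
  ∀ h ∈ hyp V d, ∀ g : Finset (Finset V) → ℝ, UI g →
    |Ex (hyp V d) (fun _ => c) (fun H => g (prs h ∪ pr H))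
      - Ex (hyp V d) (fun _ => c) (fun H => Cm (Nu d) (prs h).val g (pr H))| ≤ ε

variable {d}

theorem clique_blind (hCL : CliqueRel V d c ε) {h : Finset V} (hh : h ∈ hyp V d)
    {B : Finset (Finset V)} (hB : prs h ⊆ B) (g : Finset (Finset V) → ℝ) (hg : UI g)
    (hgB : Blind B g) (s : Multiset (Finset V)) :
    |mu d c (Cm (Nu d) s g) - mu d c (Cm (Nu d) ((prs h).val + s) g)| ≤ ε := by
  have h1 := hCL h hh (Cm (Nu d) s g) (Cm_UI _ _ hg)
  have h2 : ∀ G, Cm (Nu d) s g (prs h ∪ G) = Cm (Nu d) s g G := by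
    intro G
    rw [union_comm]
    exact (Cm_blind (Nu d) s hgB).mono hB G
  simp only [h2] at h1
  rw [Cm_add]
  exact h1

theorem four_cycle (hCL : CliqueRel V d c ε) {A : Finset V} (hA : A.card + 2 = d) {x y z w : V}
    (hx : x ∉ A) (hy : y ∉ A) (hz : z ∉ A)
    (hw : w ∉ A) (hxy : x ≠ y) (hxw : x ≠ w) (hzy : z ≠ y) (hzw : z ≠ w)
    {V' : Finset V} (hAV : A ⊆ V') (hxV : x ∈ V') (hyV : y ∈ V') (hzV : z ∈ V') (hwV : w ∈ V')
    (g : Finset (Finset V) → ℝ) (hg : UI g) (hgB : Blind (prs V') g) :
    |mu d c (Cm (Nu d) {{x, y}, {z, w}} g) - mu d c (Cm (Nu d) {{x, w}, {z, y}} g)| ≤ 4 * ε := by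
  have hcard : ∀ a b : V, a ∉ A → b ∉ A → a ≠ b → insert a (insert b A) ∈ hyp V d := by
    intro a b ha hb hab
    rw [mem_hyp, card_insert_of_notMem (by simp [ha, hab]), card_insert_of_notMem hb]
    omega
  have hsub : ∀ a b : V, a ∈ V' → b ∈ V' → prs (insert a (insert b A)) ⊆ prs V' := by
    intro a b ha hb
    exact prs_mono (insert_subset ha (insert_subset hb hAV))
  have s1 := clique_blind hCL (hcard z y hz hy hzy) (hsub z y hzV hyV) g hg hgB
    ({{x, y}, {z, w}} : Multiset (Finset V))
  have s2 := clique_blind hCL (hcard x w hx hw hxw) (hsub x w hxV hwV) g hg hgB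
    ((prs (insert z (insert y A))).val + ({{x, y}, {z, w}} : Multiset (Finset V)))
  have s3 := clique_blind hCL (hcard z w hz hw hzw) (hsub z w hzV hwV) g hg hgB
    ({{x, w}, {z, y}} : Multiset (Finset V))
  have s4 := clique_blind hCL (hcard x y hx hy hxy) (hsub x y hxV hyV) g hg hgB
    ((prs (insert z (insert w A))).val + ({{x, w}, {z, y}} : Multiset (Finset V)))
  rw [four_cycle_multiset hx hy hz hw hxy hxw hzy hzw] at s2
  rw [abs_le] at *
  constructor <;> linarith [s1.1, s1.2, s2.1, s2.2, s3.1, s3.2, s4.1, s4.2]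

theorem Cm_comm (𝒩 : Finset V → Finset (Finset V)) (s t : Multiset (Finset V))
    (g : Finset (Finset V) → ℝ) : Cm 𝒩 s (Cm 𝒩 t g) = Cm 𝒩 (s + t) g := (Cm_add 𝒩 s t g).symm

/-- the relation along a path with six vertices -/
theorem path_rel (hCL : CliqueRel V d c ε) {A : Finset V} (hA : A.card + 2 = d)
    {x0 x1 x2 x3 x4 x5 : V}
    (h0 : x0 ∉ A) (h1 : x1 ∉ A) (h2 : x2 ∉ A) (h3 : x3 ∉ A) (h4 : x4 ∉ A) (h5 : x5 ∉ A)
    (h01 : x0 ≠ x1) (h12 : x1 ≠ x2) (h23 : x2 ≠ x3) (h34 : x3 ≠ x4) (h45 : x4 ≠ x5)
    (h03 : x0 ≠ x3) (h05 : x0 ≠ x5)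
    {V' : Finset V} (hAV : A ⊆ V') (v0 : x0 ∈ V') (v1 : x1 ∈ V') (v2 : x2 ∈ V') (v3 : x3 ∈ V')
    (v4 : x4 ∈ V') (v5 : x5 ∈ V')
    (g : Finset (Finset V) → ℝ) (hg : UI g) (hgB : Blind (prs V') g) :
    |mu d c (Cm (Nu d) {{x0, x5}, {x1, x2}, {x3, x4}} g)
      - mu d c (Cm (Nu d) {{x0, x1}, {x2, x3}, {x4, x5}} g)| ≤ 8 * ε := by
  -- first: {05,43} ~ {03,45}, acting on C_{12} g
  have r1 := four_cycle hCL hA (x := x0) (y := x5) (z := x4) (w := x3) h0 h5 h4 h3 h05 h03 h45
    (Ne.symm h34) hAV v0 v5 v4 v3 (Cm (Nu d) {{x1, x2}} g) (Cm_UI _ _ hg) (Cm_blind _ _ hgB)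
  have r2 := four_cycle hCL hA (x := x0) (y := x3) (z := x2) (w := x1) h0 h3 h2 h1 h03 h01 h23
    (Ne.symm h12) hAV v0 v3 v2 v1 (Cm (Nu d) {{x4, x5}} g) (Cm_UI _ _ hg) (Cm_blind _ _ hgB)
  rw [Cm_comm, Cm_comm] at r1 r2
  have e1 : ({{x0, x5}, {x4, x3}} : Multiset (Finset V)) + {{x1, x2}}
      = {{x0, x5}, {x1, x2}, {x3, x4}} := by
    rw [pair_comm x4 x3]
    simp only [Multiset.insert_eq_cons, ← Multiset.singleton_add]
    abel
  have e2 : ({{x0, x3}, {x4, x5}} : Multiset (Finset V)) + {{x1, x2}}
      = ({{x0, x3}, {x2, x1}} : Multiset (Finset V)) + {{x4, x5}} := by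
    rw [pair_comm x2 x1]
    simp only [Multiset.insert_eq_cons, ← Multiset.singleton_add]
    abel
  have e3 : ({{x0, x1}, {x2, x3}} : Multiset (Finset V)) + {{x4, x5}}
      = {{x0, x1}, {x2, x3}, {x4, x5}} := by
    simp only [Multiset.insert_eq_cons, ← Multiset.singleton_add]
    abel
  rw [e1, e2] at r1
  rw [e3] at r2
  calc _ ≤ _ := abs_sub_le _ _ _
    _ ≤ 4 * ε + 4 * ε := add_le_add r1 r2
    _ = 8 * ε := by ring

end rel


/-! ### making a function blind -/

section blindify

/-- forget the pairs of `B`, put `P` instead -/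
def bl (B P : Finset (Finset V)) (g : Finset (Finset V) → ℝ) (G : Finset (Finset V)) : ℝ :=
  g ((G \ B) ∪ P)

theorem bl_blind (B P : Finset (Finset V)) (g : Finset (Finset V) → ℝ) : Blind B (bl B P g) := by
  intro G
  unfold bl
  rw [union_sdiff_right]

theorem bl_UI (B P : Finset (Finset V)) {g : Finset (Finset V) → ℝ} (hg : UI g) :
    UI (bl B P g) := fun _ => hg _

/-- number of unexpected pairs -/
noncomputable def bad (R : Finset (Finset V)) (G : Finset (Finset V)) : ℝ :=
  ∑ v ∈ R, if v ∈ G then 1 else 0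

theorem bl_close {B P : Finset (Finset V)} {e : Finset V} {g : Finset (Finset V) → ℝ} (hg : UI g)
    (hge : Blind {e} g) (G : Finset (Finset V)) :
    |g G - bl B P g G| ≤ bad (B \ (insert e P)) G + (if P ⊆ G then 0 else 1) := by
  have hb0 : 0 ≤ bad (B \ (insert e P)) G := sum_nonneg fun v _ => by split_ifs <;> norm_num
  have hle : |g G - bl B P g G| ≤ 1 := by
    have h1 := hg G
    have h2 := bl_UI B P hg G
    rw [abs_le]
    constructor <;> linarith
  by_cases hP : P ⊆ G
  · rw [if_pos hP, add_zero]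
    by_cases hbad : ∃ v ∈ B \ (insert e P), v ∈ G
    · obtain ⟨v, hv, hvG⟩ := hbad
      refine hle.trans ?_
      have := single_le_sum (f := fun v => if v ∈ G then (1 : ℝ) else 0)
        (fun v _ => by positivity) hv
      simpa [hvG, bad] using this
    · push Not at hbad
      have h1 : G ∪ {e} = ((G \ B) ∪ P) ∪ {e} := by
        ext v
        simp only [mem_union, mem_singleton, mem_sdiff]
        constructor
        · rintro (h | h)
          · by_cases hvB : v ∈ B
            · by_cases hve : v = e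
              · exact Or.inr hve
              · by_cases hvP : v ∈ P
                · exact Or.inl (Or.inr hvP)
                · exact absurd h (hbad v (by simp [hvB, hve, hvP]))
            · exact Or.inl (Or.inl ⟨h, hvB⟩)
          · exact Or.inr h
        · rintro ((⟨h, _⟩ | h) | h)
          · exact Or.inl h
          · exact Or.inl (hP h)
          · exact Or.inr h
      have h2 : g G = bl B P g G := by
        unfold bl
        rw [← hge G, h1, hge]
      rw [h2, sub_self, abs_zero]
      exact hb0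
  · rw [if_neg hP]
    linarith

theorem av_mono (N : Finset (Finset V)) {f g : Finset (Finset V) → ℝ} (h : ∀ G, f G ≤ g G)
    (G : Finset (Finset V)) : av N f G ≤ av N g G := by
  unfold av
  exact div_le_div_of_nonneg_right (sum_le_sum fun _ _ => h _) (Nat.cast_nonneg _)

theorem Cm_mono (𝒩 : Finset V → Finset (Finset V)) (s : Multiset (Finset V))
    {f g : Finset (Finset V) → ℝ} (h : ∀ G, f G ≤ g G) (G : Finset (Finset V)) :
    Cm 𝒩 s f G ≤ Cm 𝒩 s g G := by
  induction s using Multiset.induction_on generalizing G with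
  | empty => exact h G
  | cons u s ih =>
    rw [Cm_cons, Cm_cons]
    exact av_mono _ ih G

theorem av_abs_sub_le (N : Finset (Finset V)) {f g k : Finset (Finset V) → ℝ}
    (h : ∀ G, |f G - g G| ≤ k G) (G : Finset (Finset V)) : |av N f G - av N g G| ≤ av N k G := by
  unfold av
  rw [← sub_div, ← sum_sub_distrib, abs_div, Nat.abs_cast]
  exact div_le_div_of_nonneg_right ((abs_sum_le_sum_abs _ _).trans (sum_le_sum fun _ _ => h _))
    (Nat.cast_nonneg _)

theorem Cm_abs_sub_le (𝒩 : Finset V → Finset (Finset V)) (s : Multiset (Finset V))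
    {f g k : Finset (Finset V) → ℝ} (h : ∀ G, |f G - g G| ≤ k G) (G : Finset (Finset V)) :
    |Cm 𝒩 s f G - Cm 𝒩 s g G| ≤ Cm 𝒩 s k G := by
  induction s using Multiset.induction_on generalizing G with
  | empty => exact h G
  | cons u s ih =>
    rw [Cm_cons, Cm_cons, Cm_cons]
    exact av_abs_sub_le _ ih G

theorem av_add (N : Finset (Finset V)) (f g : Finset (Finset V) → ℝ) :
    av N (fun G => f G + g G) = fun G => av N f G + av N g G := by
  funext G
  unfold av
  rw [sum_add_distrib, add_div]

theorem Cm_add_fun (𝒩 : Finset V → Finset (Finset V)) (s : Multiset (Finset V))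
    (f g : Finset (Finset V) → ℝ) :
    Cm 𝒩 s (fun G => f G + g G) = fun G => Cm 𝒩 s f G + Cm 𝒩 s g G := by
  induction s using Multiset.induction_on with
  | empty => rfl
  | cons u s ih => rw [Cm_cons, ih, av_add]; simp only [Cm_cons]

/-- If `s` contains the pair `v`, then `v` is present after planting. -/
theorem Cm_notMem_eq_zero (d : ℕ) (s : Multiset (Finset V)) {v : Finset V} (hv : v ∈ s)
    (hv2 : v.card = 2) (G : Finset (Finset V)) :
    Cm (Nu d) s (fun G => if v ∈ G then (0 : ℝ) else 1) G = 0 := by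
  obtain ⟨t, rfl⟩ := Multiset.exists_cons_of_mem hv
  have h1 : v ::ₘ t = t + {v} := by rw [add_comm, Multiset.singleton_add]
  rw [h1, Cm_add]
  have h2 : Cm (Nu d) {v} (fun G => if v ∈ G then (0 : ℝ) else 1) = fun _ => 0 := by
    funext G
    rw [Cm_singleton, av]
    have : ∀ h ∈ Nu d v, (if v ∈ prs h ∪ G then (0 : ℝ) else 1) = 0 := by
      intro h hh
      rw [if_pos]
      rw [mem_Nu] at hh
      exact mem_union_left _ (mem_prs.2 ⟨hh.2, hv2⟩)
    rw [sum_eq_zero this, zero_div]
  rw [h2]
  clear h1 hv h2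
  induction t using Multiset.induction_on generalizing G with
  | empty => rfl
  | cons u s ih =>
    rw [Cm_cons, av, sum_eq_zero fun h _ => ih _, zero_div]

/-- Planting over other pairs creates the pair `v` only with small probability. -/
theorem Cm_mem_le (d : ℕ) {θ : ℝ} (hθ : 0 ≤ θ) (v : Finset V) (s : Multiset (Finset V))
    (h : ∀ u ∈ s, ((Nu d u ∩ Nu d v).card : ℝ) ≤ θ * (Nu d u).card)
    (G : Finset (Finset V)) :
    Cm (Nu d) s (fun G => if v ∈ G then (1 : ℝ) else 0) G
      ≤ (if v ∈ G then 1 else 0) + s.card * θ := by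
  induction s using Multiset.induction_on generalizing G with
  | empty => simp
  | cons u s ih =>
    have ih' := ih (fun w hw => h w (Multiset.mem_cons_of_mem hw))
    rw [Cm_cons, Multiset.card_cons]
    have h1 := av_mono (Nu d u) ih' G
    refine h1.trans ?_
    have h2 : av (Nu d u) (fun G => (if v ∈ G then (1 : ℝ) else 0) + s.card * θ) G
        ≤ ((if v ∈ G then 1 else 0) + θ) + s.card * θ := by
      unfold av
      by_cases hc : (Nu d u).card = 0
      · rw [hc]
        simp only [Nat.cast_zero, div_zero]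
        have : (0 : ℝ) ≤ if v ∈ G then 1 else 0 := by split_ifs <;> norm_num
        positivity
      have hc' : (0 : ℝ) < (Nu d u).card := by exact_mod_cast Nat.pos_of_ne_zero hc
      rw [div_le_iff₀ hc', sum_add_distrib, sum_const, nsmul_eq_mul]
      have h3 : ∑ e ∈ Nu d u, (if v ∈ prs e ∪ G then (1 : ℝ) else 0)
          ≤ ∑ e ∈ Nu d u, ((if v ∈ G then (1 : ℝ) else 0) + (if e ∈ Nu d v then 1 else 0)) := by
        refine sum_le_sum fun e he => ?_
        by_cases hvG : v ∈ G
        · rw [if_pos (mem_union_right _ hvG), if_pos hvG]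
          have : (0 : ℝ) ≤ if e ∈ Nu d v then 1 else 0 := by split_ifs <;> norm_num
          linarith
        · by_cases hve : v ∈ prs e
          · rw [if_pos (mem_union_left _ hve), if_neg hvG, if_pos]
            · simp
            · rw [mem_Nu] at he ⊢
              exact ⟨he.1, (mem_prs.1 hve).1⟩
          · rw [if_neg (by simp [hvG, hve])]
            positivity
      have h4 : ∑ e ∈ Nu d u, (if e ∈ Nu d v then (1 : ℝ) else 0) = (Nu d u ∩ Nu d v).card := by
        rw [← sum_filter, sum_const, nsmul_eq_mul, mul_one]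
        congr 2
      rw [sum_add_distrib, sum_const, nsmul_eq_mul, h4] at h3
      have h5 := h u (Multiset.mem_cons_self u s)
      nlinarith
    refine h2.trans (le_of_eq ?_)
    push_cast
    ring

end blindify

end Pool.Agent.Hyp
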