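import Pool.Agent.Lib.MP_3f2ee3_pr.Clique
import Pool.Agent.Lib.MP_3f2ee3_pr.Path

/-!
# MP_3f2ee3_pr: symmetry
-/

set_option autoImplicit false
set_option linter.unusedSectionVars false

namespace Pool.Agent.Hyp

open Finset

variable {V : Type*} [DecidableEq V]

/-- the action of a permutation on sets of vertices -/
def hat (σ : Equiv.Perm V) : Finset V ↪ Finset V := (mapEmbedding σ.toEmbedding).toEmbedding

theorem hat_apply (σ : Equiv.Perm V) (u : Finset V) : hat σ u = u.map σ.toEmbedding := rfl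

@[simp] theorem card_hat (σ : Equiv.Perm V) (u : Finset V) : (hat σ u).card = u.card := by
  rw [hat_apply, card_map]

theorem hat_symm (σ : Equiv.Perm V) (u : Finset V) : hat σ (hat σ.symm u) = u := by
  rw [hat_apply, hat_apply]
  ext x
  simp

theorem hat_subset (σ : Equiv.Perm V) (u v : Finset V) : hat σ u ⊆ hat σ v ↔ u ⊆ v := by
  rw [hat_apply, hat_apply, map_subset_map]

theorem hat_inter (σ : Equiv.Perm V) (u v : Finset V) : hat σ u ∩ hat σ v = hat σ (u ∩ v) := by
  rw [hat_apply, hat_apply, hat_apply, map_inter]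

theorem prs_hat (σ : Equiv.Perm V) (h : Finset V) : prs (hat σ h) = (prs h).map (hat σ) := by
  rw [prs, prs, hat_apply, powersetCard_map]
  rfl

theorem pr_hat (σ : Equiv.Perm V) (H : Finset (Finset V)) :
    pr (H.map (hat σ)) = (pr H).map (hat σ) := by
  rw [pr, pr, map_eq_image, map_eq_image, image_biUnion, biUnion_image]
  refine biUnion_congr rfl fun h _ => ?_
  rw [prs_hat, map_eq_image]

theorem map_hat_of_forall (σ : Equiv.Perm V) {N N' : Finset (Finset V)}
    (h : ∀ u, hat σ u ∈ N' ↔ u ∈ N) : N' = N.map (hat σ) := by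
  ext u
  rw [mem_map]
  constructor
  · intro hu
    refine ⟨hat σ.symm u, ?_, hat_symm σ u⟩
    rw [← h, hat_symm]
    exact hu
  · rintro ⟨v, hv, rfl⟩
    exact (h v).2 hv

theorem av_hat (σ : Equiv.Perm V) (N : Finset (Finset V)) (f : Finset (Finset V) → ℝ)
    (G : Finset (Finset V)) :
    av (N.map (hat σ)) f (G.map (hat σ)) = av N (fun G => f (G.map (hat σ))) G := by
  unfold av
  rw [sum_map, card_map]
  congr 1
  refine sum_congr rfl fun h _ => ?_
  simp only [prs_hat, map_union]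

theorem Cm_hat (σ : Equiv.Perm V) (𝒩 𝒩' : Finset V → Finset (Finset V))
    (s : Multiset (Finset V)) (h𝒩 : ∀ u ∈ s, 𝒩' (hat σ u) = (𝒩 u).map (hat σ))
    (f : Finset (Finset V) → ℝ) (G : Finset (Finset V)) :
    Cm 𝒩' (s.map (hat σ)) f (G.map (hat σ)) = Cm 𝒩 s (fun G => f (G.map (hat σ))) G := by
  induction s using Multiset.induction_on generalizing G with
  | empty => rfl
  | cons u s ih =>
    rw [Multiset.map_cons, Cm_cons, Cm_cons, h𝒩 u (Multiset.mem_cons_self u s), av_hat]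
    unfold av
    congr 1
    refine sum_congr rfl fun h _ => ?_
    exact ih (fun v hv => h𝒩 v (Multiset.mem_cons_of_mem hv)) _

variable [Fintype V]

theorem hyp_hat (σ : Equiv.Perm V) (d : ℕ) : hyp V d = (hyp V d).map (hat σ) :=
  map_hat_of_forall σ fun u => by rw [mem_hyp, mem_hyp, card_hat]

theorem Ni_hat (σ : Equiv.Perm V) (d : ℕ) (h s : Finset V) :
    Ni d (hat σ h) (hat σ s) = (Ni d h s).map (hat σ) := by
  refine map_hat_of_forall σ fun u => ?_
  rw [mem_Ni, mem_Ni, card_hat, hat_inter, (hat σ).injective.eq_iff]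

theorem Ex_hat (σ : Equiv.Perm V) (d : ℕ) (c : ℝ) (f : Finset (Finset V) → ℝ) :
    Ex (hyp V d) (fun _ => c) f = Ex (hyp V d) (fun _ => c) (fun H => f (H.map (hat σ))) := by
  conv_lhs => rw [hyp_hat σ d, Ex_map]

theorem exists_hat {h h' : Finset V} (hc : h.card = h'.card) :
    ∃ σ : Equiv.Perm V, hat σ h = h' := by
  have e : {x // x ∈ h} ≃ {x // x ∈ h'} := Finset.equivOfCardEq hc
  refine ⟨e.extendSubtype, ?_⟩
  rw [hat_apply]
  apply eq_of_subset_of_card_le
  · intro x hx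
    rw [mem_map] at hx
    obtain ⟨y, hy, rfl⟩ := hx
    exact e.extendSubtype_mem y hy
  · rw [card_map, hc]

/-- From one hyperedge to all. -/
theorem clique_all {d : ℕ} {c ε : ℝ} {h0 : Finset V} (hh0 : h0 ∈ hyp V d)
    (H0 : ∀ f, UI f →
      |Ex (hyp V d) (fun _ => c) (fun H => f (prs h0 ∪ pr H))
        - Ex (hyp V d) (fun _ => c) (fun H => Cm (Ni d h0) (prs h0).val f (pr H))| ≤ ε) :
    ∀ h ∈ hyp V d, ∀ f, UI f →
      |Ex (hyp V d) (fun _ => c) (fun H => f (prs h ∪ pr H))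
        - Ex (hyp V d) (fun _ => c) (fun H => Cm (Ni d h) (prs h).val f (pr H))| ≤ ε := by
  intro h hh f hf
  rw [mem_hyp] at hh0 hh
  obtain ⟨σ, rfl⟩ := exists_hat (hh0.trans hh.symm)
  have e1 : Ex (hyp V d) (fun _ => c) (fun H => f (prs (hat σ h0) ∪ pr H))
      = Ex (hyp V d) (fun _ => c) (fun H => (fun G => f (G.map (hat σ))) (prs h0 ∪ pr H)) := by
    rw [Ex_hat σ]
    refine Ex_congr fun H _ => ?_
    simp only [prs_hat, pr_hat, map_union]
  have e2 : Ex (hyp V d) (fun _ => c)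
        (fun H => Cm (Ni d (hat σ h0)) (prs (hat σ h0)).val f (pr H))
      = Ex (hyp V d) (fun _ => c)
        (fun H => Cm (Ni d h0) (prs h0).val (fun G => f (G.map (hat σ))) (pr H)) := by
    rw [Ex_hat σ]
    refine Ex_congr fun H _ => ?_
    rw [← Cm_hat σ (Ni d h0) (Ni d (hat σ h0)) (prs h0).val (fun u _ => Ni_hat σ d h0 u), pr_hat,
      prs_hat, map_val]
  rw [e1, e2]
  exact H0 _ (fun G => hf _)

/-! ### changing the classes -/

theorem av_const (N : Finset (Finset V)) {c : ℝ} (hc : 0 ≤ c) (G : Finset (Finset V)) :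
    av N (fun _ => c) G ≤ c := by
  unfold av
  rw [sum_const, nsmul_eq_mul]
  by_cases h : (N.card : ℝ) = 0
  · rw [h]; simpa using hc
  · rw [mul_div_cancel_left₀ _ h]

theorem av_change {N N' : Finset (Finset V)} (hN : N' ⊆ N) {κ : ℝ}
    (hκ : (1 - κ) * N.card ≤ N'.card) (hN' : 0 < N'.card)
    {g : Finset (Finset V) → ℝ} (hg : UI g) (G : Finset (Finset V)) :
    |av N' g G - av N g G| ≤ κ := by
  have h1 : (0 : ℝ) < N'.card := by exact_mod_cast hN'
  have h2 : (N'.card : ℝ) ≤ N.card := by exact_mod_cast card_le_card hN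
  have h3 : (0 : ℝ) < N.card := lt_of_lt_of_le h1 h2
  have h4 : ∑ h ∈ N, g (prs h ∪ G) = ∑ h ∈ N', g (prs h ∪ G) + ∑ h ∈ N \ N', g (prs h ∪ G) := by
    rw [add_comm, sum_sdiff hN]
  have h5 : ((N \ N').card : ℝ) = N.card - N'.card := by
    rw [cast_card_sdiff hN]
  set a := ∑ h ∈ N', g (prs h ∪ G) with ha
  set b := ∑ h ∈ N \ N', g (prs h ∪ G) with hb
  have ha0 : 0 ≤ a := sum_nonneg fun h _ => (hg _).1
  have hb0 : 0 ≤ b := sum_nonneg fun h _ => (hg _).1
  have ha1 : a ≤ N'.card := by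
    calc a ≤ ∑ h ∈ N', (1 : ℝ) := sum_le_sum fun h _ => (hg _).2
      _ = N'.card := by simp
  have hb1 : b ≤ N.card - N'.card := by
    rw [← h5]
    calc b ≤ ∑ h ∈ N \ N', (1 : ℝ) := sum_le_sum fun h _ => (hg _).2
      _ = (N \ N').card := by simp
  have hk : 1 - (N'.card : ℝ) / N.card ≤ κ := by
    rw [sub_le_iff_le_add, ← sub_le_iff_le_add', le_div_iff₀ h3]
    exact hκ
  unfold av
  rw [h4]
  have e1 : a / N'.card - (a + b) / N.card
      = a / N'.card * (1 - N'.card / N.card) - b / N.card := by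
    field_simp
    ring
  have e2 : a / N'.card ≤ 1 := by rw [div_le_one h1]; exact ha1
  have e3 : 0 ≤ a / N'.card := by positivity
  have e4 : b / N.card ≤ 1 - N'.card / N.card := by
    rw [div_le_iff₀ h3, sub_mul, div_mul_cancel₀ _ h3.ne']
    linarith
  have e5 : 0 ≤ b / N.card := by positivity
  have e6 : 0 ≤ 1 - (N'.card : ℝ) / N.card := by
    rw [sub_nonneg, div_le_one h3]; exact h2
  rw [e1, abs_le]
  constructor
  · nlinarith
  · nlinarith

theorem Cm_change {𝒩 𝒩' : Finset V → Finset (Finset V)} {κ : ℝ} (s : Multiset (Finset V))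
    (hN : ∀ u ∈ s, 𝒩' u ⊆ 𝒩 u) (hκ0 : 0 ≤ κ)
    (hκ : ∀ u ∈ s, (1 - κ) * (𝒩 u).card ≤ (𝒩' u).card) (hN' : ∀ u ∈ s, 0 < (𝒩' u).card)
    {g : Finset (Finset V) → ℝ} (hg : UI g) (G : Finset (Finset V)) :
    |Cm 𝒩' s g G - Cm 𝒩 s g G| ≤ s.card * κ := by
  induction s using Multiset.induction_on generalizing G with
  | empty => simp
  | cons u s ih =>
    have ih' := ih (fun v hv => hN v (Multiset.mem_cons_of_mem hv))
      (fun v hv => hκ v (Multiset.mem_cons_of_mem hv))
      (fun v hv => hN' v (Multiset.mem_cons_of_mem hv))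
    rw [Cm_cons, Cm_cons, Multiset.card_cons]
    have h1 : |av (𝒩' u) (Cm 𝒩' s g) G - av (𝒩' u) (Cm 𝒩 s g) G| ≤ s.card * κ :=
      (av_abs_sub_le _ ih' G).trans (av_const _ (by positivity) G)
    have h2 := av_change (hN u (Multiset.mem_cons_self u s)) (hκ u (Multiset.mem_cons_self u s))
      (hN' u (Multiset.mem_cons_self u s)) (Cm_UI 𝒩 s hg) G
    refine (abs_sub_le _ _ _).trans ((add_le_add h1 h2).trans (le_of_eq ?_))
    push_cast
    ring

theorem cliqueRel_of {d : ℕ} (hd : 2 ≤ d) {c ε κ : ℝ} (hc0 : 0 ≤ c) (hc1 : c ≤ 1) (hκ0 : 0 ≤ κ)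
    (hκ : (1 - κ) * ((Fintype.card V - 2).choose (d - 2) : ℝ)
      ≤ ((Fintype.card V - d).choose (d - 2) : ℝ))
    (hN : 0 < (Fintype.card V - d).choose (d - 2))
    {h0 : Finset V} (hh0 : h0 ∈ hyp V d)
    (H0 : ∀ f, UI f →
      |Ex (hyp V d) (fun _ => c) (fun H => f (prs h0 ∪ pr H))
        - Ex (hyp V d) (fun _ => c) (fun H => Cm (Ni d h0) (prs h0).val f (pr H))| ≤ ε) :
    CliqueRel V d c (ε + d.choose 2 * κ) := by
  intro h hh g hg
  have h1 := clique_all hh0 H0 h hh g hg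
  have hhd := mem_hyp.1 hh
  have h2 : ∀ G, |Cm (Ni d h) (prs h).val g G - Cm (Nu d) (prs h).val g G|
      ≤ d.choose 2 * κ := by
    intro G
    have h3 : Multiset.card (prs h).val = d.choose 2 := by
      change (prs h).card = _
      rw [prs, card_powersetCard, hhd]
    have h4 : ∀ u ∈ (prs h).val, (Ni d h u).card = (Fintype.card V - d).choose (d - 2) := by
      intro u hu
      have hu' : u ∈ prs h := hu
      rw [mem_prs] at hu'
      rw [card_Ni hu'.1 (by omega), hu'.2, hhd]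
    have h5 := Cm_change (𝒩 := Nu d) (𝒩' := Ni d h) (κ := κ) (prs h).val
      (fun u _ => Ni_subset_Nu) hκ0
      (by
        intro u hu
        rw [h4 u hu]
        have hu' : u ∈ prs h := hu
        rw [mem_prs] at hu'
        rw [card_Nu (by omega), hu'.2]
        exact hκ)
      (by
        intro u hu
        rw [h4 u hu]
        exact hN) hg G
    rw [h3] at h5
    exact h5
  have h6 : |Ex (hyp V d) (fun _ => c) (fun H => Cm (Ni d h) (prs h).val g (pr H))
      - Ex (hyp V d) (fun _ => c) (fun H => Cm (Nu d) (prs h).val g (pr H))|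
      ≤ d.choose 2 * κ := by
    rw [← Ex_sub]
    refine (abs_Ex_le (fun _ _ => ⟨hc0, hc1⟩) _).trans ?_
    exact Ex_le (fun _ _ => ⟨hc0, hc1⟩) fun H _ => h2 (pr H)
  exact (abs_sub_le _ _ _).trans (add_le_add h1 h6)

/-- two different pairs are rarely contained in the same hyperedge -/
theorem card_Nu_inter {d : ℕ} (hd : 3 ≤ d) (hn : 3 ≤ Fintype.card V) {u v : Finset V}
    (hu : u.card = 2) (hv : v.card = 2) (huv : u ≠ v) :
    ((Nu d u ∩ Nu d v).card : ℝ) ≤ (d - 2 : ℝ) / (Fintype.card V - 2) * (Nu d u).card := by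
  have hx : ∃ x ∈ v, x ∉ u := by
    by_contra hcon
    push Not at hcon
    exact huv (eq_of_subset_of_card_le hcon (by omega)).symm
  obtain ⟨x, hxv, hxu⟩ := hx
  have h1 : Nu d u ∩ Nu d v ⊆ Nu d (insert x u) := by
    intro h hh
    rw [mem_inter, mem_Nu, mem_Nu] at hh
    rw [mem_Nu]
    exact ⟨hh.1.1, insert_subset (hh.2.2 hxv) hh.1.2⟩
  have h2 : (insert x u).card = 3 := by rw [card_insert_of_notMem hxu, hu]
  have h3 : (Nu d (insert x u)).card = (Fintype.card V - 3).choose (d - 3) := by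
    rw [card_Nu (by omega), h2]
  have h4 : (Nu d u).card = (Fintype.card V - 2).choose (d - 2) := by
    rw [card_Nu (by omega), hu]
  have h5 : (Fintype.card V - 2) * (Fintype.card V - 3).choose (d - 3)
      = (Fintype.card V - 2).choose (d - 2) * (d - 2) := by
    have := Nat.add_one_mul_choose_eq (Fintype.card V - 3) (d - 3)
    have e1 : Fintype.card V - 3 + 1 = Fintype.card V - 2 := by omega
    have e2 : d - 3 + 1 = d - 2 := by omega
    rw [e1, e2] at this
    exact this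
  have h6 : ((Fintype.card V : ℝ) - 2) * ((Fintype.card V - 3).choose (d - 3) : ℕ)
      = ((Fintype.card V - 2).choose (d - 2) : ℕ) * ((d : ℝ) - 2) := by
    have : (((Fintype.card V - 2) * (Fintype.card V - 3).choose (d - 3) : ℕ) : ℝ)
        = (((Fintype.card V - 2).choose (d - 2) * (d - 2) : ℕ) : ℝ) := by exact_mod_cast h5
    rw [Nat.cast_mul, Nat.cast_mul, Nat.cast_sub (by omega), Nat.cast_sub (by omega)] at this
    exact_mod_cast this
  have hn' : (0 : ℝ) < (Fintype.card V : ℝ) - 2 := by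
    have : (3 : ℝ) ≤ Fintype.card V := by exact_mod_cast hn
    linarith
  rw [h4, div_mul_eq_mul_div, le_div_iff₀ hn']
  have h7 : ((Nu d u ∩ Nu d v).card : ℝ) ≤ ((Fintype.card V - 3).choose (d - 3) : ℕ) := by
    rw [← h3]
    exact_mod_cast card_le_card h1
  have h8 := mul_le_mul_of_nonneg_right h7 hn'.le
  nlinarith

end Pool.Agent.Hyp
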